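import Pool.Agent.Run7.h303.TE.Ext

/-!
Totally extreme invariant states on the integers extend uniquely to totally extreme invariant states
on the rational numbers.
-/

set_option autoImplicit false

open MeasureTheory Filter Topology Finset
open scoped ENNReal ComplexOrder

namespace Run7.h303.TE

open Run7.h303.TR
open Pool.Agent.R202.TM (JointErg)
open Pool.Agent.R203.ID (hat norm_f f_add f_zero norm_hat_le ext_hat hat_map_nsmul inv_iff)

/-- a rational number with a given denominator -/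
lemma rat_div {m : ℤ} {n : ℕ} (hn : n ≠ 0) : ∃ c : ℕ, c ≠ 0 ∧ n = ((m : ℚ) / n).den * c ∧
    m = ((m : ℚ) / n).num * c := by
  set r : ℚ := (m : ℚ) / n with hr
  have hn' : (n : ℚ) ≠ 0 := by exact_mod_cast hn
  have h0 : (r.num : ℚ) / r.den = m / n := by rw [Rat.num_div_den, hr]
  have hd : (r.den : ℚ) ≠ 0 := by exact_mod_cast r.den_nz
  rw [div_eq_div_iff hd hn'] at h0
  have h1 : r.num * n = m * r.den := by exact_mod_cast h0
  have h2 : r.den ∣ n := by
    have h3 : (r.den : ℤ) ∣ r.num * n := Dvd.intro_left m h1.symm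
    have h4 : IsCoprime (r.den : ℤ) r.num := by
      rw [Int.isCoprime_iff_nat_coprime, Int.natAbs_natCast]
      exact r.reduced.symm
    exact_mod_cast h4.dvd_of_dvd_mul_left h3
  obtain ⟨c, hc⟩ := h2
  have hc0 : c ≠ 0 := by
    rintro rfl
    exact hn (by rw [hc, mul_zero])
  refine ⟨c, hc0, hc, ?_⟩
  have h6 : r.num * ((r.den : ℤ) * c) = m * r.den := by
    rw [← h1, hc]
    push_cast
    ring
  have h7 : (r.den : ℤ) ≠ 0 := by exact_mod_cast r.den_nz
  have h8 : (r.den : ℤ) * (r.num * c) = r.den * m := by linarith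
  exact (mul_left_cancel₀ h7 h8).symm

/-- compatible families of measures -/
structure Compat (κ : ℕ → Measure UnitAddCircle) : Prop where
  prob : ∀ n, n ≠ 0 → IsProbabilityMeasure (κ n)
  map : ∀ n k, n ≠ 0 → k ≠ 0 → (κ (n * k)).map (fun x : UnitAddCircle => k • x) = κ n

/-- the function on the rational numbers given by a family of measures -/
noncomputable def Fam (κ : ℕ → Measure UnitAddCircle) (r : ℚ) : ℂ := hat (κ r.den) r.num

lemma Fam_div {κ : ℕ → Measure UnitAddCircle} (h : Compat κ) (m : ℤ) {n : ℕ} (hn : n ≠ 0) :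
    Fam κ ((m : ℚ) / n) = hat (κ n) m := by
  obtain ⟨c, hc0, h1, h2⟩ := rat_div (m := m) hn
  set r : ℚ := (m : ℚ) / n with hr
  haveI := h.prob _ (mul_ne_zero r.den_nz hc0)
  unfold Fam
  rw [h1, h2, ← h.map r.den c r.den_nz hc0, hat_map_nsmul]

lemma common_den {N : ℕ} (x : Fin N → ℚ) : ∃ (D : ℕ) (m : Fin N → ℤ), D ≠ 0 ∧
    ∀ i, x i = (m i : ℚ) / D := by
  refine ⟨∏ i, (x i).den, fun i => (x i).num * (∏ j ∈ Finset.univ.erase i, (x j).den : ℕ),
    Finset.prod_ne_zero_iff.2 fun i _ => (x i).den_nz, fun i => ?_⟩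
  have h1 : ∏ j, (x j).den = (x i).den * ∏ j ∈ Finset.univ.erase i, (x j).den :=
    (Finset.mul_prod_erase _ _ (Finset.mem_univ i)).symm
  have h2 : ((∏ j ∈ Finset.univ.erase i, (x j).den : ℕ) : ℚ) ≠ 0 := by
    exact_mod_cast Finset.prod_ne_zero_iff.2 fun j _ => (x j).den_nz
  rw [h1]
  have h3 : ((x i).den : ℚ) ≠ 0 := by exact_mod_cast (x i).den_nz
  rw [Nat.cast_mul, Int.cast_mul, Int.cast_natCast, mul_div_mul_right _ _ h2, Rat.num_div_den]

lemma Fam_posDef {κ : ℕ → Measure UnitAddCircle} (h : Compat κ) : PosDef (Fam κ) := by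
  intro N x c
  obtain ⟨D, m, hD, hx⟩ := common_den x
  haveI := h.prob D hD
  have h1 := posDef_hat (κ D) N m c
  refine h1.trans_eq (sum_congr rfl fun i _ => sum_congr rfl fun j _ => ?_)
  rw [hx i, hx j, ← sub_div, ← Int.cast_sub, Fam_div h _ hD]

lemma Fam_state {κ : ℕ → Measure UnitAddCircle} (h : Compat κ) {k : ℕ}
    (h2 : ∀ n, n ≠ 0 → MeasurePreserving (fun x : UnitAddCircle => (2 ^ k) • x) (κ n) (κ n))
    (h3 : ∀ n, n ≠ 0 → MeasurePreserving (fun x : UnitAddCircle => (3 ^ k) • x) (κ n) (κ n)) :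
    Fam κ ∈ States ℚ k := by
  have key : ∀ c : ℕ, (∀ n, n ≠ 0 → MeasurePreserving (fun x : UnitAddCircle => c • x) (κ n)
      (κ n)) → ∀ r : ℚ, Fam κ (c • r) = Fam κ r := by
    intro c hc r
    haveI := h.prob r.den r.den_nz
    have e1 : c • r = ((r.num * c : ℤ) : ℚ) / r.den := by
      conv_lhs => rw [← Rat.num_div_den r]
      rw [nsmul_eq_mul]
      push_cast
      ring
    rw [e1, Fam_div h _ r.den_nz, (inv_iff _).1 (hc r.den r.den_nz)]
    rfl
  refine ⟨?_, Fam_posDef h, key _ h2, key _ h3⟩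
  haveI := h.prob _ (0 : ℚ).den_nz
  unfold Fam
  exact hat_zero _

/-- the restriction to the multiples of `1 / n` -/
noncomputable def res (F : ℚ → ℂ) (n : ℕ) (m : ℤ) : ℂ := F ((m : ℚ) / n)

lemma res_state {F : ℚ → ℂ} {k : ℕ} (hF : F ∈ States ℚ k) (n : ℕ) : res F n ∈ States ℤ k := by
  obtain ⟨h0, hpd, h2, h3⟩ := hF
  refine ⟨?_, fun N x c => ?_, fun m => ?_, fun m => ?_⟩
  · unfold res
    simpa using h0
  · have h := hpd N (fun i => (x i : ℚ) / n) c
    refine h.trans_eq (sum_congr rfl fun i _ => sum_congr rfl fun j _ => ?_)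
    unfold res
    congr 2
    push_cast
    ring
  · unfold res
    rw [← h2 ((m : ℚ) / n)]
    congr 1
    rw [nsmul_eq_mul, nsmul_eq_mul]
    push_cast
    ring
  · unfold res
    rw [← h3 ((m : ℚ) / n)]
    congr 1
    rw [nsmul_eq_mul, nsmul_eq_mul]
    push_cast
    ring

lemma eq_of_res {F G : ℚ → ℂ} (h : ∀ n : ℕ, n ≠ 0 → res F n = res G n) : F = G := by
  funext r
  have h1 := congrFun (h r.den r.den_nz) r.num
  unfold res at h1
  rwa [Rat.num_div_den] at h1

lemma ext_of_res {F : ℚ → ℂ} {k : ℕ} (hF : F ∈ States ℚ k)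
    (h : ∀ n : ℕ, n ≠ 0 → res F n ∈ (States ℤ k).extremePoints ℝ) :
    F ∈ (States ℚ k).extremePoints ℝ := by
  refine ⟨hF, ?_⟩
  rintro G hG H hH ⟨a, b, ha, hb, hab, hgh⟩
  refine eq_of_res fun n hn => ?_
  refine (h n hn).2 (res_state hG n) (res_state hH n) ⟨a, b, ha, hb, hab, ?_⟩
  rw [← hgh]
  rfl

lemma preimage_smul_comm {a b : ℕ} {E : Set UnitAddCircle}
    (h : (fun x : UnitAddCircle => a • x) ⁻¹' E = E) :
    (fun x : UnitAddCircle => a • x) ⁻¹' ((fun x : UnitAddCircle => b • x) ⁻¹' E) =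
      (fun x : UnitAddCircle => b • x) ⁻¹' E := by
  ext x
  simp only [Set.mem_preimage]
  rw [comm_smul]
  exact Set.ext_iff.1 h (b • x)

lemma condm_map {μ : Measure UnitAddCircle} {c : ℕ} {E : Set UnitAddCircle}
    (hE : MeasurableSet E) :
    (condm μ ((fun x : UnitAddCircle => c • x) ⁻¹' E)).map (fun x : UnitAddCircle => c • x) =
      condm (μ.map fun x : UnitAddCircle => c • x) E := by
  have hc : Measurable fun x : UnitAddCircle => c • x := by fun_prop
  unfold condm
  rw [Measure.map_smul, Measure.restrict_map hc hE, Measure.map_apply hc hE]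

lemma ext_res_one {F : ℚ → ℂ} {k : ℕ} (hF : F ∈ (States ℚ k).extremePoints ℝ) :
    res F 1 ∈ (States ℤ k).extremePoints ℝ := by
  have hex : ∀ n : ℕ, ∃ μ : Measure UnitAddCircle, IsProbabilityMeasure μ ∧
      MeasurePreserving (fun x : UnitAddCircle => (2 ^ k) • x) μ μ ∧
      MeasurePreserving (fun x : UnitAddCircle => (3 ^ k) • x) μ μ ∧ hat μ = res F n :=
    fun n => exists_meas (res_state hF.1 n)
  choose μ hμ using hex
  have hpr : ∀ n, IsProbabilityMeasure (μ n) := fun n => (hμ n).1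
  have hcomp : ∀ n c, n ≠ 0 → c ≠ 0 → (μ (n * c)).map (fun x : UnitAddCircle => c • x) = μ n := by
    intro n c hn hc
    have := hpr (n * c)
    haveI : IsProbabilityMeasure ((μ (n * c)).map fun x : UnitAddCircle => c • x) :=
      Measure.isProbabilityMeasure_map (by fun_prop)
    have := hpr n
    refine ext_hat fun m => ?_
    rw [hat_map_nsmul, (hμ (n * c)).2.2.2, (hμ n).2.2.2]
    unfold res
    congr 1
    have hc' : (c : ℚ) ≠ 0 := by exact_mod_cast hc
    push_cast
    rw [mul_div_mul_right _ _ hc']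
  have := hpr 1
  rw [← (hμ 1).2.2.2, ext_iff (hμ 1).2.1 (hμ 1).2.2.1]
  intro E hE hE2 hE3
  by_contra hcon
  push Not at hcon
  obtain ⟨h0, h1⟩ := hcon
  have hc0 : μ 1 Eᶜ ≠ 0 := fun h => h1 ((prob_compl_eq_zero_iff hE).1 h)
  -- the preimages
  have hmap1 : ∀ n, n ≠ 0 → (μ n).map (fun x : UnitAddCircle => n • x) = μ 1 := by
    intro n hn
    have h := hcomp 1 n one_ne_zero hn
    rwa [one_mul] at h
  have hval : ∀ n, n ≠ 0 → ∀ D : Set UnitAddCircle, MeasurableSet D →
      μ n ((fun x : UnitAddCircle => n • x) ⁻¹' D) = μ 1 D := by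
    intro n hn D hD
    rw [← hmap1 n hn, Measure.map_apply (by fun_prop) hD]
  have hfam : ∀ D : Set UnitAddCircle, MeasurableSet D → μ 1 D ≠ 0 →
      (fun x : UnitAddCircle => (2 ^ k) • x) ⁻¹' D = D →
      (fun x : UnitAddCircle => (3 ^ k) • x) ⁻¹' D = D →
      Compat (fun n => condm (μ n) ((fun x : UnitAddCircle => n • x) ⁻¹' D)) ∧
      Fam (fun n => condm (μ n) ((fun x : UnitAddCircle => n • x) ⁻¹' D)) ∈ States ℚ k := by
    intro D hD hD0 hD2 hD3
    have hm : ∀ n : ℕ, MeasurableSet ((fun x : UnitAddCircle => n • x) ⁻¹' D) := fun n =>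
      (by fun_prop : Measurable fun x : UnitAddCircle => n • x) hD
    have hC : Compat (fun n => condm (μ n) ((fun x : UnitAddCircle => n • x) ⁻¹' D)) := by
      refine ⟨fun n hn => ?_, fun n c hn hc => ?_⟩
      · have := hpr n
        exact condm_prob (by rw [hval n hn D hD]; exact hD0)
      · have e : (fun x : UnitAddCircle => (n * c) • x) ⁻¹' D =
            (fun x : UnitAddCircle => c • x) ⁻¹' ((fun x : UnitAddCircle => n • x) ⁻¹' D) := by
          ext x
          simp only [Set.mem_preimage]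
          rw [smul_smul]
        rw [e, condm_map (hm n), hcomp n c hn hc]
    refine ⟨hC, Fam_state hC (fun n hn => ?_) (fun n hn => ?_)⟩
    · exact condm_inv (hm n) (preimage_smul_comm hD2) (hμ n).2.1
    · exact condm_inv (hm n) (preimage_smul_comm hD3) (hμ n).2.2.1
  obtain ⟨C1, S1⟩ := hfam E hE h0 hE2 hE3
  obtain ⟨C2, S2⟩ := hfam Eᶜ hE.compl hc0 (by rw [Set.preimage_compl, hE2])
    (by rw [Set.preimage_compl, hE3])
  set a := (μ 1 E).toReal with ha
  set b := (μ 1 Eᶜ).toReal with hb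
  have ha0 : 0 < a := ENNReal.toReal_pos h0 (measure_ne_top _ _)
  have hb0 : 0 < b := ENNReal.toReal_pos hc0 (measure_ne_top _ _)
  have hab : a + b = 1 := by
    rw [ha, hb, ← ENNReal.toReal_add (measure_ne_top _ _) (measure_ne_top _ _),
      measure_add_measure_compl hE, measure_univ, ENNReal.toReal_one]
  have hseg : F ∈ openSegment ℝ
      (Fam fun n => condm (μ n) ((fun x : UnitAddCircle => n • x) ⁻¹' E))
      (Fam fun n => condm (μ n) ((fun x : UnitAddCircle => n • x) ⁻¹' Eᶜ)) := by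
    refine ⟨a, b, ha0, hb0, hab, ?_⟩
    funext r
    set n := r.den with hn
    have hn0 : n ≠ 0 := r.den_nz
    have hmE : MeasurableSet ((fun x : UnitAddCircle => n • x) ⁻¹' E) :=
      (by fun_prop : Measurable fun x : UnitAddCircle => n • x) hE
    have v1 := hval n hn0 E hE
    have v2 := hval n hn0 Eᶜ hE.compl
    have w1 : μ n ((fun x : UnitAddCircle => n • x) ⁻¹' E) ≠ 0 := by rw [v1]; exact h0
    have w2 : μ n ((fun x : UnitAddCircle => n • x) ⁻¹' Eᶜ) ≠ 0 := by rw [v2]; exact hc0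
    have := hpr n
    have p1 := condm_prob w1
    have p2 := condm_prob w2
    have hμn : μ n = ENNReal.ofReal a • condm (μ n) ((fun x : UnitAddCircle => n • x) ⁻¹' E) +
        ENNReal.ofReal b • condm (μ n) ((fun x : UnitAddCircle => n • x) ⁻¹' Eᶜ) := by
      rw [ha, hb, ENNReal.ofReal_toReal (measure_ne_top _ _),
        ENNReal.ofReal_toReal (measure_ne_top _ _), ← v1, ← v2]
      unfold condm
      rw [smul_smul, smul_smul, ENNReal.mul_inv_cancel w1 (measure_ne_top _ _),
        ENNReal.mul_inv_cancel w2 (measure_ne_top _ _), one_smul, one_smul, Set.preimage_compl,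
        Measure.restrict_add_restrict_compl hmE]
    have h5 := hat_conv2 (μ₁ := condm (μ n) ((fun x : UnitAddCircle => n • x) ⁻¹' E))
      (μ₂ := condm (μ n) ((fun x : UnitAddCircle => n • x) ⁻¹' Eᶜ)) ha0.le hb0.le r.num
    rw [← hμn, (hμ n).2.2.2] at h5
    unfold res at h5
    rw [hn, Rat.num_div_den, ← hn] at h5
    rw [h5]
    simp only [Pi.add_apply, Pi.smul_apply, Complex.real_smul]
    rfl
  have e := hF.2 S1 S2 hseg
  have e2 : condm (μ 1) ((fun x : UnitAddCircle => (1 : ℕ) • x) ⁻¹' E) = μ 1 := by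
    have := C1.prob 1 one_ne_zero
    refine ext_hat fun m => ?_
    have h5 := Fam_div C1 m one_ne_zero
    rw [e] at h5
    rw [← h5, (hμ 1).2.2.2]
    rfl
  have e3 := congrArg (fun ν : Measure UnitAddCircle => ν Eᶜ) e2
  have e4 : (fun x : UnitAddCircle => (1 : ℕ) • x) ⁻¹' E = E := by
    ext x
    simp
  simp only [condm] at e3
  rw [e4, Measure.smul_apply, Measure.restrict_apply hE.compl, Set.compl_inter_self, measure_empty,
    smul_zero] at e3
  exact hc0 e3.symm

lemma scale_state {F : ℚ → ℂ} {k : ℕ} (hF : F ∈ States ℚ k) (c : ℚ) :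
    (fun r => F (c * r)) ∈ States ℚ k := by
  obtain ⟨h0, hpd, h2, h3⟩ := hF
  refine ⟨by simpa using h0, fun N x a => ?_, fun r => ?_, fun r => ?_⟩
  · have h := hpd N (fun i => c * x i) a
    refine h.trans_eq (sum_congr rfl fun i _ => sum_congr rfl fun j _ => ?_)
    show _ = star (a j) * a i * F (c * (x i - x j))
    rw [mul_sub]
  · simp only
    rw [← h2 (c * r), mul_smul_comm]
  · simp only
    rw [← h3 (c * r), mul_smul_comm]

lemma scale_ext {F : ℚ → ℂ} {k : ℕ} (hF : F ∈ (States ℚ k).extremePoints ℝ) {c : ℚ}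
    (hc : c ≠ 0) : (fun r => F (c * r)) ∈ (States ℚ k).extremePoints ℝ := by
  refine ⟨scale_state hF.1 c, ?_⟩
  rintro G hG H hH ⟨a, b, ha, hb, hab, hgh⟩
  have h1 := hF.2 (scale_state hG c⁻¹) (scale_state hH c⁻¹) ⟨a, b, ha, hb, hab, by
    funext r
    have h2 := congrFun hgh (c⁻¹ * r)
    simp only [Pi.add_apply, Pi.smul_apply] at h2 ⊢
    rw [h2, mul_inv_cancel_left₀ hc]⟩
  funext r
  have h3 := congrFun h1 (c * r)
  rwa [inv_mul_cancel_left₀ hc] at h3

lemma ext_res {F : ℚ → ℂ} {k : ℕ} (hF : F ∈ (States ℚ k).extremePoints ℝ) {n : ℕ}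
    (hn : n ≠ 0) : res F n ∈ (States ℤ k).extremePoints ℝ := by
  have hn' : ((n : ℚ))⁻¹ ≠ 0 := inv_ne_zero (by exact_mod_cast hn)
  have h := ext_res_one (scale_ext hF hn')
  have e : res (fun r => F ((n : ℚ)⁻¹ * r)) 1 = res F n := by
    funext m
    unfold res
    congr 1
    push_cast
    rw [div_one, inv_mul_eq_div]
  rwa [e] at h

/-- restrictions of totally extreme states -/
theorem totExt_res {F : ℚ → ℂ} (hF : F ∈ TotExt ℚ) {n : ℕ} (hn : n ≠ 0) : res F n ∈ TotExt ℤ :=
  fun k hk => ext_res (hF k hk) hn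

/-- **Totally extreme states extend uniquely to the rational numbers.** -/
theorem totExt_ext {f : ℤ → ℂ} (hf : f ∈ TotExt ℤ) :
    ∃ F ∈ TotExt ℚ, (∀ m : ℤ, F m = f m) ∧ ∀ F' ∈ TotExt ℚ, (∀ m : ℤ, F' m = f m) → F' = F := by
  obtain ⟨μ, hμ, rfl⟩ := totExt_iff.1 hf
  haveI := hμ.prob
  have hC : Compat fun n => root n hμ := by
    refine ⟨fun n hn => (root_spec hn hμ).1.prob, fun n c hn hc => root_map hn hc hμ⟩
  have hroot1 : root 1 hμ = μ := by
    have h := (root_spec one_ne_zero hμ).2.1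
    have e : (fun x : UnitAddCircle => (1 : ℕ) • x) = id := by funext x; simp
    rwa [e, Measure.map_id] at h
  have hF1 : ∀ m : ℤ, Fam (fun n => root n hμ) m = hat μ m := by
    intro m
    have h := Fam_div hC m one_ne_zero
    simp only [Nat.cast_one, div_one, hroot1] at h
    exact h
  refine ⟨Fam fun n => root n hμ, fun k hk => ?_, hF1, fun F' hF' h1 => ?_⟩
  · refine ext_of_res (Fam_state hC (fun n hn => mp_pow (root_spec hn hμ).1.mpp k)
      fun n hn => mp_pow (root_spec hn hμ).1.mpq k) fun n hn => ?_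
    have e : res (Fam fun n => root n hμ) n = hat (root n hμ) := by
      funext m
      exact Fam_div hC m hn
    rw [e]
    exact totExt_iff.2 ⟨_, (root_spec hn hμ).1, rfl⟩ k hk
  · refine eq_of_res fun n hn => ?_
    obtain ⟨ν, hν, hνe⟩ := totExt_iff.1 (totExt_res hF' hn)
    haveI := hν.prob
    haveI : IsProbabilityMeasure (ν.map fun x : UnitAddCircle => n • x) :=
      Measure.isProbabilityMeasure_map (by fun_prop)
    have e : ν.map (fun x : UnitAddCircle => n • x) = μ := by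
      refine ext_hat fun m => ?_
      rw [hat_map_nsmul, hνe, ← h1]
      unfold res
      congr 1
      have hn' : (n : ℚ) ≠ 0 := by exact_mod_cast hn
      push_cast
      field_simp
    have e2 := (root_spec hn hμ).2.2 ν hν e
    rw [← hνe, e2]
    funext m
    exact (Fam_div hC m hn).symm

end Run7.h303.TE
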