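import Pool.Agent.Run7.h303.TE.Gen
import Pool.Agent.Run7.h303.TR.One

/-!
Approximation of `u` by polynomials in `u ^ n`.
-/

set_option autoImplicit false

open MeasureTheory Filter Topology Finset
open scoped ENNReal ComplexOrder BoundedContinuousFunction

namespace Run7.h303.TE

open Run7.h303.TR
open Pool.Agent.Y253.TR
open Pool.Agent.R202.TM (JointErg)
open Pool.Agent.R203.ID (hat norm_f f_add f_zero norm_hat_le ext_hat hat_map_nsmul inv_iff hat_vol)

/-- the square of the distance of `u` and a polynomial in `u ^ n` -/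
noncomputable def dsq (f : ℤ → ℂ) (n : ℕ) (s : Finset ℤ) (c : ℤ → ℂ) : ℝ :=
  (1 - 2 * ∑ k ∈ s, star (c k) * f (1 - n * k) +
    ∑ k ∈ s, ∑ l ∈ s, star (c k) * c l * f (n * (l - k))).re

/-- the polynomial -/
noncomputable def pol (n : ℕ) (s : Finset ℤ) (c : ℤ → ℂ) (x : UnitAddCircle) : ℂ :=
  ∑ k ∈ s, c k * fourier ((n : ℤ) * k) x

lemma star_f (m : ℤ) (x : UnitAddCircle) : star (fourier m x : ℂ) = fourier (-m) x := by
  rw [fourier_neg]
  rfl

lemma f_mul_f (m k : ℤ) (x : UnitAddCircle) :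
    (fourier m x : ℂ) * fourier k x = fourier (m + k) x := by
  rw [fourier_add]

lemma dsq_point (n : ℕ) (s : Finset ℤ) (c : ℤ → ℂ) (x : UnitAddCircle) :
    ‖(fourier 1 x : ℂ) - pol n s c x‖ ^ 2 =
      (1 - 2 * ∑ k ∈ s, star (c k) * (fourier (1 - n * k) x : ℂ) +
        ∑ k ∈ s, ∑ l ∈ s, star (c k) * c l * (fourier (n * (l - k)) x : ℂ)).re := by
  have h1 : star (pol n s c x) * (fourier 1 x : ℂ) =
      ∑ k ∈ s, star (c k) * (fourier (1 - n * k) x : ℂ) := by
    unfold pol
    rw [star_sum, sum_mul]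
    refine sum_congr rfl fun k _ => ?_
    rw [star_mul', star_f, mul_assoc, f_mul_f]
    congr 2
    ring_nf
  have h2 : star (pol n s c x) * pol n s c x =
      ∑ k ∈ s, ∑ l ∈ s, star (c k) * c l * (fourier (n * (l - k)) x : ℂ) := by
    unfold pol
    rw [star_sum, sum_mul]
    refine sum_congr rfl fun k _ => ?_
    rw [mul_sum]
    refine sum_congr rfl fun l _ => ?_
    rw [star_mul', star_f]
    have : (fourier ((n : ℤ) * (l - k)) x : ℂ) = fourier (-((n : ℤ) * k)) x * fourier ((n : ℤ) * l) x := by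
      rw [f_mul_f]
      congr 2
      ring
    rw [this]
    ring
  rw [← h1, ← h2]
  have h3 : star (fourier 1 x : ℂ) * fourier 1 x = 1 := by
    rw [star_f, f_mul_f]
    simp
  set a : ℂ := fourier 1 x
  set b : ℂ := pol n s c x
  have h4 : ((‖a - b‖ ^ 2 : ℝ) : ℂ) = star (a - b) * (a - b) := by
    rw [Complex.star_def, ← Complex.normSq_eq_conj_mul_self, Complex.normSq_eq_norm_sq]
  have h5 : ‖a - b‖ ^ 2 = (star (a - b) * (a - b)).re := by
    rw [← h4, Complex.ofReal_re]
  rw [h5, star_sub]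
  have h6 : (star a - star b) * (a - b) = 1 - star a * b - star b * a + star b * b := by
    rw [← h3]
    ring
  rw [h6]
  have h7 : (star a * b).re = (star b * a).re := by
    rw [← Complex.conj_re, ← Complex.star_def, star_mul', star_star, mul_comm]
  simp only [Complex.add_re, Complex.sub_re, Complex.mul_re, Complex.one_re, Complex.re_ofNat,
    Complex.im_ofNat, zero_mul, sub_zero] at h7 ⊢
  linarith

lemma int_f {μ : Measure UnitAddCircle} [IsFiniteMeasure μ] (m : ℤ) :
    Integrable (fun x : UnitAddCircle => (fourier m x : ℂ)) μ :=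
  Integrable.of_bound (fourier m).continuous.aestronglyMeasurable 1
    (Eventually.of_forall fun x => (norm_f _ x).le)

lemma dsq_int {μ : Measure UnitAddCircle} [IsProbabilityMeasure μ] (n : ℕ) (s : Finset ℤ)
    (c : ℤ → ℂ) : ∫ x, ‖(fourier 1 x : ℂ) - pol n s c x‖ ^ 2 ∂μ = dsq (hat μ) n s c := by
  simp only [dsq_point]
  have i1 : Integrable (fun x : UnitAddCircle =>
      2 * ∑ k ∈ s, star (c k) * (fourier (1 - n * k) x : ℂ)) μ :=
    (integrable_finsetSum _ fun k _ => (int_f _).const_mul _).const_mul _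
  have i2 : Integrable (fun x : UnitAddCircle =>
      ∑ k ∈ s, ∑ l ∈ s, star (c k) * c l * (fourier (n * (l - k)) x : ℂ)) μ :=
    integrable_finsetSum _ fun k _ => integrable_finsetSum _ fun l _ => (int_f _).const_mul _
  have i0 : Integrable (fun _ : UnitAddCircle => (1 : ℂ)) μ := integrable_const 1
  have i01 : Integrable (fun x : UnitAddCircle =>
      1 - 2 * ∑ k ∈ s, star (c k) * (fourier (1 - n * k) x : ℂ)) μ := i0.sub i1
  have h := integral_re (i01.add i2)
  have e : (∫ x, (1 - 2 * ∑ k ∈ s, star (c k) * (fourier (1 - n * k) x : ℂ) +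
        ∑ k ∈ s, ∑ l ∈ s, star (c k) * c l * (fourier (n * (l - k)) x : ℂ)) ∂μ : ℂ) =
      1 - 2 * ∑ k ∈ s, star (c k) * hat μ (1 - n * k) +
    ∑ k ∈ s, ∑ l ∈ s, star (c k) * c l * hat μ (n * (l - k)) := by
    rw [integral_add i01 i2, integral_sub i0 i1, integral_const_mul,
      integral_finsetSum _ fun k _ => (int_f _).const_mul _,
      integral_finsetSum _ fun k _ => integrable_finsetSum _ fun l _ => (int_f _).const_mul _]
    congr 1
    · congr 1
      · simp
      · congr 1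
        refine sum_congr rfl fun k _ => ?_
        rw [integral_const_mul]
        rfl
    · refine sum_congr rfl fun k _ => ?_
      rw [integral_finsetSum _ fun l _ => (int_f _).const_mul _]
      refine sum_congr rfl fun l _ => ?_
      rw [integral_const_mul]
      rfl
  unfold dsq
  rw [← e]
  exact h

lemma approx_of_inj {n : ℕ} {μ : Measure UnitAddCircle} [IsProbabilityMeasure μ]
    (h : InjAE n μ) {ε : ℝ} (hε : 0 < ε) :
    ∃ (s : Finset ℤ) (c : ℤ → ℂ), dsq (hat μ) n s c < ε := by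
  obtain ⟨B, hB, hB0, hinj⟩ := h
  have hnm : Measurable fun x : UnitAddCircle => n • x := by fun_prop
  haveI : StandardBorelSpace B := hB.standardBorel
  have hf : MeasurableEmbedding fun x : B => n • (x : UnitAddCircle) :=
    Measurable.measurableEmbedding (hnm.comp measurable_subtype_coe) fun x y hxy =>
      Subtype.ext (hinj x.2 y.2 hxy)
  obtain ⟨g, hg, hgf⟩ := hf.exists_measurable_extend (measurable_subtype_coe (p := (· ∈ B)))
    fun _ => ⟨0⟩
  have hgx : ∀ x ∈ B, g (n • x) = x := fun x hx => congrFun hgf ⟨x, hx⟩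
  set ρ : Measure UnitAddCircle := μ.map fun x : UnitAddCircle => n • x with hρ
  haveI : IsProbabilityMeasure ρ := Measure.isProbabilityMeasure_map hnm.aemeasurable
  set F : UnitAddCircle → ℂ := fun y => (fourier 1 (g y) : ℂ) with hF
  have hFm : Measurable F := (fourier 1).continuous.measurable.comp hg
  have hFp : MemLp F (ENNReal.ofReal 2) ρ :=
    MemLp.of_bound hFm.aestronglyMeasurable 1 (Eventually.of_forall fun y => (norm_f _ _).le)
  obtain ⟨G₀, hG₀, hG₀p⟩ := hFp.exists_boundedContinuous_integral_rpow_sub_le (by norm_num)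
    (show (0 : ℝ) < ε / 8 by positivity)
  set δ : ℝ := Real.sqrt (ε / 8) with hδ
  have hδ0 : 0 < δ := Real.sqrt_pos.2 (by positivity)
  have hδ2 : δ ^ 2 = ε / 8 := Real.sq_sqrt (by positivity)
  have hden : (⟨G₀, G₀.continuous⟩ : C(UnitAddCircle, ℂ)) ∈
      (Submodule.span ℂ (Set.range (@fourier (1 : ℝ)))).topologicalClosure := by
    rw [span_fourier_closure_eq_top]
    trivial
  rw [← SetLike.mem_coe, Submodule.topologicalClosure_coe, Metric.mem_closure_iff] at hden
  obtain ⟨P, hP, hPd⟩ := hden δ hδ0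
  rw [SetLike.mem_coe, Finsupp.mem_span_range_iff_exists_finsupp] at hP
  obtain ⟨c, hc⟩ := hP
  have hPx : ∀ y : UnitAddCircle, P y = ∑ k ∈ c.support, c k * fourier k y := by
    intro y
    rw [← hc, Finsupp.sum, ContinuousMap.sum_apply]
    rfl
  have hd : ∀ y : UnitAddCircle, ‖G₀ y - P y‖ ≤ δ := by
    intro y
    rw [dist_eq_norm] at hPd
    exact ((ContinuousMap.norm_coe_le_norm
      ((⟨G₀, G₀.continuous⟩ : C(UnitAddCircle, ℂ)) - P) y).trans hPd.le)
  refine ⟨c.support, c, ?_⟩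
  rw [← dsq_int]
  have hfk : ∀ (k : ℤ) (x : UnitAddCircle), (fourier k (n • x) : ℂ) = fourier ((n : ℤ) * k) x := by
    intro k x
    rw [fourier_apply, fourier_apply]
    congr 2
    rw [mul_comm, mul_smul, natCast_zsmul]
  have hae : ∀ᵐ x ∂μ, ‖(fourier 1 x : ℂ) - pol n c.support c x‖ ^ 2 =
      ‖F (n • x) - P (n • x)‖ ^ 2 := by
    have hB' : ∀ᵐ x ∂μ, x ∈ B := hB0
    filter_upwards [hB'] with x hx
    rw [hF, hPx]
    simp only [hgx x hx, hfk]
    rfl
  rw [integral_congr_ae hae]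
  have hmeas : Measurable fun y => ‖F y - P y‖ ^ 2 :=
    ((hFm.sub P.continuous.measurable).norm.pow_const 2)
  have h1 : ∫ x, ‖F (n • x) - P (n • x)‖ ^ 2 ∂μ = ∫ y, ‖F y - P y‖ ^ 2 ∂ρ := by
    rw [hρ, integral_map hnm.aemeasurable hmeas.aestronglyMeasurable]
  rw [h1]
  have hle : ∀ y, ‖F y - P y‖ ^ 2 ≤ 2 * ‖F y - G₀ y‖ ^ (2 : ℝ) + 2 * δ ^ 2 := by
    intro y
    have h2 : ‖F y - P y‖ ≤ ‖F y - G₀ y‖ + δ := by
      calc ‖F y - P y‖ = ‖(F y - G₀ y) + (G₀ y - P y)‖ := by congr 1; ring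
        _ ≤ ‖F y - G₀ y‖ + ‖G₀ y - P y‖ := norm_add_le _ _
        _ ≤ _ := by linarith [hd y]
    rw [Real.rpow_two]
    nlinarith [norm_nonneg (F y - P y), norm_nonneg (F y - G₀ y),
      sq_nonneg (‖F y - G₀ y‖ - δ)]
  obtain ⟨M, hM⟩ : ∃ M : ℝ, ∀ y, ‖G₀ y‖ ≤ M := ⟨‖G₀‖, fun y => G₀.norm_coe_le_norm y⟩
  have hM0 : 0 ≤ M := (norm_nonneg _).trans (hM 0)
  have hi1 : Integrable (fun y => ‖F y - G₀ y‖ ^ (2 : ℝ)) ρ := by
    simp only [Real.rpow_two]
    refine Integrable.of_bound
      ((hFm.sub G₀.continuous.measurable).norm.pow_const 2).aestronglyMeasurable ((1 + M) ^ 2)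
      (Eventually.of_forall fun y => ?_)
    rw [Real.norm_of_nonneg (by positivity)]
    have h3 : ‖F y - G₀ y‖ ≤ 1 + M := (norm_sub_le _ _).trans (add_le_add (norm_f _ _).le (hM y))
    exact pow_le_pow_left₀ (norm_nonneg _) h3 2
  have hi2 : Integrable (fun y => 2 * ‖F y - G₀ y‖ ^ (2 : ℝ) + 2 * δ ^ 2) ρ :=
    (hi1.const_mul 2).add (integrable_const _)
  have hi0 : Integrable (fun y => ‖F y - P y‖ ^ 2) ρ := by
    refine hi2.mono' hmeas.aestronglyMeasurable (Eventually.of_forall fun y => ?_)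
    rw [Real.norm_of_nonneg (by positivity)]
    exact hle y
  have h2 := integral_mono hi0 hi2 hle
  rw [integral_add (hi1.const_mul 2) (integrable_const _), integral_const_mul] at h2
  simp only [integral_const, probReal_univ, one_smul] at h2
  refine lt_of_le_of_lt h2 ?_
  rw [hδ2]
  linarith

/-- the opposite inequality -/
lemma not_approx {n : ℕ} {μ : Measure UnitAddCircle} [IsProbabilityMeasure μ]
    (h : ∀ k : ℤ, hat μ (n * k - 1) = 0) (s : Finset ℤ) (c : ℤ → ℂ) :
    1 ≤ dsq (hat μ) n s c := by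
  rw [← dsq_int]
  set R : UnitAddCircle → ℂ := fun x => (fourier 1 x : ℂ) - pol n s c x with hR
  have hpol : Continuous (pol n s c) := by
    unfold pol
    exact continuous_finsetSum _ fun k _ => continuous_const.mul (fourier _).continuous
  have hRc : Continuous R := (fourier 1).continuous.sub hpol
  have hi : ∀ {f : UnitAddCircle → ℂ}, Continuous f → Integrable f μ := fun hf =>
    hf.integrable_of_hasCompactSupport (HasCompactSupport.of_compactSpace _)
  have hi' : ∀ {f : UnitAddCircle → ℝ}, Continuous f → Integrable f μ := fun hf =>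
    hf.integrable_of_hasCompactSupport (HasCompactSupport.of_compactSpace _)
  have h1 : ∫ x, (fourier (-1) x : ℂ) * R x ∂μ = 1 := by
    have e : ∀ x : UnitAddCircle, (fourier (-1) x : ℂ) * R x =
        1 - ∑ k ∈ s, c k * fourier ((n : ℤ) * k - 1) x := by
      intro x
      rw [hR]
      simp only
      rw [mul_sub, f_mul_f]
      congr 1
      · simp
      · unfold pol
        rw [mul_sum]
        refine sum_congr rfl fun k _ => ?_
        rw [mul_left_comm, f_mul_f]
        congr 2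
        ring_nf
    simp only [e]
    rw [integral_sub (integrable_const 1) (integrable_finsetSum _ fun k _ => (int_f _).const_mul _),
      integral_finsetSum _ fun k _ => (int_f _).const_mul _]
    have h2 : ∀ k ∈ s, ∫ x, c k * (fourier ((n : ℤ) * k - 1) x : ℂ) ∂μ = 0 := by
      intro k _
      rw [integral_const_mul]
      have := h k
      unfold hat at this
      rw [this, mul_zero]
    rw [sum_eq_zero h2]
    simp
  have hc1 : Continuous fun x : UnitAddCircle => (fourier (-1) x : ℂ) * R x :=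
    (fourier (-1)).continuous.mul hRc
  have h3 : ∫ x, ((fourier (-1) x : ℂ) * R x).re ∂μ = 1 := by
    have h4 := integral_re (hi hc1)
    have h5 : RCLike.re (∫ x, (fourier (-1) x : ℂ) * R x ∂μ) = (1 : ℝ) := by
      rw [h1]
      simp
    exact h4.trans h5
  have hle : ∀ x, 2 * ((fourier (-1) x : ℂ) * R x).re - 1 ≤ ‖R x‖ ^ 2 := by
    intro x
    have h6 : ((fourier (-1) x : ℂ) * R x).re ≤ ‖R x‖ := by
      refine (Complex.re_le_norm _).trans ?_
      rw [norm_mul, norm_f, one_mul]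
    nlinarith [sq_nonneg (‖R x‖ - 1)]
  have hj0 : Integrable (fun x => 2 * ((fourier (-1) x : ℂ) * R x).re) μ :=
    hi' (continuous_const.mul (Complex.continuous_re.comp hc1))
  have hj : Integrable (fun x => 2 * ((fourier (-1) x : ℂ) * R x).re - 1) μ :=
    hj0.sub (integrable_const _)
  have hj2 : Integrable (fun x => ‖R x‖ ^ 2) μ := hi' (hRc.norm.pow 2)
  have h7 := integral_mono hj hj2 hle
  rw [integral_sub hj0 (integrable_const _), integral_const_mul, h3] at h7
  simp only [integral_const, probReal_univ, one_smul] at h7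
  linarith

section

variable {s2 s3 t : Equiv.Perm ℚ} (hs2 : ∀ x, s2 x = 2 * x) (hs3 : ∀ x, s3 x = 3 * x)
  (ht : ∀ x, t x = x + 1) {G : Subgroup (Equiv.Perm ℚ)} (hG : G = Subgroup.closure {s2, s3, t})
  {u : G} (hu : ∀ x : ℚ, (u : Equiv.Perm ℚ) x = x + 1)

include hs2 hs3 ht hG hu

/-- **Approximation by polynomials in `u ^ n`.** -/
theorem tot_approx {n : ℕ} (hn : n ≠ 0) {ψ : G → ℂ} (h : ψ ∈ Tot u) {N : ℕ}
    (hN : AddSubgroup.closure {m : ℤ | ψ (u ^ m) ≠ 0} = AddSubgroup.zmultiples (N : ℤ)) :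
    (Nat.Coprime n N → ∀ ε : ℝ, 0 < ε → ∃ (s : Finset ℤ) (c : ℤ → ℂ),
      dsq (fun m => ψ (u ^ m)) n s c < ε) ∧
    (¬ Nat.Coprime n N → ∀ (s : Finset ℤ) (c : ℤ → ℂ), 1 ≤ dsq (fun m => ψ (u ^ m)) n s c) := by
  obtain ⟨μ, hμ, hμ0, hμu⟩ := tot_meas hs2 hs3 ht hG hu h
  haveI := hμ.prob
  have hN' : AddSubgroup.closure {m : ℤ | hat μ m ≠ 0} = AddSubgroup.zmultiples (N : ℤ) := by
    simp only [hμu]
    exact hN
  have hf : (fun m => ψ (u ^ m)) = hat μ := funext fun m => (hμu m).symm
  rw [hf]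
  constructor
  · intro hc ε hε
    refine approx_of_inj ?_ hε
    by_cases hvol : μ = volume
    · have hN0 : N = 0 := by
        have h1 : AddSubgroup.closure {m : ℤ | hat μ m ≠ 0} ≤ ⊥ := by
          rw [AddSubgroup.closure_le]
          intro m hm
          by_contra h0
          rw [hvol] at hm
          exact hm (hat_vol h0)
        rw [hN'] at h1
        have h2 := h1 (AddSubgroup.mem_zmultiples (N : ℤ))
        rw [AddSubgroup.mem_bot] at h2
        exact_mod_cast h2
      rw [hN0, Nat.coprime_zero_right] at hc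
      subst hc
      exact ⟨Set.univ, MeasurableSet.univ, by simp, fun x _ y _ hxy => by simpa using hxy⟩
    · have hne : N ≠ 0 := by
        rintro rfl
        apply hvol
        refine ext_hat fun m => ?_
        by_cases h0 : m = 0
        · rw [h0]
          unfold hat
          simp
        rw [hat_vol h0]
        by_contra h1
        have h2 : m ∈ AddSubgroup.closure {m : ℤ | hat μ m ≠ 0} := AddSubgroup.subset_closure h1
        rw [hN', Nat.cast_zero, AddSubgroup.zmultiples_zero_eq_bot, AddSubgroup.mem_bot] at h2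
        exact h0 h2
      exact (inj_iff (p := 2) (q := 3) le_rfl (by norm_num) (by norm_num) hμ hvol hne
        (stab_iff hN') hn).2 hc
  · intro hc s c
    refine not_approx (fun k => ?_) s c
    by_contra h0
    have h1 : ((n : ℤ) * k - 1) ∈ AddSubgroup.closure {m : ℤ | hat μ m ≠ 0} :=
      AddSubgroup.subset_closure h0
    rw [hN', Int.mem_zmultiples_iff] at h1
    have h2 : ((n.gcd N : ℕ) : ℤ) ∣ (n : ℤ) * k - 1 :=
      (Int.natCast_dvd_natCast.2 (Nat.gcd_dvd_right n N)).trans h1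
    have h3 : ((n.gcd N : ℕ) : ℤ) ∣ (n : ℤ) * k :=
      (Int.natCast_dvd_natCast.2 (Nat.gcd_dvd_left n N)).mul_right k
    have h4 : ((n.gcd N : ℕ) : ℤ) ∣ 1 := by
      have := dvd_sub h3 h2
      rwa [sub_sub_cancel] at this
    exact hc (Nat.dvd_one.1 (by exact_mod_cast h4))

omit hs2 hs3 ht hG hu in
lemma exists_gen (f : ℤ → ℂ) : ∃ N : ℕ,
    AddSubgroup.closure {m : ℤ | f m ≠ 0} = AddSubgroup.zmultiples (N : ℤ) := by
  obtain ⟨a, ha⟩ := Int.subgroup_cyclic (AddSubgroup.closure {m : ℤ | f m ≠ 0})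
  refine ⟨a.natAbs, ?_⟩
  rw [Int.zmultiples_natAbs, AddSubgroup.zmultiples_eq_closure]
  exact ha

lemma gen_ne_zero {φ : G → ℂ} (h : φ ∈ Tot u)
    (hne : φ ≠ Set.indicator ({1} : Set G) (fun _ => (1 : ℂ))) {N : ℕ}
    (hN : AddSubgroup.closure {m : ℤ | φ (u ^ m) ≠ 0} = AddSubgroup.zmultiples (N : ℤ)) :
    N ≠ 0 := by
  rintro rfl
  refine hne (eq_delta hs2 hs3 ht hG h.1.1 hu fun m hm => ?_)
  by_contra h1
  have h2 : m ∈ AddSubgroup.closure {m : ℤ | φ (u ^ m) ≠ 0} := AddSubgroup.subset_closure h1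
  rw [hN, Nat.cast_zero, AddSubgroup.zmultiples_zero_eq_bot, AddSubgroup.mem_bot] at h2
  exact hm h2

end

end Run7.h303.TE
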