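import Pool.Agent.Run7.h303.TE.Trace

/-!
Totally ergodic measures with atoms; the traces and the totally extreme states on the rational numbers.
-/

set_option autoImplicit false

open MeasureTheory Filter Topology Finset
open scoped ENNReal ComplexOrder

namespace Run7.h303.TE

open Run7.h303.TR
open Pool.Agent.Y253.TR
open Pool.Agent.R202.TM (JointErg)
open Pool.Agent.R203.ID (hat norm_f f_add f_zero norm_hat_le ext_hat hat_map_nsmul inv_iff)

lemma smul_modeq {c a b : ℕ} {y : UnitAddCircle} (hy : c • y = 0) (h : a ≡ b [MOD c]) :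
    a • y = b • y := by
  have key : ∀ a : ℕ, a • y = (a % c) • y := by
    intro a
    conv_lhs => rw [← Nat.div_add_mod a c, add_smul, mul_comm, mul_smul, hy, smul_zero, zero_add]
  rw [key a, key b, h]

lemma atom_mono {c : ℕ} {μ : Measure UnitAddCircle}
    (hc : MeasurePreserving (fun x : UnitAddCircle => c • x) μ μ) (y : UnitAddCircle) :
    μ {y} ≤ μ {c • y} := by
  rw [← hc.measure_preimage (measurableSet_singleton (c • y)).nullMeasurableSet]
  refine measure_mono fun z hz => ?_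
  rw [Set.mem_singleton_iff] at hz
  simp [hz]

/-- **A totally ergodic measure with an atom is the point mass at zero.** -/
theorem one_of_atom {μ : Measure UnitAddCircle} (h : TErg 2 3 μ) {x : UnitAddCircle}
    (hx : μ {x} ≠ 0) : ∀ m : ℤ, hat μ m = 1 := by
  haveI := h.prob
  -- the point is a torsion point
  have hfin : {y : UnitAddCircle | μ {x} ≤ μ {y}}.Finite :=
    Measure.finite_const_le_meas_of_disjoint_iUnion μ (pos_iff_ne_zero.2 hx)
      (fun y => measurableSet_singleton y) (fun a b hab => Set.disjoint_singleton.2 hab)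
      (measure_ne_top μ _)
  have hmem : ∀ i : ℕ, (2 ^ i) • x ∈ {y : UnitAddCircle | μ {x} ≤ μ {y}} := fun i =>
    atom_mono (mp_pow h.mpp i) x
  obtain ⟨i, j, hij, he⟩ : ∃ i j : ℕ, i < j ∧ (2 ^ i) • x = (2 ^ j) • x := by
    by_contra hcon
    push Not at hcon
    refine Set.infinite_of_injective_forall_mem (f := fun i : ℕ => (2 ^ i) • x) ?_ hmem hfin
    intro i j hij
    rcases lt_trichotomy i j with h1 | h1 | h1
    · exact absurd hij (hcon i j h1)
    · exact h1
    · exact absurd hij.symm (hcon j i h1)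
  have hpow : 2 ^ i < 2 ^ j := Nat.pow_lt_pow_right (by norm_num) hij
  have hN : 2 ^ j - 2 ^ i ≠ 0 := by omega
  have hNx : (2 ^ j - 2 ^ i) • x = 0 := by
    have h1 : (2 ^ j - 2 ^ i) • x + (2 ^ i) • x = (2 ^ j) • x := by
      rw [← add_smul, Nat.sub_add_cancel hpow.le]
    rw [← he] at h1
    exact left_eq_add.1 (by rw [add_comm]; exact h1.symm)
  obtain ⟨a, b, c, hc, h2, h3, hNc⟩ := six_part_nat hN
  have hc2 : Nat.Coprime 2 c := (Nat.Prime.coprime_iff_not_dvd Nat.prime_two).2 h2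
  have hc3 : Nat.Coprime 3 c := (Nat.Prime.coprime_iff_not_dvd Nat.prime_three).2 h3
  set y : UnitAddCircle := (2 ^ a) • (3 ^ b) • x with hy
  have hcy : c • y = 0 := by
    rw [hy, smul_smul, smul_smul, show c * 2 ^ a * 3 ^ b = 2 ^ a * (3 ^ b * c) by ring, ← hNc,
      hNx]
  have hy0 : μ {y} ≠ 0 := by
    have h1 := (atom_mono (mp_pow h.mpq b) x).trans (atom_mono (mp_pow h.mpp a) ((3 ^ b) • x))
    intro h0
    rw [← hy, h0] at h1
    exact hx (nonpos_iff_eq_zero.1 h1)
  set K := c.totient with hK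
  have hK1 : 1 ≤ K := Nat.totient_pos.2 (Nat.pos_of_ne_zero hc)
  have e2 : (2 ^ K) • y = y := by
    rw [smul_modeq hcy (Nat.ModEq.pow_totient hc2), one_smul]
  have e3 : (3 ^ K) • y = y := by
    rw [smul_modeq hcy (Nat.ModEq.pow_totient hc3), one_smul]
  have e6 : (6 ^ K) • y = y := by
    rw [show (6 : ℕ) = 2 * 3 by norm_num, mul_pow, mul_smul, e3, e2]
  have mp6 : MeasurePreserving (fun x : UnitAddCircle => 6 • x) μ μ := by
    have e : (fun x : UnitAddCircle => 6 • x) =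
        (fun x : UnitAddCircle => 2 • x) ∘ fun x : UnitAddCircle => 3 • x := by
      funext x
      simp only [Function.comp]
      rw [smul_smul]
      norm_num
    rw [e]
    exact h.mpp.comp h.mpq
  set A : ℕ → Set UnitAddCircle := fun m => (fun z : UnitAddCircle => (6 ^ (K * m)) • z) ⁻¹' {y}
    with hA
  have hAm : ∀ m, MeasurableSet (A m) := fun m =>
    (by fun_prop : Measurable fun z : UnitAddCircle => (6 ^ (K * m)) • z)
      (measurableSet_singleton y)
  have hAμ : ∀ m, μ (A m) = μ {y} := fun m =>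
    (mp_pow mp6 (K * m)).measure_preimage (measurableSet_singleton y).nullMeasurableSet
  have hmono : Monotone A := by
    refine monotone_nat_of_le_succ fun m z hz => ?_
    have hz' : (6 ^ (K * m)) • z = y := hz
    change (6 ^ (K * (m + 1))) • z = y
    rw [Nat.mul_succ, pow_add, mul_comm, mul_smul, hz', e6]
  set E : Set UnitAddCircle := ⋃ m, A m with hE
  have hEm : MeasurableSet E := MeasurableSet.iUnion hAm
  have hEμ : μ E = μ {y} := by
    rw [hE, hmono.measure_iUnion]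
    simp [hAμ]
  have hmemE : ∀ z, z ∈ E ↔ ∃ m : ℕ, (6 ^ (K * m)) • z = y := fun z => by
    rw [hE, Set.mem_iUnion]
    rfl
  have hinv : ∀ r s : ℕ, r * s = 6 ^ K → r • y = y → s • y = y →
      (fun z : UnitAddCircle => r • z) ⁻¹' E = E := by
    intro r s hrs hr hs
    ext z
    rw [Set.mem_preimage, hmemE, hmemE]
    constructor
    · rintro ⟨m, hm⟩
      refine ⟨m + 1, ?_⟩
      rw [Nat.mul_succ, pow_add, ← hrs, show 6 ^ (K * m) * (r * s) = s * (6 ^ (K * m) * r) by ring,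
        mul_smul, mul_smul, hm, hs]
    · rintro ⟨m, hm⟩
      refine ⟨m, ?_⟩
      rw [smul_smul, mul_comm, mul_smul, hm, hr]
  have h66 : (2 : ℕ) ^ K * 3 ^ K = 6 ^ K := by rw [← mul_pow]; norm_num
  have h66' : (3 : ℕ) ^ K * 2 ^ K = 6 ^ K := by rw [← mul_pow]; norm_num
  have hE01 := h.erg K hK1 E hEm (hinv _ _ h66 e2 e3) (hinv _ _ h66' e3 e2)
  rw [hEμ] at hE01
  have hy1 : μ {y} = 1 := hE01.resolve_left hy0
  have hyy : 2 • y = y := by
    by_contra hne
    have h1 : μ {2 • y} = 1 := le_antisymm prob_le_one (hy1 ▸ atom_mono h.mpp y)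
    have h2 : μ ({y} ∪ {2 • y}) = 1 + 1 := by
      rw [measure_union (Set.disjoint_singleton.2 (Ne.symm hne)) (measurableSet_singleton _), hy1,
        h1]
    have h3 : μ ({y} ∪ {2 • y}) ≤ 1 := prob_le_one
    rw [h2] at h3
    norm_num at h3
  have hy00 : y = 0 := by
    rw [two_smul] at hyy
    exact left_eq_add.1 hyy.symm
  rw [hy00] at hy1
  have hae : ∀ᵐ z ∂μ, z = 0 := by
    rw [ae_iff]
    exact (prob_compl_eq_zero_iff (μ := μ) (measurableSet_singleton (0 : UnitAddCircle))).2 hy1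
  intro m
  unfold hat
  rw [integral_congr_ae (g := fun _ => (1 : ℂ)) (hae.mono fun z hz => by
    simp only
    rw [hz]
    simp)]
  simp

lemma dirac_of_one {μ : Measure UnitAddCircle} [IsProbabilityMeasure μ] (h : ∀ m : ℤ, hat μ m = 1) :
    μ {0} ≠ 0 := by
  have e : μ = Measure.dirac 0 := by
    refine ext_hat fun m => ?_
    rw [h]
    unfold hat
    rw [integral_dirac]
    simp
  rw [e]
  simp

lemma eq_one_of_int {F : ℚ → ℂ} (hF : F ∈ TotExt ℚ) (h : ∀ m : ℤ, F m = 1) : F = fun _ => 1 := by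
  funext x
  have hn : x.den ≠ 0 := x.den_nz
  obtain ⟨ν, hν, e⟩ := totExt_iff.1 (totExt_res hF hn)
  haveI := hν.prob
  haveI := (hν.map x.den).prob
  have h1 : ∀ m : ℤ, hat (ν.map fun x_1 : UnitAddCircle => x.den • x_1) m = 1 := by
    intro m
    rw [hat_map_nsmul, e]
    unfold res
    rw [← h m]
    congr 1
    push_cast
    field_simp
  have h2 : ¬ ∀ y, ν {y} = 0 := fun h0 => dirac_of_one h1 ((map_atomless hn).2 h0 0)
  push Not at h2
  obtain ⟨y, hy⟩ := h2
  have h3 := one_of_atom hν hy x.num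
  rw [e] at h3
  unfold res at h3
  rw [← h3]
  congr 1
  exact (Rat.num_div_den x).symm

section

variable {s2 s3 t : Equiv.Perm ℚ} (hs2 : ∀ x, s2 x = 2 * x) (hs3 : ∀ x, s3 x = 3 * x)
  (ht : ∀ x, t x = x + 1) {G : Subgroup (Equiv.Perm ℚ)} (hG : G = Subgroup.closure {s2, s3, t})
  {u : G} (hu : ∀ x : ℚ, (u : Equiv.Perm ℚ) x = x + 1)

include hs2 hs3 ht hG hu

/-- **Extension to the rational numbers.** -/
theorem tot_rat {φ : G → ℂ} (h : φ ∈ Tot u) :
    ∃ F ∈ TotExt ℚ, F ≠ (fun _ => 1) ∧ (∀ m : ℤ, F m = φ (u ^ m)) ∧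
      ∀ F' ∈ TotExt ℚ, (∀ m : ℤ, F' m = φ (u ^ m)) → F' = F := by
  obtain ⟨F, hF, h1, h2⟩ := totExt_ext h.2.2
  refine ⟨F, hF, ?_, h1, h2⟩
  rintro rfl
  obtain ⟨μ, hμ, hμ0, hμu⟩ := tot_meas hs2 hs3 ht hG hu h
  haveI := hμ.prob
  refine dirac_of_one (μ := μ) (fun m => ?_) (hμ0 0)
  rw [hμu]
  exact (h1 m).symm

/-- **Traces of totally extreme states on the rational numbers.** -/
theorem rat_tot {F : ℚ → ℂ} (hF : F ∈ TotExt ℚ) (hne : F ≠ fun _ => 1) :
    ∃ φ ∈ Tot u, (∀ m : ℤ, φ (u ^ m) = F m) ∧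
      ∀ φ' ∈ Tot u, (∀ m : ℤ, φ' (u ^ m) = F m) → φ' = φ := by
  obtain ⟨μ, hμ, e⟩ := totExt_iff.1 (totExt_res hF one_ne_zero)
  haveI := hμ.prob
  have h1 : ∀ m : ℤ, hat μ m = F m := fun m => by
    rw [e]
    unfold res
    simp
  have h0 : ∀ y, μ {y} = 0 := by
    by_contra h2
    push Not at h2
    obtain ⟨y, hy⟩ := h2
    exact hne (eq_one_of_int hF fun m => by rw [← h1, one_of_atom hμ hy])
  obtain ⟨φ, hφ, hφu⟩ := tot_of hs2 hs3 ht hG hu hμ h0
  exact ⟨φ, hφ, fun m => by rw [hφu, h1], fun φ' hφ' h' => tot_eq hs2 hs3 ht hG hu hφ' hφ fun m => by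
    rw [h', hφu, h1]⟩

end

end Run7.h303.TE
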