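import Pool.Agent.Run7.h303.TR.Bessel

/-!
Lifts of an ergodic measure on the circle through `x ↦ n x`: the ergodic components of the canonical
lift for the multiplications by numbers which are one modulo `n`, and the lifts which are invariant
under one more multiplication.
-/

set_option autoImplicit false

open MeasureTheory Filter Topology Finset
open scoped ENNReal

namespace Run7.h303.TE

open Run7.h303.TR
open Pool.Agent.R202.TM (JointErg)
open Pool.Agent.R203.ID (hat norm_f f_add f_zero norm_hat_le ext_hat hat_map_nsmul inv_iff)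

lemma f_mul_n (n : ℕ) (l : ℤ) (z : UnitAddCircle) :
    (fourier ((n : ℤ) * l) z : ℂ) = fourier l (n • z) := by
  rw [Pool.Agent.R203.ID.f_nsmul, mul_comm]

/-- the translation by `h / n` -/
noncomputable def tr (n h : ℕ) (x : UnitAddCircle) : UnitAddCircle := x + h • pN n

lemma tr_meas (n h : ℕ) : Measurable (tr n h) := by
  unfold tr
  fun_prop

lemma smul_tr (a n h : ℕ) (x : UnitAddCircle) : a • tr n h x = tr n (a * h) (a • x) := by
  unfold tr
  rw [smul_add, smul_smul]

lemma tr_tr (n h k : ℕ) (x : UnitAddCircle) : tr n h (tr n k x) = tr n (h + k) x := by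
  unfold tr
  rw [add_smul, add_assoc, add_comm (k • pN n)]

lemma pN_mod {n : ℕ} (hn : n ≠ 0) {h k : ℕ} (e : h ≡ k [MOD n]) : h • pN n = k • pN n := by
  have key : ∀ h : ℕ, h • pN n = (h % n) • pN n := by
    intro h
    conv_lhs => rw [← Nat.mod_add_div h n]
    rw [add_smul, mul_comm, mul_smul, pN_tors hn, smul_zero, add_zero]
  rw [key h, key k, e]

lemma tr_mod {n : ℕ} (hn : n ≠ 0) {h k : ℕ} (e : h ≡ k [MOD n]) : tr n h = tr n k := by
  funext x
  unfold tr
  rw [pN_mod hn e]

lemma tr_zero (n : ℕ) : tr n 0 = id := by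
  funext x
  simp [tr]

lemma exists_of_torsion {n : ℕ} (hn : n ≠ 0) {z : UnitAddCircle} (hz : n • z = 0) :
    ∃ h < n, z = h • pN n := by
  obtain ⟨r, rfl⟩ := QuotientAddGroup.mk_surjective z
  have hn' : (n : ℝ) ≠ 0 := by exact_mod_cast hn
  have hnz : (n : ℤ) ≠ 0 := by exact_mod_cast hn
  have h1 : ((n * r : ℝ) : UnitAddCircle) = 0 := by
    rw [← nsmul_eq_mul, AddCircle.coe_nsmul]
    exact hz
  rw [AddCircle.coe_eq_zero_iff] at h1
  obtain ⟨l, hl⟩ := h1
  rw [zsmul_eq_mul, mul_one] at hl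
  have hr : r = l * (1 / n : ℝ) := by
    field_simp
    linarith
  have h2 : ((r : ℝ) : UnitAddCircle) = l • pN n := by
    unfold pN
    rw [← AddCircle.coe_zsmul, zsmul_eq_mul, hr]
  have h4 := Int.emod_lt_of_pos l (by exact_mod_cast Nat.pos_of_ne_zero hn : (0 : ℤ) < n)
  have h5 := Int.emod_nonneg l hnz
  refine ⟨(l % n).toNat, by omega, ?_⟩
  have h3 : l • pN n = (l % n) • pN n := by
    conv_lhs => rw [← Int.emod_add_mul_ediv l n]
    rw [add_smul, mul_comm, mul_smul, natCast_zsmul, pN_tors hn, smul_zero, add_zero]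
  have h6 : ((r : ℝ) : UnitAddCircle) = (l % n).toNat • pN n := by
    rw [h2, h3, ← natCast_zsmul, Int.toNat_of_nonneg h5]
  exact h6

/-- a section of `x ↦ n x` -/
noncomputable def sec (n : ℕ) (x : UnitAddCircle) : UnitAddCircle :=
  (((AddCircle.measurableEquivIco (1 : ℝ) 0 x : ℝ) / n : ℝ) : UnitAddCircle)

lemma sec_meas (n : ℕ) : Measurable (sec n) := by
  unfold sec
  have h1 : Measurable fun x : UnitAddCircle => (AddCircle.measurableEquivIco (1 : ℝ) 0 x : ℝ) :=
    measurable_subtype_coe.comp (AddCircle.measurableEquivIco (1 : ℝ) 0).measurable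
  exact AddCircle.measurable_mk'.comp (h1.div_const _)

lemma smul_sec {n : ℕ} (hn : n ≠ 0) (x : UnitAddCircle) : n • sec n x = x := by
  unfold sec
  have hn' : (n : ℝ) ≠ 0 := by exact_mod_cast hn
  rw [← AddCircle.coe_nsmul, nsmul_eq_mul, mul_div_cancel₀ _ hn']
  exact (AddCircle.equivIco (1 : ℝ) 0).symm_apply_apply x

/-- the canonical lift -/
lemma exists_canonical {n : ℕ} (hn : n ≠ 0) (μ : Measure UnitAddCircle) [IsProbabilityMeasure μ] :
    ∃ κ : Measure UnitAddCircle, IsProbabilityMeasure κ ∧ (∀ l : ℤ, hat κ (l * n) = hat μ l) ∧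
      ∀ m : ℤ, ¬ (n : ℤ) ∣ m → hat κ m = 0 := by
  have hsec := sec_meas n
  haveI : IsProbabilityMeasure (μ.map (sec n)) := Measure.isProbabilityMeasure_map hsec.aemeasurable
  obtain ⟨κ, h1, h2⟩ := exists_avg_trans hn (μ.map (sec n))
  refine ⟨κ, h1, fun l => ?_, fun m hm => ?_⟩
  · rw [h2, if_pos (Dvd.intro_left l rfl), ← hat_map_nsmul]
    congr 1
    rw [Measure.map_map (by fun_prop) hsec]
    have : (fun x : UnitAddCircle => n • x) ∘ sec n = id := by
      funext x
      exact smul_sec hn x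
    rw [this, Measure.map_id]
  · rw [h2, if_neg hm]

/-- multiples of the canonical lift as sums of translates -/
lemma sum_trans {N : ℕ} (hN : N ≠ 0) {ν κ : Measure UnitAddCircle} [IsProbabilityMeasure ν]
    [IsProbabilityMeasure κ] (h : ∀ m : ℤ, hat κ m = if (N : ℤ) ∣ m then hat ν m else 0) :
    (N : ℝ≥0∞) • κ = ∑ k ∈ range N, ν.map (tr N k) := by
  have hfin : IsFiniteMeasure ((N : ℝ≥0∞) • κ) := Measure.smul_finite _ (by simp)
  have hfm : ∀ k : ℕ, IsFiniteMeasure (ν.map (tr N k)) := fun k => Measure.isFiniteMeasure_map ν _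
  have hhat : ∀ (k : ℕ) (m : ℤ), ∫ x, (fourier m x : ℂ) ∂(ν.map (tr N k)) =
      fourier m (k • pN N) * hat ν m := by
    intro k m
    rw [integral_map (tr_meas N k).aemeasurable (fourier m).continuous.aestronglyMeasurable]
    unfold tr
    simp only [f_add]
    rw [integral_mul_const, mul_comm]
    rfl
  refine Pool.Agent.R202.ext_fourier fun m => ?_
  have hi : ∀ (ρ : Measure UnitAddCircle) [IsFiniteMeasure ρ],
      Integrable (fun x : UnitAddCircle => (fourier m x : ℂ)) ρ := fun ρ _ =>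
    Integrable.of_bound (fourier m).continuous.aestronglyMeasurable 1
      (Eventually.of_forall fun x => (norm_f _ x).le)
  rw [integral_smul_measure, integral_finsetSum_measure fun k _ => hi _]
  simp only [hhat]
  rw [← sum_mul, sum_roots hN]
  have h1 : ∫ x, (fourier m x : ℂ) ∂κ = if (N : ℤ) ∣ m then hat ν m else 0 := h m
  rw [h1]
  split_ifs
  · simp
  · simp

lemma hat_tr (ν : Measure UnitAddCircle) (n h : ℕ) (m : ℤ) :
    hat (ν.map (tr n h)) m = fourier m (h • pN n) * hat ν m := by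
  unfold hat
  rw [integral_map (tr_meas n h).aemeasurable (fourier m).continuous.aestronglyMeasurable]
  unfold tr
  simp only [f_add]
  rw [integral_mul_const, mul_comm]

lemma map_tr_tr (ν : Measure UnitAddCircle) (n h k : ℕ) :
    (ν.map (tr n k)).map (tr n h) = ν.map (tr n (h + k)) := by
  rw [Measure.map_map (tr_meas n h) (tr_meas n k)]
  congr 1
  funext x
  exact tr_tr n h k x

lemma map_smul_tr (ν : Measure UnitAddCircle) (a n h : ℕ) :
    (ν.map (tr n h)).map (fun x : UnitAddCircle => a • x) =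
      (ν.map fun x : UnitAddCircle => a • x).map (tr n (a * h)) := by
  rw [Measure.map_map (by fun_prop) (tr_meas n h), Measure.map_map (tr_meas n _) (by fun_prop)]
  congr 1
  funext x
  exact smul_tr a n h x

/-- translations do not change the image -/
lemma map_tr_smul {n : ℕ} (hn : n ≠ 0) (ν : Measure UnitAddCircle) (h : ℕ) :
    (ν.map (tr n h)).map (fun x : UnitAddCircle => n • x) = ν.map fun x : UnitAddCircle => n • x := by
  rw [map_smul_tr, tr_mod hn (show n * h ≡ 0 [MOD n] by simp [Nat.ModEq]), tr_zero, Measure.map_id]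

lemma mp_tr {n a : ℕ} (hn : n ≠ 0) (ha : a ≡ 1 [MOD n]) {ν : Measure UnitAddCircle}
    (h : MeasurePreserving (fun x : UnitAddCircle => a • x) ν ν) (k : ℕ) :
    MeasurePreserving (fun x : UnitAddCircle => a • x) (ν.map (tr n k)) (ν.map (tr n k)) := by
  refine ⟨by fun_prop, ?_⟩
  rw [map_smul_tr, h.map_eq, tr_mod hn (show a * k ≡ k [MOD n] by simpa using ha.mul_right k)]

lemma pre_tr {n a : ℕ} (hn : n ≠ 0) (ha : a ≡ 1 [MOD n]) {E : Set UnitAddCircle} (k : ℕ)
    (hE : (fun x : UnitAddCircle => a • x) ⁻¹' E = E) :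
    (fun x : UnitAddCircle => a • x) ⁻¹' (tr n k ⁻¹' E) = tr n k ⁻¹' E := by
  ext x
  simp only [Set.mem_preimage]
  have h1 : tr n k (a • x) = a • tr n k x := by
    rw [smul_tr, tr_mod hn (show a * k ≡ k [MOD n] by simpa using ha.mul_right k)]
  rw [h1]
  exact Set.ext_iff.1 hE (tr n k x)

lemma erg_tr {n a b : ℕ} (hn : n ≠ 0) (ha : a ≡ 1 [MOD n]) (hb : b ≡ 1 [MOD n])
    {ν : Measure UnitAddCircle}
    (h : JointErg (fun x : UnitAddCircle => a • x) (fun x : UnitAddCircle => b • x) ν) (k : ℕ) :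
    JointErg (fun x : UnitAddCircle => a • x) (fun x : UnitAddCircle => b • x)
      (ν.map (tr n k)) := by
  intro E hE h1 h2
  rw [Measure.map_apply (tr_meas n k) hE]
  exact h _ (tr_meas n k hE) (pre_tr hn ha k h1) (pre_tr hn hb k h2)

/-- a measure, its invariance and ergodicity for two multiplications -/
structure Erg2 (a b : ℕ) (μ : Measure UnitAddCircle) : Prop where
  prob : IsProbabilityMeasure μ
  mpa : MeasurePreserving (fun x : UnitAddCircle => a • x) μ μ
  mpb : MeasurePreserving (fun x : UnitAddCircle => b • x) μ μ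
  erg : JointErg (fun x : UnitAddCircle => a • x) (fun x : UnitAddCircle => b • x) μ

lemma Erg2.tr {n a b : ℕ} (hn : n ≠ 0) (ha : a ≡ 1 [MOD n]) (hb : b ≡ 1 [MOD n])
    {ν : Measure UnitAddCircle} (h : Erg2 a b ν) (k : ℕ) : Erg2 a b (ν.map (tr n k)) := by
  haveI := h.prob
  exact ⟨Measure.isProbabilityMeasure_map (tr_meas n k).aemeasurable, mp_tr hn ha h.mpa k,
    mp_tr hn hb h.mpb k, erg_tr hn ha hb h.erg k⟩

lemma Erg2.map {a b : ℕ} {ν : Measure UnitAddCircle} (h : Erg2 a b ν) (k : ℕ) :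
    Erg2 a b (ν.map fun x : UnitAddCircle => k • x) := by
  haveI := h.prob
  exact ⟨Measure.isProbabilityMeasure_map (by fun_prop), mp_map h.mpa k, mp_map h.mpb k,
    erg_map h.erg k⟩

lemma Erg2.eq_or {a b : ℕ} {μ ν : Measure UnitAddCircle} (hμ : Erg2 a b μ) (hν : Erg2 a b ν) :
    ν = μ ∨ ν ⟂ₘ μ := by
  haveI := hμ.prob
  haveI := hν.prob
  exact eq_or_ms hμ.erg hν.erg hμ.mpa hμ.mpb (comm_smul a b) hν.mpa hν.mpb

/-- **Ergodic lifts for multipliers which are one modulo `n`.** -/
theorem exists_component {n a b : ℕ} (hn : n ≠ 0) (ha : a ≡ 1 [MOD n]) (hb : b ≡ 1 [MOD n])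
    {μ : Measure UnitAddCircle} (hμ : Erg2 a b μ) :
    ∃ ρ : Measure UnitAddCircle, Erg2 a b ρ ∧ ρ.map (fun x : UnitAddCircle => n • x) = μ := by
  haveI := hμ.prob
  obtain ⟨κ, hκ, hκ1, hκ0⟩ := exists_canonical hn μ
  have hnz : (n : ℤ) ≠ 0 := by exact_mod_cast hn
  have hnm : Measurable fun x : UnitAddCircle => n • x := by fun_prop
  -- properties of the canonical lift
  have hκn : κ.map (fun x : UnitAddCircle => n • x) = μ := by
    haveI : IsProbabilityMeasure (κ.map fun x : UnitAddCircle => n • x) :=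
      Measure.isProbabilityMeasure_map hnm.aemeasurable
    exact ext_hat fun m => by rw [hat_map_nsmul, hκ1]
  have hκinv : ∀ c : ℕ, c ≡ 1 [MOD n] →
      MeasurePreserving (fun x : UnitAddCircle => c • x) μ μ →
      MeasurePreserving (fun x : UnitAddCircle => c • x) κ κ := by
    intro c hc hcμ
    rw [inv_iff] at hcμ ⊢
    intro m
    by_cases hd : (n : ℤ) ∣ m
    · obtain ⟨l, rfl⟩ := hd
      rw [show (n : ℤ) * l * c = (l * c) * n by ring, hκ1, hcμ, mul_comm, hκ1]
    · rw [hκ0 m hd, hκ0]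
      intro hd2
      apply hd
      have h1 : (n : ℤ) ∣ (c : ℤ) - 1 := by
        have := (Nat.modEq_iff_dvd.1 hc.symm)
        simpa using this
      have h2 : m = m * c - m * ((c : ℤ) - 1) := by ring
      rw [h2]
      exact dvd_sub hd2 (h1.mul_left m)
  have κa := hκinv a ha hμ.mpa
  have κb := hκinv b hb hμ.mpb
  have κtr : ∀ h : ℕ, κ.map (tr n h) = κ := by
    intro h
    haveI : IsProbabilityMeasure (κ.map (tr n h)) :=
      Measure.isProbabilityMeasure_map (tr_meas n h).aemeasurable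
    refine ext_hat fun m => ?_
    rw [hat_tr]
    by_cases hd : (n : ℤ) ∣ m
    · obtain ⟨l, rfl⟩ := hd
      have h1 : (fourier ((n : ℤ) * l) (h • pN n) : ℂ) = 1 := by
        rw [f_mul_n, comm_smul, pN_tors hn, smul_zero, f_zero]
      rw [h1, one_mul]
    · rw [hκ0 m hd, mul_zero]
  -- the saturation of an invariant set
  have hsat : ∀ E : Set UnitAddCircle, MeasurableSet E →
      (fun x : UnitAddCircle => a • x) ⁻¹' E = E → (fun x : UnitAddCircle => b • x) ⁻¹' E = E →
      κ E ≠ 0 → 1 ≤ (n : ℝ≥0∞) * κ E := by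
    intro E hE hEa hEb hE0
    set F : Set UnitAddCircle := ⋃ h ∈ range n, (fun y => tr n h (sec n y)) ⁻¹' E with hF
    have hFm : MeasurableSet F := by
      rw [hF]
      exact Finset.measurableSet_biUnion _ fun h _ => ((tr_meas n h).comp (sec_meas n)) hE
    have hmem : ∀ y : UnitAddCircle, y ∈ F ↔ ∃ x ∈ E, n • x = y := by
      intro y
      rw [hF]
      simp only [Set.mem_iUnion, Set.mem_preimage, exists_prop, mem_range]
      constructor
      · rintro ⟨h, hh, hy⟩
        refine ⟨_, hy, ?_⟩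
        rw [smul_tr, smul_sec hn, tr_mod hn (show n * h ≡ 0 [MOD n] by simp [Nat.ModEq]), tr_zero,
          id]
      · rintro ⟨x, hx, rfl⟩
        have h1 : n • (x - sec n (n • x)) = 0 := by
          rw [smul_sub, smul_sec hn, sub_self]
        obtain ⟨h, hh, e⟩ := exists_of_torsion hn h1
        refine ⟨h, hh, ?_⟩
        have h2 : tr n h (sec n (n • x)) = x := by
          unfold tr
          rw [← e]
          abel
        rw [h2]
        exact hx
    have hFinv : ∀ c : ℕ, c ≡ 1 [MOD n] → (fun x : UnitAddCircle => c • x) ⁻¹' E = E →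
        (fun x : UnitAddCircle => c • x) ⁻¹' F = F := by
      intro c hc hcE
      ext y
      simp only [Set.mem_preimage]
      rw [hmem, hmem]
      constructor
      · rintro ⟨x, hx, hxy⟩
        have h1 : n • (x - c • sec n y) = 0 := by
          rw [smul_sub, hxy, comm_smul, smul_sec hn, sub_self]
        obtain ⟨h, hh, e⟩ := exists_of_torsion hn h1
        refine ⟨tr n h (sec n y), ?_, ?_⟩
        · rw [← hcE]
          show c • tr n h (sec n y) ∈ E
          rw [smul_tr, tr_mod hn (show c * h ≡ h [MOD n] by simpa using hc.mul_right h)]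
          unfold tr
          rw [← e]
          have : c • sec n y + (x - c • sec n y) = x := by abel
          rw [this]
          exact hx
        · rw [smul_tr, smul_sec hn, tr_mod hn (show n * h ≡ 0 [MOD n] by simp [Nat.ModEq]),
            tr_zero, id]
      · rintro ⟨x, hx, rfl⟩
        refine ⟨c • x, ?_, comm_smul n c x⟩
        have h1 : x ∈ (fun x : UnitAddCircle => c • x) ⁻¹' E := by rw [hcE]; exact hx
        exact h1
    have hpre : (fun x : UnitAddCircle => n • x) ⁻¹' F ⊆ ⋃ h ∈ range n, tr n h ⁻¹' E := by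
      intro x hx
      obtain ⟨x', hx', hxx⟩ := (hmem _).1 hx
      have h1 : n • (x' - x) = 0 := by rw [smul_sub, hxx, sub_self]
      obtain ⟨h, hh, e⟩ := exists_of_torsion hn h1
      simp only [Set.mem_iUnion, Set.mem_preimage, exists_prop, mem_range]
      refine ⟨h, hh, ?_⟩
      unfold tr
      rw [← e]
      have : x + (x' - x) = x' := by abel
      rw [this]
      exact hx'
    have hμF : μ F = κ ((fun x : UnitAddCircle => n • x) ⁻¹' F) := by
      rw [← hκn, Measure.map_apply hnm hFm]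
    have hsub : E ⊆ (fun x : UnitAddCircle => n • x) ⁻¹' F := fun x hx => (hmem _).2 ⟨x, hx, rfl⟩
    have hμF1 : μ F = 1 := by
      rcases hμ.erg F hFm (hFinv a ha hEa) (hFinv b hb hEb) with h | h
      · exfalso
        apply hE0
        rw [hμF] at h
        exact measure_mono_null hsub h
      · exact h
    calc (1 : ℝ≥0∞) = κ ((fun x : UnitAddCircle => n • x) ⁻¹' F) := by rw [← hμF, hμF1]
      _ ≤ κ (⋃ h ∈ range n, tr n h ⁻¹' E) := measure_mono hpre
      _ ≤ ∑ h ∈ range n, κ (tr n h ⁻¹' E) := measure_biUnion_finset_le _ _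
      _ = ∑ h ∈ range n, κ E := sum_congr rfl fun h _ => by
          conv_rhs => rw [← κtr h, Measure.map_apply (tr_meas n h) hE]
      _ = (n : ℝ≥0∞) * κ E := by rw [sum_const, card_range, nsmul_eq_mul]
  -- an invariant set of almost least measure
  set I : Set ℝ := {v | ∃ E : Set UnitAddCircle, MeasurableSet E ∧
    (fun x : UnitAddCircle => a • x) ⁻¹' E = E ∧ (fun x : UnitAddCircle => b • x) ⁻¹' E = E ∧
    κ E ≠ 0 ∧ (κ E).toReal = v} with hI
  have hIne : I.Nonempty := ⟨1, Set.univ, MeasurableSet.univ, Set.preimage_univ, Set.preimage_univ,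
    by rw [measure_univ]; exact one_ne_zero, by rw [measure_univ, ENNReal.toReal_one]⟩
  have hnpos : (0 : ℝ) < 1 / n := by
    have : (0 : ℝ) < n := by exact_mod_cast Nat.pos_of_ne_zero hn
    positivity
  have hIlow : ∀ v ∈ I, 1 / (n : ℝ) ≤ v := by
    rintro v ⟨E, hE, hEa, hEb, hE0, rfl⟩
    have h1 := hsat E hE hEa hEb hE0
    have h2 := ENNReal.toReal_mono (ENNReal.mul_ne_top (by simp) (measure_ne_top κ E)) h1
    rw [ENNReal.toReal_one, ENNReal.toReal_mul, ENNReal.toReal_natCast] at h2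
    have hn0 : (0 : ℝ) < n := by exact_mod_cast Nat.pos_of_ne_zero hn
    rw [div_le_iff₀ hn0]
    linarith
  have hIb : BddBelow I := ⟨1 / n, fun v hv => hIlow v hv⟩
  obtain ⟨v, ⟨E, hE, hEa, hEb, hE0, rfl⟩, hv⟩ :=
    exists_lt_of_csInf_lt hIne (by linarith : sInf I < sInf I + 1 / n)
  have hEpos : 0 < (κ E).toReal := lt_of_lt_of_le hnpos (hIlow _ ⟨E, hE, hEa, hEb, hE0, rfl⟩)
  set ρ : Measure UnitAddCircle := (κ E)⁻¹ • κ.restrict E with hρ
  have hρp : IsProbabilityMeasure ρ := by
    constructor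
    rw [hρ, Measure.smul_apply, Measure.restrict_apply MeasurableSet.univ, Set.univ_inter,
      smul_eq_mul, ENNReal.inv_mul_cancel hE0 (measure_ne_top κ E)]
  have hρinv : ∀ c : ℕ, (fun x : UnitAddCircle => c • x) ⁻¹' E = E →
      MeasurePreserving (fun x : UnitAddCircle => c • x) κ κ →
      MeasurePreserving (fun x : UnitAddCircle => c • x) ρ ρ := by
    intro c hcE hcκ
    have h1 := hcκ.restrict_preimage hE
    rw [hcE] at h1
    refine ⟨by fun_prop, ?_⟩
    rw [hρ, Measure.map_smul, h1.map_eq]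
  have ρa := hρinv a hEa κa
  have ρb := hρinv b hEb κb
  have hρerg : JointErg (fun x : UnitAddCircle => a • x) (fun x : UnitAddCircle => b • x) ρ := by
    intro D hD hDa hDb
    have h1 : ρ D = (κ E)⁻¹ * κ (D ∩ E) := by
      rw [hρ, Measure.smul_apply, Measure.restrict_apply hD, smul_eq_mul]
    by_cases h0 : κ (D ∩ E) = 0
    · left
      rw [h1, h0, mul_zero]
    by_cases h2 : κ (E \ D) = 0
    · right
      have h3 : κ (D ∩ E) = κ E := by
        rw [Set.inter_comm, ← measure_inter_add_sdiff E hD, h2, add_zero]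
      rw [h1, h3, ENNReal.inv_mul_cancel hE0 (measure_ne_top κ E)]
    · exfalso
      have i1 := csInf_le hIb (⟨D ∩ E, hD.inter hE, by rw [Set.preimage_inter, hDa, hEa],
        by rw [Set.preimage_inter, hDb, hEb], h0, rfl⟩ : (κ (D ∩ E)).toReal ∈ I)
      have i2 := hIlow _ (⟨E \ D, hE.diff hD, by rw [Set.preimage_diff, hDa, hEa],
        by rw [Set.preimage_diff, hDb, hEb], h2, rfl⟩ : (κ (E \ D)).toReal ∈ I)
      have i3 : (κ E).toReal = (κ (D ∩ E)).toReal + (κ (E \ D)).toReal := by
        rw [← ENNReal.toReal_add (measure_ne_top κ _) (measure_ne_top κ _), Set.inter_comm,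
          measure_inter_add_sdiff E hD]
      linarith
  have hR : Erg2 a b ρ := ⟨hρp, ρa, ρb, hρerg⟩
  refine ⟨ρ, hR, ?_⟩
  have hR' := hR.map n
  haveI := hR'.prob
  refine eq_of_ac hμ.erg hμ.mpa hμ.mpb (comm_smul a b) hR'.mpa hR'.mpb ?_
  have h1 : ρ ≪ κ := by
    rw [hρ]
    exact Measure.smul_absolutelyContinuous.trans Measure.absolutelyContinuous_restrict
  have h2 := h1.map hnm
  rwa [hκn] at h2

/-- the ergodic lifts are translates of each other -/
theorem component_eq {n a b : ℕ} (hn : n ≠ 0) (ha : a ≡ 1 [MOD n]) (hb : b ≡ 1 [MOD n])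
    {ρ ρ' : Measure UnitAddCircle} (hρ : Erg2 a b ρ) (hρ' : Erg2 a b ρ')
    (h : ρ'.map (fun x : UnitAddCircle => n • x) = ρ.map fun x : UnitAddCircle => n • x) :
    ∃ k < n, ρ' = ρ.map (tr n k) := by
  haveI := hρ.prob
  haveI := hρ'.prob
  haveI : IsProbabilityMeasure (ρ.map fun x : UnitAddCircle => n • x) :=
    Measure.isProbabilityMeasure_map (by fun_prop)
  obtain ⟨κ, hκ, hκ1, hκ0⟩ := exists_canonical hn (ρ.map fun x : UnitAddCircle => n • x)
  have e1 : ∀ m : ℤ, hat κ m = if (n : ℤ) ∣ m then hat ρ m else 0 := by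
    intro m
    split_ifs with hd
    · obtain ⟨l, rfl⟩ := hd
      rw [mul_comm, hκ1, hat_map_nsmul]
    · exact hκ0 m hd
  have e2 : ∀ m : ℤ, hat κ m = if (n : ℤ) ∣ m then hat ρ' m else 0 := by
    intro m
    split_ifs with hd
    · obtain ⟨l, rfl⟩ := hd
      rw [mul_comm, hκ1, ← h, hat_map_nsmul]
    · exact hκ0 m hd
  have hle : ρ' ≤ (n : ℝ≥0∞) • κ := dominated hn e2
  rw [sum_trans hn e1] at hle
  by_contra hcon
  push Not at hcon
  have hms : ∀ k ∈ range n, ρ' ⟂ₘ ρ.map (tr n k) := by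
    intro k hk
    rcases (hρ.tr hn ha hb k).eq_or hρ' with h1 | h1
    · exact absurd h1 (hcon k (mem_range.1 hk))
    · exact h1
  have hms' : ρ' ⟂ₘ ∑ k ∈ range n, ρ.map (tr n k) := by
    have key : ∀ t : Finset ℕ, (∀ k ∈ t, ρ' ⟂ₘ ρ.map (tr n k)) →
        ρ' ⟂ₘ ∑ k ∈ t, ρ.map (tr n k) := by
      intro t
      induction t using Finset.induction_on with
      | empty => intro _; simp
      | insert b t hb ih' =>
        intro h
        rw [sum_insert hb]
        exact (h b (mem_insert_self _ _)).add_right (ih' fun i hi => h i (mem_insert_of_mem hi))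
    exact key _ hms
  obtain ⟨s, hs, h1, h2⟩ := hms'
  have h3 : ρ' sᶜ = 0 := le_antisymm ((hle _).trans h2.le) zero_le'
  have h4 : ρ' Set.univ = 1 := measure_univ
  rw [← Set.union_compl_self s, measure_union_null h1 h3] at h4
  exact zero_ne_one h4

end Run7.h303.TE
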