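import Pool.Agent.Run7.h303.TE.Two
import Pool.Agent.Y253.TR.Dict

/-!
Invariant states on `C*(ℤ)` and `C*(ℚ)`: extreme invariant states and ergodic measures; totally
extreme invariant states on the integers extend uniquely to the rational numbers.
-/

set_option autoImplicit false

open MeasureTheory Filter Topology Finset
open scoped ENNReal ComplexOrder

namespace Run7.h303.TE

open Run7.h303.TR
open Pool.Agent.W763.Tr (herglotz)
open Pool.Agent.Y253.TR (pd_fourier)
open Pool.Agent.R202.TM (JointErg)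
open Pool.Agent.R203.ID (hat norm_f f_add f_zero norm_hat_le ext_hat hat_map_nsmul inv_iff)

/-- positive definite functions -/
def PosDef {A : Type*} [AddCommGroup A] (f : A → ℂ) : Prop :=
  ∀ (N : ℕ) (x : Fin N → A) (c : Fin N → ℂ), 0 ≤ ∑ i, ∑ j, star (c j) * c i * f (x i - x j)

/-- the states invariant under the multiplications by `2 ^ k` and `3 ^ k` -/
def States (A : Type*) [AddCommGroup A] (k : ℕ) : Set (A → ℂ) :=
  {f | f 0 = 1 ∧ PosDef f ∧ (∀ a, f ((2 ^ k) • a) = f a) ∧ ∀ a, f ((3 ^ k) • a) = f a}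

/-- the invariant states which are extreme among the states invariant under the multiplications by
`2 ^ k` and `3 ^ k`, for every `k` -/
def TotExt (A : Type*) [AddCommGroup A] : Set (A → ℂ) :=
  {f | ∀ k : ℕ, 1 ≤ k → f ∈ (States A k).extremePoints ℝ}

lemma posDef_hat (μ : Measure UnitAddCircle) [IsProbabilityMeasure μ] : PosDef (hat μ) := by
  intro N x c
  exact pd_fourier μ Finset.univ c x

lemma hat_zero (μ : Measure UnitAddCircle) [IsProbabilityMeasure μ] : hat μ 0 = 1 := by
  unfold hat
  simp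

lemma state_hat {k : ℕ} {μ : Measure UnitAddCircle} [IsProbabilityMeasure μ]
    (h2 : MeasurePreserving (fun x : UnitAddCircle => (2 ^ k) • x) μ μ)
    (h3 : MeasurePreserving (fun x : UnitAddCircle => (3 ^ k) • x) μ μ) : hat μ ∈ States ℤ k := by
  refine ⟨hat_zero μ, posDef_hat μ, fun m => ?_, fun m => ?_⟩
  · rw [← (inv_iff _).1 h2 m, nsmul_eq_mul, mul_comm]
  · rw [← (inv_iff _).1 h3 m, nsmul_eq_mul, mul_comm]

lemma exists_meas {k : ℕ} {f : ℤ → ℂ} (hf : f ∈ States ℤ k) :
    ∃ μ : Measure UnitAddCircle, IsProbabilityMeasure μ ∧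
      MeasurePreserving (fun x : UnitAddCircle => (2 ^ k) • x) μ μ ∧
      MeasurePreserving (fun x : UnitAddCircle => (3 ^ k) • x) μ μ ∧ hat μ = f := by
  obtain ⟨h0, hpd, h2, h3⟩ := hf
  obtain ⟨μ, hμ, hμf⟩ := herglotz (c := f) h0 (fun N a => by
    have h := hpd N (fun i => ((i : ℕ) : ℤ)) (fun i => a i)
    simp only [Finset.sum_range]
    exact h)
  have e : hat μ = f := funext hμf
  refine ⟨μ, hμ, ?_, ?_, e⟩
  · rw [inv_iff]
    intro m
    rw [e, ← h2 m, nsmul_eq_mul, mul_comm]
  · rw [inv_iff]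
    intro m
    rw [e, ← h3 m, nsmul_eq_mul, mul_comm]

lemma hat_conv2 {μ₁ μ₂ : Measure UnitAddCircle} [IsProbabilityMeasure μ₁]
    [IsProbabilityMeasure μ₂] {a b : ℝ} (ha : 0 ≤ a) (hb : 0 ≤ b) (m : ℤ) :
    hat (ENNReal.ofReal a • μ₁ + ENNReal.ofReal b • μ₂) m = a * hat μ₁ m + b * hat μ₂ m := by
  have f1 : IsFiniteMeasure (ENNReal.ofReal a • μ₁) := Measure.smul_finite _ ENNReal.ofReal_ne_top
  have f2 : IsFiniteMeasure (ENNReal.ofReal b • μ₂) := Measure.smul_finite _ ENNReal.ofReal_ne_top
  have hi : ∀ (ν : Measure UnitAddCircle) [IsFiniteMeasure ν],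
      Integrable (fun x : UnitAddCircle => (fourier m x : ℂ)) ν := fun ν _ =>
    Integrable.of_bound (fourier m).continuous.aestronglyMeasurable 1
      (Eventually.of_forall fun x => (norm_f _ x).le)
  unfold hat
  rw [integral_add_measure (hi _) (hi _), integral_smul_measure, integral_smul_measure,
    ENNReal.toReal_ofReal ha, ENNReal.toReal_ofReal hb, Complex.real_smul, Complex.real_smul]

/-- conditional measures -/
noncomputable def condm (μ : Measure UnitAddCircle) (E : Set UnitAddCircle) :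
    Measure UnitAddCircle := (μ E)⁻¹ • μ.restrict E

lemma condm_prob {μ : Measure UnitAddCircle} [IsProbabilityMeasure μ] {E : Set UnitAddCircle}
    (h0 : μ E ≠ 0) : IsProbabilityMeasure (condm μ E) := by
  constructor
  unfold condm
  rw [Measure.smul_apply, Measure.restrict_apply MeasurableSet.univ, Set.univ_inter,
    smul_eq_mul, ENNReal.inv_mul_cancel h0 (measure_ne_top μ E)]

lemma condm_inv {μ : Measure UnitAddCircle} {E : Set UnitAddCircle}
    (hE : MeasurableSet E) {c : ℕ} (hc : (fun x : UnitAddCircle => c • x) ⁻¹' E = E)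
    (h : MeasurePreserving (fun x : UnitAddCircle => c • x) μ μ) :
    MeasurePreserving (fun x : UnitAddCircle => c • x) (condm μ E) (condm μ E) := by
  have h1 := h.restrict_preimage hE
  rw [hc] at h1
  refine ⟨by fun_prop, ?_⟩
  unfold condm
  rw [Measure.map_smul, h1.map_eq]

/-- **Extreme invariant states and ergodic measures.** -/
theorem ext_iff {k : ℕ} {μ : Measure UnitAddCircle} [IsProbabilityMeasure μ]
    (h2 : MeasurePreserving (fun x : UnitAddCircle => (2 ^ k) • x) μ μ)
    (h3 : MeasurePreserving (fun x : UnitAddCircle => (3 ^ k) • x) μ μ) :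
    hat μ ∈ (States ℤ k).extremePoints ℝ ↔
      JointErg (fun x : UnitAddCircle => (2 ^ k) • x) (fun x : UnitAddCircle => (3 ^ k) • x) μ := by
  constructor
  · intro h E hE hE2 hE3
    by_contra hcon
    push Not at hcon
    obtain ⟨h0, h1⟩ := hcon
    have hc0 : μ Eᶜ ≠ 0 := fun h => h1 ((prob_compl_eq_zero_iff hE).1 h)
    have p1 := condm_prob h0
    have p2 := condm_prob hc0
    have hcE : ∀ c : ℕ, (fun x : UnitAddCircle => c • x) ⁻¹' E = E →
        (fun x : UnitAddCircle => c • x) ⁻¹' Eᶜ = Eᶜ := fun c h => by rw [Set.preimage_compl, h]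
    have s1 := state_hat (condm_inv hE hE2 h2) (condm_inv hE hE3 h3)
    have s2 := state_hat (condm_inv hE.compl (hcE _ hE2) h2) (condm_inv hE.compl (hcE _ hE3) h3)
    set a := (μ E).toReal with ha
    set b := (μ Eᶜ).toReal with hb
    have ha0 : 0 < a := ENNReal.toReal_pos h0 (measure_ne_top _ _)
    have hb0 : 0 < b := ENNReal.toReal_pos hc0 (measure_ne_top _ _)
    have hab : a + b = 1 := by
      rw [ha, hb, ← ENNReal.toReal_add (measure_ne_top _ _) (measure_ne_top _ _),
        measure_add_measure_compl hE, measure_univ, ENNReal.toReal_one]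
    have hμ : μ = ENNReal.ofReal a • condm μ E + ENNReal.ofReal b • condm μ Eᶜ := by
      rw [ha, hb, ENNReal.ofReal_toReal (measure_ne_top _ _),
        ENNReal.ofReal_toReal (measure_ne_top _ _)]
      unfold condm
      rw [smul_smul, smul_smul, ENNReal.mul_inv_cancel h0 (measure_ne_top _ _),
        ENNReal.mul_inv_cancel hc0 (measure_ne_top _ _), one_smul, one_smul,
        Measure.restrict_add_restrict_compl hE]
    have hseg : hat μ ∈ openSegment ℝ (hat (condm μ E)) (hat (condm μ Eᶜ)) := by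
      refine ⟨a, b, ha0, hb0, hab, ?_⟩
      funext m
      have := hat_conv2 (μ₁ := condm μ E) (μ₂ := condm μ Eᶜ) ha0.le hb0.le m
      rw [← hμ] at this
      rw [this]
      simp
    have e := h.2 s1 s2 hseg
    have e2 : condm μ E = μ := ext_hat fun m => congrFun e m
    have e3 := congrArg (fun ν : Measure UnitAddCircle => ν Eᶜ) e2
    simp only [condm] at e3
    rw [Measure.smul_apply, Measure.restrict_apply hE.compl, Set.compl_inter_self, measure_empty,
      smul_zero] at e3
    exact hc0 e3.symm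
  · intro herg
    refine ⟨state_hat h2 h3, ?_⟩
    rintro g hg g' hg' ⟨a, b, ha, hb, hab, hgg⟩
    obtain ⟨ν, hν, ν2, ν3, rfl⟩ := exists_meas hg
    obtain ⟨ν', hν', ν2', ν3', rfl⟩ := exists_meas hg'
    have f1 : IsFiniteMeasure (ENNReal.ofReal a • ν) := Measure.smul_finite _ ENNReal.ofReal_ne_top
    have f2 : IsFiniteMeasure (ENNReal.ofReal b • ν') :=
      Measure.smul_finite _ ENNReal.ofReal_ne_top
    have hμ : μ = ENNReal.ofReal a • ν + ENNReal.ofReal b • ν' := by
      refine ext_hat fun m => ?_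
      rw [hat_conv2 ha.le hb.le, ← hgg]
      simp
    have hac : ν ≪ μ := by
      have h1 : ν ≪ ENNReal.ofReal a • ν :=
        Measure.absolutelyContinuous_smul (by simpa using ha)
      refine h1.trans (Measure.absolutelyContinuous_of_le ?_)
      rw [hμ]
      exact Measure.le_add_right le_rfl
    rw [eq_of_ac herg h2 h3 (comm_smul _ _) ν2 ν3 hac]

/-- totally extreme states and totally ergodic measures -/
theorem totExt_iff {f : ℤ → ℂ} : f ∈ TotExt ℤ ↔ ∃ μ : Measure UnitAddCircle,
    TErg 2 3 μ ∧ hat μ = f := by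
  constructor
  · intro h
    obtain ⟨μ, hμ, h2, h3, e⟩ := exists_meas (h 1 le_rfl).1
    rw [pow_one] at h2 h3
    refine ⟨μ, ⟨hμ, h2, h3, fun k hk => ?_⟩, e⟩
    have h4 := h k hk
    rw [← e] at h4
    exact (ext_iff (mp_pow h2 k) (mp_pow h3 k)).1 h4
  · rintro ⟨μ, hμ, rfl⟩ k hk
    haveI := hμ.prob
    exact (ext_iff (mp_pow hμ.mpp k) (mp_pow hμ.mpq k)).2 (hμ.erg k hk)

end Run7.h303.TE
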