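import Pool.Agent.Run7.h303.TE.Sing

/-!
The stabiliser of a totally ergodic measure, injectivity of all multiplications.
-/

set_option autoImplicit false

open MeasureTheory Filter Topology Finset
open scoped ENNReal

namespace Run7.h303.TE

open Run7.h303.TR
open Pool.Agent.R202.TM (JointErg)
open Pool.Agent.R203.ID (hat norm_f f_add f_zero norm_hat_le ext_hat hat_map_nsmul inv_iff hat_vol)

lemma hat_shift (θ : UnitAddCircle) (μ : Measure UnitAddCircle) (m : ℤ) :
    hat (shift θ μ) m = fourier m θ * hat μ m := by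
  unfold hat shift
  rw [integral_map (shift_meas θ).aemeasurable (fourier m).continuous.aestronglyMeasurable]
  simp only [f_add]
  rw [integral_mul_const, mul_comm]

lemma zsmul_zero_of_one {m : ℤ} {x : UnitAddCircle} (h : (fourier m x : ℂ) = 1) : m • x = 0 :=
  smul_eq_zero_of_one h

lemma pN_eq_zero {n : ℕ} (hn : n ≠ 0) {k : ℕ} : k • pN n = 0 ↔ n ∣ k := by
  constructor
  · intro h
    unfold pN at h
    rw [← AddCircle.coe_nsmul, AddCircle.coe_eq_zero_iff] at h
    obtain ⟨l, hl⟩ := h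
    have hn' : (n : ℝ) ≠ 0 := by exact_mod_cast hn
    rw [zsmul_eq_mul, nsmul_eq_mul, mul_one, mul_one_div, eq_div_iff hn'] at hl
    have h1 : (k : ℤ) = n * l := by
      have : (k : ℝ) = ((n * l : ℤ) : ℝ) := by push_cast; linarith
      exact_mod_cast this
    exact Int.natCast_dvd_natCast.1 ⟨l, h1⟩
  · rintro ⟨l, rfl⟩
    rw [mul_comm, mul_smul, pN_tors hn, smul_zero]

/-- **The stabiliser.** -/
theorem exists_stab {μ : Measure UnitAddCircle} [IsProbabilityMeasure μ] (hne : μ ≠ volume) :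
    ∃ N : ℕ, N ≠ 0 ∧ ∀ θ : UnitAddCircle, shift θ μ = μ ↔ N • θ = 0 := by
  obtain ⟨m, hm, hmne⟩ : ∃ m : ℤ, m ≠ 0 ∧ hat μ m ≠ 0 := by
    by_contra hcon
    push Not at hcon
    apply hne
    refine ext_hat fun m => ?_
    by_cases h0 : m = 0
    · rw [h0]
      unfold hat
      simp
    · rw [hcon m h0, hat_vol h0]
  have hM0 : m.natAbs ≠ 0 := by omega
  have hS : ∀ θ : UnitAddCircle, shift θ μ = μ → m.natAbs • θ = 0 := by
    intro θ hθ
    have h1 := hat_shift θ μ m
    rw [hθ] at h1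
    have h3 : (fourier m θ : ℂ) = 1 := by
      have h4 : (fourier m θ : ℂ) * hat μ m = 1 * hat μ m := by rw [← h1, one_mul]
      exact mul_right_cancel₀ hmne h4
    have h5 := zsmul_zero_of_one h3
    rcases Int.natAbs_eq m with h | h
    · rw [← natCast_zsmul, ← h, h5]
    · rw [← natCast_zsmul, show ((m.natAbs : ℕ) : ℤ) = -m by omega, neg_smul, h5, neg_zero]
  obtain ⟨d, hd0, ⟨N, hN⟩, hper⟩ := exists_period hM0 μ
  have hN0 : N ≠ 0 := by
    rintro rfl
    exact hM0 (by rw [hN, mul_zero])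
  have key : ∀ k : ℕ, shift (k • pN m.natAbs) μ = μ ↔ d ∣ k := by
    intro k
    have h1 := hper k 0
    have h2 : μ.map (tr m.natAbs 0) = μ := by rw [tr_zero, Measure.map_id]
    rw [h2, Nat.modEq_zero_iff_dvd] at h1
    exact h1
  refine ⟨N, hN0, fun θ => ⟨fun h => ?_, fun h => ?_⟩⟩
  · obtain ⟨k, -, rfl⟩ := exists_of_torsion hM0 (hS θ h)
    obtain ⟨l, rfl⟩ := (key k).1 h
    rw [smul_smul, pN_eq_zero hM0, hN]
    exact ⟨l, by ring⟩
  · have h1 : m.natAbs • θ = 0 := by rw [hN, mul_smul, h, smul_zero]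
    obtain ⟨k, -, rfl⟩ := exists_of_torsion hM0 h1
    rw [key]
    rw [smul_smul, pN_eq_zero hM0] at h
    have h2 : N * d ∣ N * k := by rwa [mul_comm N d, ← hN]
    exact Nat.dvd_of_mul_dvd_mul_left (Nat.pos_of_ne_zero hN0) h2

section

variable {p q : ℕ} (hp : 2 ≤ p) (hq : 2 ≤ q) (hpq : Nat.Coprime p q) {μ : Measure UnitAddCircle}
  (h : TErg p q μ) (hne : μ ≠ volume)

include hp hq hpq h hne

/-- **Injectivity of the multiplications.** -/
theorem inj_iff {N : ℕ} (hN : N ≠ 0) (hs : ∀ θ : UnitAddCircle, shift θ μ = μ ↔ N • θ = 0) {n : ℕ}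
    (hn : n ≠ 0) : InjAE n μ ↔ Nat.Coprime n N := by
  haveI := h.prob
  constructor
  · intro hi
    by_contra hg
    have hg0 : n.gcd N ≠ 0 := Nat.gcd_ne_zero_left hn
    have h1 : n • pN (n.gcd N) = 0 := (pN_eq_zero hg0).2 (Nat.gcd_dvd_left n N)
    have h2 : N • pN (n.gcd N) = 0 := (pN_eq_zero hg0).2 (Nat.gcd_dvd_right n N)
    have h3 : pN (n.gcd N) ≠ 0 := by
      intro h4
      have h5 := (pN_eq_zero hg0 (k := 1)).1 (by rw [one_smul, h4])
      exact hg (Nat.dvd_one.1 h5)
    have h4 := ms_of_inj hi h1 h3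
    rw [(hs _).2 h2] at h4
    exact not_ms_self h4
  · intro hc
    refine inj_of_ms hn fun k hk1 hkn => ?_
    refine (shift_dich hp hq hpq h hne (k • pN n)).resolve_left fun h1 => ?_
    have h2 := (hs _).1 h1
    rw [smul_smul, pN_eq_zero hn] at h2
    have h3 := Nat.le_of_dvd (by omega) (hc.dvd_of_dvd_mul_left h2)
    omega

/-- the image under `x ↦ N x` has trivial stabiliser -/
theorem aperiodic {N : ℕ} (hN : N ≠ 0) (hs : ∀ θ : UnitAddCircle, shift θ μ = μ ↔ N • θ = 0) :
    (μ.map (fun x : UnitAddCircle => N • x)) ≠ volume ∧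
      ∀ θ : UnitAddCircle, shift θ (μ.map fun x : UnitAddCircle => N • x) =
        (μ.map fun x : UnitAddCircle => N • x) → θ = 0 := by
  haveI := h.prob
  have h' := h.map N
  haveI := h'.prob
  have hp0 : p ≠ 0 := by omega
  have hq0 : q ≠ 0 := by omega
  have hpN : Nat.Coprime p N := (inj_iff hp hq hpq h hne hN hs hp0).1 (inj_p hp hq hpq h hne)
  have hqN : Nat.Coprime q N := (inj_iff hp hq hpq h hne hN hs hq0).1 (inj_q hp hq hpq h hne)
  have hne' : (μ.map (fun x : UnitAddCircle => N • x)) ≠ volume := by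
    intro hv
    apply hne
    refine ext_hat fun m => ?_
    by_cases h0 : m = 0
    · rw [h0]
      unfold hat
      simp
    rw [hat_vol h0]
    by_cases hd : (N : ℤ) ∣ m
    · obtain ⟨l, rfl⟩ := hd
      have h1 := hat_map_nsmul μ N l
      rw [hv, hat_vol (right_ne_zero_of_mul h0), mul_comm] at h1
      exact h1.symm
    · by_contra hm
      have h1 := hat_shift (pN N) μ m
      rw [(hs _).2 (pN_tors hN)] at h1
      have h3 : (fourier m (pN N) : ℂ) = 1 := by
        have h4 : (fourier m (pN N) : ℂ) * hat μ m = 1 * hat μ m := by rw [← h1, one_mul]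
        exact mul_right_cancel₀ hm h4
      have h4 := sum_roots hN m
      rw [if_neg hd] at h4
      have h5 : ∑ k ∈ range N, (fourier m (k • pN N) : ℂ) = N := by
        have h6 : ∀ k ∈ range N, (fourier m (k • pN N) : ℂ) = 1 := fun k _ => by
          rw [f_mul, h3, one_pow]
        rw [sum_congr rfl h6, sum_const, card_range, nsmul_eq_mul, mul_one]
      rw [h5] at h4
      exact hN (by exact_mod_cast h4)
  refine ⟨hne', fun θ hθ => ?_⟩
  obtain ⟨N', hN', hs'⟩ := exists_stab hne'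
  have hpN' : Nat.Coprime p N' := (inj_iff hp hq hpq h' hne' hN' hs' hp0).1
    (inj_p hp hq hpq h' hne')
  have hqN' : Nat.Coprime q N' := (inj_iff hp hq hpq h' hne' hN' hs' hq0).1
    (inj_q hp hq hpq h' hne')
  set n := N * N' with hn
  have hn0 : n ≠ 0 := mul_ne_zero hN hN'
  have hK1 : 1 ≤ n.totient := Nat.totient_pos.2 (Nat.pos_of_ne_zero hn0)
  have hpK : p ^ n.totient ≡ 1 [MOD n] := Nat.ModEq.pow_totient (hpN.mul_right hpN')
  have hqK : q ^ n.totient ≡ 1 [MOD n] := Nat.ModEq.pow_totient (hqN.mul_right hqN')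
  have e1 : N • pN n = pN N' := by
    unfold pN
    rw [← AddCircle.coe_nsmul, nsmul_eq_mul, hn]
    congr 1
    have : (N : ℝ) ≠ 0 := by exact_mod_cast hN
    push_cast
    field_simp
  have h1 : (shift (pN n) μ).map (fun x : UnitAddCircle => N • x) =
      μ.map fun x : UnitAddCircle => N • x := by
    rw [map_shift, e1]
    exact (hs' _).2 (pN_tors hN')
  have hE : Erg2 (p ^ n.totient) (q ^ n.totient) (shift (pN n) μ) := by
    have h2 := (h.erg2 hK1).tr hn0 hpK hqK 1
    have e2 : μ.map (tr n 1) = shift (pN n) μ := by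
      unfold shift
      congr 1
      funext x
      unfold tr
      rw [one_smul]
    rwa [e2] at h2
  obtain ⟨k, -, hk⟩ := component_eq hN (hpK.of_dvd (Dvd.intro _ rfl))
    (hqK.of_dvd (Dvd.intro _ rfl)) (h.erg2 hK1) hE h1
  have h2 : μ.map (tr N k) = μ := by
    refine (hs (k • pN N)).2 ?_
    rw [comm_smul, pN_tors hN, smul_zero]
  rw [h2] at hk
  have h3 := (hs _).1 hk
  rw [e1] at h3
  have h4 : N' ∣ 1 := (pN_eq_zero hN' (k := 1)).1 (by rw [one_smul, h3])
  have h5 := (hs' θ).1 hθ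
  rwa [Nat.dvd_one.1 h4, one_smul] at h5

end

end Run7.h303.TE
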