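import Pool.Agent.Run7.h303.TE.Atom
import Pool.Agent.Run7.h303.TE.Stab

/-!
The generator of the support, the description of all roots of a totally extreme trace.
-/

set_option autoImplicit false

open MeasureTheory Filter Topology Finset
open scoped ENNReal ComplexOrder

namespace Run7.h303.TE

open Run7.h303.TR
open Pool.Agent.Y253.TR
open Pool.Agent.R202.TM (JointErg)
open Pool.Agent.R203.ID (hat norm_f f_add f_zero norm_hat_le ext_hat hat_map_nsmul inv_iff hat_vol)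

lemma fourier_one_of {m : ℤ} {θ : UnitAddCircle} (h : m • θ = 0) : (fourier m θ : ℂ) = 1 := by
  rw [fourier_apply, h, AddCircle.toCircle_zero]
  rfl

/-- the stabiliser -/
lemma stab_iff {μ : Measure UnitAddCircle} [IsProbabilityMeasure μ] {N : ℕ}
    (hN : AddSubgroup.closure {m : ℤ | hat μ m ≠ 0} = AddSubgroup.zmultiples (N : ℤ))
    (θ : UnitAddCircle) : shift θ μ = μ ↔ N • θ = 0 := by
  constructor
  · intro h
    have h1 : AddSubgroup.closure {m : ℤ | hat μ m ≠ 0} ≤ (zmultiplesHom UnitAddCircle θ).ker := by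
      rw [AddSubgroup.closure_le]
      intro m hm
      have h2 := hat_shift θ μ m
      rw [h] at h2
      have h3 : (fourier m θ : ℂ) = 1 := by
        have h4 : (fourier m θ : ℂ) * hat μ m = 1 * hat μ m := by rw [← h2, one_mul]
        exact mul_right_cancel₀ hm h4
      rw [SetLike.mem_coe, AddMonoidHom.mem_ker, zmultiplesHom_apply]
      exact smul_eq_zero_of_one h3
    rw [hN] at h1
    have h2 := h1 (AddSubgroup.mem_zmultiples (N : ℤ))
    rw [AddMonoidHom.mem_ker, zmultiplesHom_apply, natCast_zsmul] at h2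
    exact h2
  · intro h
    haveI : IsProbabilityMeasure (shift θ μ) :=
      Measure.isProbabilityMeasure_map (shift_meas θ).aemeasurable
    refine ext_hat fun m => ?_
    rw [hat_shift]
    by_cases h0 : hat μ m = 0
    · rw [h0, mul_zero]
    · have h1 : m ∈ AddSubgroup.closure {m : ℤ | hat μ m ≠ 0} := AddSubgroup.subset_closure h0
      rw [hN, AddSubgroup.mem_zmultiples_iff] at h1
      obtain ⟨k, rfl⟩ := h1
      rw [fourier_one_of, one_mul]
      rw [smul_eq_mul, mul_smul, natCast_zsmul, h, smul_zero]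

lemma pN_smul_eq {n : ℕ} (hn : n ≠ 0) {a b : ℕ} : a • pN n = b • pN n ↔ a ≡ b [MOD n] := by
  rw [← Int.natCast_modEq_iff, Int.modEq_iff_dvd]
  constructor
  · intro h
    have h1 : (b - a : ℤ) • pN n = 0 := by
      rw [sub_smul, natCast_zsmul, natCast_zsmul, h, sub_self]
    rcases le_total a b with hab | hab
    · have h2 : (b - a) • pN n = 0 := by
        rw [← natCast_zsmul, Nat.cast_sub hab]
        exact h1
      have h3 := (pN_eq_zero hn).1 h2
      have h4 := Int.natCast_dvd_natCast.2 h3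
      rwa [Nat.cast_sub hab] at h4
    · have h2 : (a - b) • pN n = 0 := by
        rw [← natCast_zsmul, Nat.cast_sub hab, ← neg_sub, neg_smul, h1, neg_zero]
      have h3 := (pN_eq_zero hn).1 h2
      have h4 := Int.natCast_dvd_natCast.2 h3
      rw [Nat.cast_sub hab] at h4
      rw [← neg_sub]
      exact (dvd_neg).2 h4
  · rintro ⟨c, hc⟩
    have h1 : (b - a : ℤ) • pN n = 0 := by
      rw [hc, mul_comm, mul_smul, natCast_zsmul, pN_tors hn, smul_zero]
    rw [sub_smul, natCast_zsmul, natCast_zsmul, sub_eq_zero] at h1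
    exact h1.symm

/-- coincidences of the translates -/
lemma tr_eq_iff {n N : ℕ} (hn : n ≠ 0) {ν : Measure UnitAddCircle} [IsProbabilityMeasure ν]
    (hN : AddSubgroup.closure {m : ℤ | hat ν m ≠ 0} = AddSubgroup.zmultiples (N : ℤ)) (k l : ℕ) :
    ν.map (tr n k) = ν.map (tr n l) ↔ k ≡ l [MOD n / n.gcd N] := by
  have e : ∀ k : ℕ, ν.map (tr n k) = shift (k • pN n) ν := fun k => rfl
  have h1 : ν.map (tr n k) = ν.map (tr n l) ↔ shift (k • pN n - l • pN n) ν = ν := by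
    rw [e, e]
    constructor
    · intro h
      have h2 := congrArg (shift (-(l • pN n))) h
      rw [shift_shift, shift_shift, add_neg_cancel, shift_zero, ← sub_eq_add_neg] at h2
      exact h2
    · intro h
      have h2 := congrArg (shift (l • pN n)) h
      rwa [shift_shift, sub_add_cancel] at h2
  rw [h1, stab_iff hN, smul_sub, sub_eq_zero, smul_smul, smul_smul, pN_smul_eq hn]
  constructor
  · intro h
    exact Nat.ModEq.cancel_left_div_gcd (Nat.pos_of_ne_zero hn) h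
  · intro h
    have h2 : N * k ≡ N * l [MOD N * (n / n.gcd N)] := Nat.ModEq.mul_left' N h
    refine h2.of_dvd ?_
    obtain ⟨c, hc⟩ := Nat.gcd_dvd_right n N
    obtain ⟨d, hd⟩ := Nat.gcd_dvd_left n N
    have hg : 0 < n.gcd N := Nat.gcd_pos_of_pos_left _ (Nat.pos_of_ne_zero hn)
    refine ⟨c, ?_⟩
    have h3 : n / n.gcd N = d := Nat.div_eq_of_eq_mul_right hg hd
    rw [h3]
    conv_lhs => rw [hc]
    conv_rhs => rw [hd]
    ring

section

variable {s2 s3 t : Equiv.Perm ℚ} (hs2 : ∀ x, s2 x = 2 * x) (hs3 : ∀ x, s3 x = 3 * x)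
  (ht : ∀ x, t x = x + 1) {G : Subgroup (Equiv.Perm ℚ)} (hG : G = Subgroup.closure {s2, s3, t})
  {u : G} (hu : ∀ x : ℚ, (u : Equiv.Perm ℚ) x = x + 1)

include hs2 hs3 ht hG hu

/-- **All roots.** -/
theorem tot_all {n K : ℕ} (hn : n ≠ 0) (hK : 1 ≤ K) (h2 : 2 ^ K ≡ 1 [MOD n])
    (h3 : 3 ^ K ≡ 1 [MOD n]) {ψ : G → ℂ} (h : ψ ∈ Tot u) {N : ℕ}
    (hN : AddSubgroup.closure {m : ℤ | ψ (u ^ m) ≠ 0} = AddSubgroup.zmultiples (N : ℤ)) :
    ∃ lift : ℕ → G → ℂ,
      (∀ k, lift k ∈ (TS G).extremePoints ℝ ∧ ¬ FD (lift k) ∧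
        (∀ m : ℤ, lift k (u ^ ((n : ℤ) * m)) = ψ (u ^ ((n : ℤ) * m))) ∧
        ∀ m : ℤ, lift k (u ^ m) = ψ (u ^ m) * chi n 2 3 K k m) ∧
      (∀ ψ' ∈ (TS G).extremePoints ℝ, ¬ FD ψ' →
        (∀ m : ℤ, ψ' (u ^ ((n : ℤ) * m)) = ψ (u ^ ((n : ℤ) * m))) → ∃ k, ψ' = lift k) ∧
      ∀ k l, lift k = lift l ↔ ∃ i j : ℕ, k ≡ 2 ^ i * 3 ^ j * l [MOD n / n.gcd N] := by
  obtain ⟨ν, hν, hν0, hνu⟩ := tot_meas hs2 hs3 ht hG hu h
  haveI := hν.prob
  have hroot := fun k : ℕ => oav_root (h := k) hn hK h2 h3 hν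
  have hν1 : ∀ x, (ν.map fun x : UnitAddCircle => n • x) {x} = 0 := (map_atomless hn).2 hν0
  have hν2 : ∀ (k : ℕ) (x : UnitAddCircle), (oav n 2 3 K k ν) {x} = 0 := fun k =>
    (map_atomless hn).1 (by rw [(hroot k).2]; exact hν1)
  choose lift l1 l2 l3 using fun k => trace_of_erg hs2 hs3 ht hG hu (hroot k).1 (hν2 k)
  have lv : ∀ (k : ℕ) (m : ℤ), lift k (u ^ ((n : ℤ) * m)) = ψ (u ^ ((n : ℤ) * m)) := by
    intro k m
    haveI := (hroot k).1.prob
    rw [l3, ← hνu, mul_comm, ← hat_map_nsmul, ← hat_map_nsmul, (hroot k).2]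
  have leq : ∀ k l : ℕ, lift k = lift l ↔ oav n 2 3 K k ν = oav n 2 3 K l ν := by
    intro k l
    haveI := (hroot k).1.prob
    haveI := (hroot l).1.prob
    constructor
    · intro e
      refine ext_hat fun m => ?_
      rw [← l3, ← l3, e]
    · intro e
      refine eq_of_values hs2 hs3 ht hG hu (l1 k) (l2 k) (l1 l) (l2 l) fun m => ?_
      rw [l3, l3, e]
  have hN' : AddSubgroup.closure {m : ℤ | hat ν m ≠ 0} = AddSubgroup.zmultiples (N : ℤ) := by
    simp only [hνu]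
    exact hN
  refine ⟨lift, fun k => ⟨l1 k, l2 k, lv k, fun m => ?_⟩, fun ψ' g1 g2 g3 => ?_,
    fun k l => ?_⟩
  · rw [l3, hat_oav, hνu]
  · obtain ⟨ν', e1, e2, e3⟩ := meas_of_trace hs2 hs3 ht hG hu g1 g2
    haveI := e1.prob
    obtain ⟨k, -, hk⟩ := root_eq_oav hn hK h2 h3 hν e1 (by
      haveI := (hν.map n).prob
      haveI : IsProbabilityMeasure (ν'.map fun x : UnitAddCircle => n • x) :=
        Measure.isProbabilityMeasure_map (by fun_prop)
      refine ext_hat fun m => ?_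
      rw [hat_map_nsmul, hat_map_nsmul, mul_comm, e3, g3, hνu])
    refine ⟨k, eq_of_values hs2 hs3 ht hG hu g1 g2 (l1 k) (l2 k) fun m => ?_⟩
    rw [l3, ← hk, e3]
  · rw [leq, oav_eq_iff hn hK h2 h3 hν]
    simp only [tr_eq_iff hn hN']

/-- **The generator of the support is prime to six.** -/
theorem gen_coprime {φ : G → ℂ} (h : φ ∈ Tot u) {N : ℕ}
    (hN : AddSubgroup.closure {m : ℤ | φ (u ^ m) ≠ 0} = AddSubgroup.zmultiples (N : ℤ))
    (hne : N ≠ 0) : Nat.Coprime N 6 := by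
  obtain ⟨μ, hμ, hμ0, hμu⟩ := tot_meas hs2 hs3 ht hG hu h
  haveI := hμ.prob
  have hN' : AddSubgroup.closure {m : ℤ | hat μ m ≠ 0} = AddSubgroup.zmultiples (N : ℤ) := by
    simp only [hμu]
    exact hN
  have hvol : μ ≠ volume := by
    rintro rfl
    apply hne
    have h1 : AddSubgroup.closure {m : ℤ | hat (volume : Measure UnitAddCircle) m ≠ 0} ≤ ⊥ := by
      rw [AddSubgroup.closure_le]
      intro m hm
      by_contra h0
      exact hm (hat_vol h0)
    rw [hN'] at h1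
    have h2 := h1 (AddSubgroup.mem_zmultiples (N : ℤ))
    rw [AddSubgroup.mem_bot] at h2
    exact_mod_cast h2
  have hs := stab_iff hN'
  have c2 := (inj_iff (p := 2) (q := 3) le_rfl (by norm_num) (by norm_num) hμ hvol hne hs
    (by norm_num : (2 : ℕ) ≠ 0)).1 (inj_p le_rfl (by norm_num) (by norm_num) hμ hvol)
  have c3 := (inj_iff (p := 2) (q := 3) le_rfl (by norm_num) (by norm_num) hμ hvol hne hs
    (by norm_num : (3 : ℕ) ≠ 0)).1 (inj_q le_rfl (by norm_num) (by norm_num) hμ hvol)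
  exact (Nat.Coprime.mul_left c2 c3).symm

/-- **The positive rational numbers act.** -/
theorem tot_act {k n : ℕ} (hk : k ≠ 0) (hn : n ≠ 0) {φ : G → ℂ} (h : φ ∈ Tot u) :
    ∃ ψ ∈ Tot u, (∀ m : ℤ, ψ (u ^ ((n : ℤ) * m)) = φ (u ^ ((k : ℤ) * m))) ∧
      ∀ ψ' ∈ Tot u, (∀ m : ℤ, ψ' (u ^ ((n : ℤ) * m)) = φ (u ^ ((k : ℤ) * m))) → ψ' = ψ := by
  obtain ⟨φ', h1, h2, -⟩ := tot_pow hs2 hs3 ht hG hu hk h
  obtain ⟨ψ, g1, g2, g3⟩ := tot_root hs2 hs3 ht hG hu hn h1
  exact ⟨ψ, g1, fun m => by rw [g2, h2], fun ψ' e1 e2 => g3 ψ' e1 fun m => by rw [e2, h2]⟩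

end

end Run7.h303.TE
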