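import Pool.Agent.Run7.h303.TE.Root

/-!
The bijection at one level, the coincidences between the ergodic lifts, and exponential sums.
-/

set_option autoImplicit false

open MeasureTheory Filter Topology Finset
open scoped ENNReal

namespace Run7.h303.TE

open Run7.h303.TR
open Pool.Agent.R202.TM (JointErg)
open Pool.Agent.R203.ID (hat norm_f f_add f_zero norm_hat_le ext_hat hat_map_nsmul inv_iff)

/-- **One level.** -/
theorem level_unique {n p q K : ℕ} (hn : n ≠ 0) (hp : 1 ≤ p) (hc : Nat.Coprime (p - 1) n)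
    (hpK : p ^ K ≡ 1 [MOD n]) (hqK : q ^ K ≡ 1 [MOD n]) {μ : Measure UnitAddCircle}
    [IsProbabilityMeasure μ] (h1 : MeasurePreserving (fun x : UnitAddCircle => p • x) μ μ)
    (h2 : MeasurePreserving (fun x : UnitAddCircle => q • x) μ μ)
    (he : JointErg (fun x : UnitAddCircle => (p ^ K) • x) (fun x : UnitAddCircle => (q ^ K) • x) μ) :
    ∃ ν : Measure UnitAddCircle, (IsProbabilityMeasure ν ∧
        MeasurePreserving (fun x : UnitAddCircle => p • x) ν ν ∧
        MeasurePreserving (fun x : UnitAddCircle => q • x) ν ν ∧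
        JointErg (fun x : UnitAddCircle => (p ^ K) • x) (fun x : UnitAddCircle => (q ^ K) • x) ν) ∧
      ν.map (fun x : UnitAddCircle => n • x) = μ ∧
      ∀ ν' : Measure UnitAddCircle, IsProbabilityMeasure ν' →
        MeasurePreserving (fun x : UnitAddCircle => p • x) ν' ν' →
        MeasurePreserving (fun x : UnitAddCircle => q • x) ν' ν' →
        JointErg (fun x : UnitAddCircle => (p ^ K) • x) (fun x : UnitAddCircle => (q ^ K) • x) ν' →
        ν'.map (fun x : UnitAddCircle => n • x) = μ → ν' = ν := by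
  have hμ : Erg2 (p ^ K) (q ^ K) μ := ⟨inferInstance, mp_pow h1 K, mp_pow h2 K, he⟩
  obtain ⟨ν, g1, g2, g3⟩ := exists_fixed hn hp hc hpK hqK hμ h1.map_eq
  haveI := g1.prob
  have uni : ∀ ν' : Measure UnitAddCircle, Erg2 (p ^ K) (q ^ K) ν' →
      ν'.map (fun x : UnitAddCircle => n • x) = μ → ν'.map (fun x : UnitAddCircle => p • x) = ν' →
      ν' = ν := fun ν' e1 e2 e3 => fixed_unique hn hp hc hpK hqK g1 e1 (by rw [e2, g2]) g3 e3
  have h4 : ν.map (fun x : UnitAddCircle => q • x) = ν := by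
    refine uni _ (g1.map q) ?_ ?_
    · rw [map_comm, g2, h2.map_eq]
    · rw [map_comm, g3]
  refine ⟨ν, ⟨g1.prob, ⟨by fun_prop, g3⟩, ⟨by fun_prop, h4⟩, g1.erg⟩, g2, ?_⟩
  intro ν' e1 e2 e3 e4 e5
  exact uni ν' ⟨e1, mp_pow e2 K, mp_pow e3 K, e4⟩ e5 e2.map_eq

lemma tr_le_oav {n p q K : ℕ} (hn : n ≠ 0) (hK : 1 ≤ K) (hpK : p ^ K ≡ 1 [MOD n])
    (hqK : q ^ K ≡ 1 [MOD n]) (ν : Measure UnitAddCircle) (k i j : ℕ) :
    ν.map (tr n (p ^ i * q ^ j * k)) ≪ oav n p q K k ν := by
  have hred : ∀ (c : ℕ), c ^ K ≡ 1 [MOD n] → ∀ i, c ^ i ≡ c ^ (i % K) [MOD n] := by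
    intro c hc i
    conv_lhs => rw [← Nat.mod_add_div i K]
    rw [pow_add, pow_mul]
    simpa using (hc.pow (i / K)).mul_left (c ^ (i % K))
  have e : tr n (p ^ i * q ^ j * k) = tr n (p ^ (i % K) * q ^ (j % K) * k) :=
    tr_mod hn (((hred p hpK i).mul (hred q hqK j)).mul_right k)
  rw [e]
  have hle2 : ν.map (tr n (p ^ (i % K) * q ^ (j % K) * k)) ≤ ∑ i ∈ range K, ∑ j ∈ range K,
      ν.map (tr n (p ^ i * q ^ j * k)) := by
    refine le_trans ?_ (Finset.single_le_sum (f := fun i => ∑ j ∈ range K,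
      ν.map (tr n (p ^ i * q ^ j * k))) (fun i _ => Measure.zero_le _)
      (mem_range.2 (Nat.mod_lt i (by omega))))
    exact Finset.single_le_sum (f := fun j => ν.map (tr n (p ^ (i % K) * q ^ j * k)))
      (fun j _ => Measure.zero_le _) (mem_range.2 (Nat.mod_lt j (by omega)))
  refine (Measure.absolutelyContinuous_of_le hle2).trans ?_
  unfold oav
  refine Measure.absolutelyContinuous_smul ?_
  rw [ENNReal.inv_ne_zero]
  exact ENNReal.pow_ne_top (ENNReal.natCast_ne_top K)

lemma not_ms_self {ν : Measure UnitAddCircle} [IsProbabilityMeasure ν] (h : ν ⟂ₘ ν) : False := by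
  have h0 := Measure.MutuallySingular.self_iff ν |>.1 h
  have h1 : ν Set.univ = 1 := measure_univ
  rw [h0] at h1
  simp at h1

/-- **Coincidences between the ergodic lifts.** -/
theorem oav_eq_iff {n p q K : ℕ} (hn : n ≠ 0) (hK : 1 ≤ K) (hpK : p ^ K ≡ 1 [MOD n])
    (hqK : q ^ K ≡ 1 [MOD n]) {ν : Measure UnitAddCircle} (hν : TErg p q ν) (k l : ℕ) :
    oav n p q K k ν = oav n p q K l ν ↔
      ∃ i j : ℕ, ν.map (tr n k) = ν.map (tr n (p ^ i * q ^ j * l)) := by
  haveI := hν.prob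
  have hpm : ∀ k : ℕ, IsProbabilityMeasure (ν.map (tr n k)) :=
    fun k => Measure.isProbabilityMeasure_map (tr_meas n k).aemeasurable
  have hk : ν.map (tr n k) ≪ oav n p q K k ν := by
    have := tr_le_oav hn hK hpK hqK ν k 0 0
    rwa [pow_zero, pow_zero, one_mul, one_mul] at this
  constructor
  · intro h
    by_contra hcon
    push Not at hcon
    have hms : ∀ i j : ℕ, ν.map (tr n k) ⟂ₘ ν.map (tr n (p ^ i * q ^ j * l)) := by
      intro i j
      rcases ((hν.erg2 hK).tr hn hpK hqK (p ^ i * q ^ j * l)).eq_or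
        ((hν.erg2 hK).tr hn hpK hqK k) with h1 | h1
      · exact absurd h1 (hcon i j)
      · exact h1
    have hms2 : ν.map (tr n k) ⟂ₘ oav n p q K l ν := by
      unfold oav
      refine Measure.MutuallySingular.mono_ac ?_ Measure.AbsolutelyContinuous.rfl
        Measure.smul_absolutelyContinuous
      have key : ∀ (t : Finset ℕ) (f : ℕ → Measure UnitAddCircle),
          (∀ i ∈ t, ν.map (tr n k) ⟂ₘ f i) → ν.map (tr n k) ⟂ₘ ∑ i ∈ t, f i := by
        intro t f
        induction t using Finset.induction_on with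
        | empty => intro _; simp
        | insert b t hb ih' =>
          intro h
          rw [sum_insert hb]
          exact (h b (mem_insert_self _ _)).add_right
            (ih' fun i hi => h i (mem_insert_of_mem hi))
      exact key _ _ fun i _ => key _ _ fun j _ => hms i j
    rw [← h] at hms2
    exact not_ms_self (hms2.mono_ac Measure.AbsolutelyContinuous.rfl hk)
  · rintro ⟨i, j, h⟩
    rcases (oav_root (h := l) hn hK hpK hqK hν).1.eq_or (oav_root (h := k) hn hK hpK hqK hν).1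
      with h1 | h1
    · exact h1
    · exfalso
      have h2 := tr_le_oav hn hK hpK hqK ν l i j
      rw [← h] at h2
      exact not_ms_self (h1.mono_ac hk h2)

lemma tr_cancel {n : ℕ} (hn : n ≠ 0) {X Y : Measure UnitAddCircle} {l : ℕ}
    (h : X.map (tr n l) = Y.map (tr n l)) : X = Y := by
  obtain ⟨m, rfl⟩ : ∃ m, n = m + 1 := ⟨n - 1, by omega⟩
  have h3 := congrArg (fun ρ : Measure UnitAddCircle => ρ.map (tr (m + 1) (m * l))) h
  simp only [map_tr_tr] at h3
  rwa [tr_mod hn (show m * l + l ≡ 0 [MOD m + 1] by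
    have e : m * l + l = (m + 1) * l := by ring
    rw [e]
    simp [Nat.ModEq]), tr_zero, Measure.map_id, Measure.map_id] at h3

/-- **The period of a measure.** -/
theorem exists_period {n : ℕ} (hn : n ≠ 0) (ν : Measure UnitAddCircle) :
    ∃ n' : ℕ, n' ≠ 0 ∧ n' ∣ n ∧ ∀ k l : ℕ, ν.map (tr n k) = ν.map (tr n l) ↔ k ≡ l [MOD n'] := by
  classical
  have hex : ∃ k : ℕ, 0 < k ∧ ν.map (tr n k) = ν := by
    refine ⟨n, Nat.pos_of_ne_zero hn, ?_⟩
    rw [tr_mod hn (show n ≡ 0 [MOD n] by simp [Nat.ModEq]), tr_zero, Measure.map_id]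
  obtain ⟨d, hd0, hdS, hmin⟩ : ∃ d, 0 < d ∧ ν.map (tr n d) = ν ∧
      ∀ k, 0 < k → ν.map (tr n k) = ν → d ≤ k :=
    ⟨Nat.find hex, (Nat.find_spec hex).1, (Nat.find_spec hex).2,
      fun k h1 h2 => Nat.find_min' hex ⟨h1, h2⟩⟩
  have hmul : ∀ i : ℕ, ν.map (tr n (d * i)) = ν := by
    intro i
    rw [mul_comm]
    exact stab_mul hdS i
  have hS : ∀ k : ℕ, ν.map (tr n k) = ν ↔ d ∣ k := by
    intro k
    constructor
    · intro h
      by_contra hcon
      have h1 : 0 < k % d := Nat.pos_of_ne_zero fun h => hcon (Nat.dvd_of_mod_eq_zero h)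
      have h2 : ν.map (tr n (k % d)) = ν := by
        have h3 : ν.map (tr n k) = (ν.map (tr n (d * (k / d)))).map (tr n (k % d)) := by
          rw [map_tr_tr, Nat.mod_add_div]
        rw [hmul] at h3
        rw [← h3, h]
      have h4 := hmin _ h1 h2
      have h5 := Nat.mod_lt k hd0
      omega
    · rintro ⟨i, rfl⟩
      exact hmul i
  have hle : ∀ k l : ℕ, l ≤ k → (ν.map (tr n k) = ν.map (tr n l) ↔ k ≡ l [MOD d]) := by
    intro k l hlk
    obtain ⟨r, rfl⟩ := Nat.exists_eq_add_of_le hlk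
    have h1 : ν.map (tr n (l + r)) = (ν.map (tr n r)).map (tr n l) := by rw [map_tr_tr]
    have h2 : l + r ≡ l [MOD d] ↔ d ∣ r := by
      rw [Nat.ModEq.comm, Nat.modEq_iff_dvd' (Nat.le_add_right l r), Nat.add_sub_cancel_left]
    rw [h1, h2, ← hS]
    constructor
    · intro h
      exact tr_cancel hn h
    · intro h
      rw [h]
  refine ⟨d, hd0.ne', ?_, fun k l => ?_⟩
  · rw [← hS, tr_mod hn (show n ≡ 0 [MOD n] by simp [Nat.ModEq]), tr_zero, Measure.map_id]
  · rcases le_total l k with h | h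
    · exact hle k l h
    · rw [eq_comm, Nat.ModEq.comm]
      exact hle l k h

/-- the coefficients of a measure with a period -/
lemma hat_period {n n' : ℕ} (hn : n ≠ 0) (hd : n' ∣ n) {ν : Measure UnitAddCircle}
    (h : ν.map (tr n n') = ν) {m : ℤ} (hm : ¬ ((n / n' : ℕ) : ℤ) ∣ m) : hat ν m = 0 := by
  obtain ⟨c, rfl⟩ := hd
  have hn' : n' ≠ 0 := left_ne_zero_of_mul hn
  have hc : c ≠ 0 := right_ne_zero_of_mul hn
  rw [Nat.mul_div_cancel_left c (Nat.pos_of_ne_zero hn')] at hm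
  have h1 := hat_tr ν (n' * c) n' m
  rw [h] at h1
  have h2 : n' • pN (n' * c) = pN c := by
    unfold pN
    rw [← AddCircle.coe_nsmul, nsmul_eq_mul]
    congr 1
    have : (n' : ℝ) ≠ 0 := by exact_mod_cast hn'
    push_cast
    field_simp
  rw [h2] at h1
  by_contra h0
  have h3 : (fourier m (pN c) : ℂ) = 1 := by
    have h4 : (fourier m (pN c) : ℂ) * hat ν m = 1 * hat ν m := by rw [← h1, one_mul]
    exact mul_right_cancel₀ h0 h4
  have h4 := sum_roots hc m
  rw [if_neg hm] at h4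
  have h5 : ∑ k ∈ range c, (fourier m (k • pN c) : ℂ) = c := by
    have h6 : ∀ k ∈ range c, (fourier m (k • pN c) : ℂ) = 1 := fun k _ => by
      rw [f_mul, h3, one_pow]
    rw [sum_congr rfl h6, sum_const, card_range, nsmul_eq_mul, mul_one]
  rw [h5] at h4
  exact hc (by exact_mod_cast h4)

/-- exponential sums -/
lemma chi_exp (n p q K h : ℕ) (m : ℤ) : chi n p q K h m = ((K : ℂ) ^ 2)⁻¹ *
    ∑ i ∈ range K, ∑ j ∈ range K,
      Complex.exp (2 * Real.pi * Complex.I * (m * (p ^ i * q ^ j * h) / n)) := by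
  unfold chi
  congr 1
  refine sum_congr rfl fun i _ => sum_congr rfl fun j _ => ?_
  unfold pN
  rw [← AddCircle.coe_nsmul, fourier_coe_apply]
  congr 1
  rw [nsmul_eq_mul]
  push_cast
  ring

end Run7.h303.TE
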