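import Pool.Agent.Run7.h303.TE.Stab

/-!
Translates of one totally ergodic measure and another one.
-/

set_option autoImplicit false

open MeasureTheory Filter Topology Finset
open scoped ENNReal

namespace Run7.h303.TE

open Run7.h303.TR
open Pool.Agent.R202.TM (JointErg)
open Pool.Agent.R203.ID (hat norm_f f_add f_zero norm_hat_le ext_hat hat_map_nsmul inv_iff hat_vol)

variable {p q : ℕ} {μ ν : Measure UnitAddCircle}

/-- translates by rational numbers with denominators prime to `p q` -/
lemma pair_coprime (h : TErg p q μ) (h' : TErg p q ν) {n : ℕ} (hn : n ≠ 0)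
    (hpn : Nat.Coprime p n) (hqn : Nat.Coprime q n)
    {θ : UnitAddCircle} (hθ : n • θ = 0) : shift θ μ = ν ∨ shift θ μ ⟂ₘ ν := by
  obtain ⟨k, -, rfl⟩ := exists_of_torsion hn hθ
  have hK1 : 1 ≤ n.totient := Nat.totient_pos.2 (Nat.pos_of_ne_zero hn)
  exact (h'.erg2 hK1).eq_or ((h.erg2 hK1).tr hn (Nat.ModEq.pow_totient hpn)
    (Nat.ModEq.pow_totient hqn) k)

/-- **A translate of one totally ergodic measure is equal or singular to another one.** -/
theorem pair_dich (hp : 2 ≤ p) (hq : 2 ≤ q) (hpq : Nat.Coprime p q) (h : TErg p q μ)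
    (h' : TErg p q ν) (hne' : ν ≠ volume) (θ : UnitAddCircle) :
    shift θ μ = ν ∨ shift θ μ ⟂ₘ ν := by
  haveI := h.prob
  haveI := h'.prob
  obtain ⟨r, rfl⟩ := QuotientAddGroup.mk_surjective θ
  by_cases hr : Irrational r
  · right
    exact Pool.Agent.H847R3.XpXq.maps hp hq (Pool.Agent.W764.SH.irr_of_coprime hp hq hpq)
      h.mpp h.mpq h'.mpp h'.mpq (Or.inr (h'.ms_vol hp hq hne')) (C := {(r, fun _ => 1)})
      (Set.countable_singleton _) (by
        rintro c hc
        rw [Set.mem_singleton_iff] at hc
        subst hc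
        exact ⟨hr, fun _ => ⟨0, 0, by simp⟩⟩) (shift_meas _)
      (Eventually.of_forall fun x => ⟨1, 1, one_ne_zero, one_ne_zero, _, Set.mem_singleton _, by
        simp only [one_smul, add_sub_cancel_left]
        exact tendsto_const_nhds⟩)
  · obtain ⟨w, hw⟩ : ∃ w : ℚ, (w : ℝ) = r := by
      unfold Irrational at hr
      push Not at hr
      exact hr
    set θ : UnitAddCircle := ((r : ℝ) : UnitAddCircle) with hθ
    have hθn : w.den • θ = 0 := by
      rw [hθ, ← AddCircle.coe_nsmul, nsmul_eq_mul, AddCircle.coe_eq_zero_iff]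
      refine ⟨w.num, ?_⟩
      rw [zsmul_eq_mul, mul_one, ← hw]
      have h1 : (w : ℝ) = w.num / w.den := by exact_mod_cast (Rat.num_div_den w).symm
      have h2 : (w.den : ℝ) ≠ 0 := by exact_mod_cast w.den_nz
      rw [h1]
      field_simp
    by_cases hms : shift θ μ ⟂ₘ ν
    · exact Or.inr hms
    left
    obtain ⟨a, b, k, hab, hak, hbs⟩ := split (s := p * q) w.den w.den_nz
    have hb0 : b ≠ 0 := by
      rintro rfl
      exact w.den_nz (by rw [hab, mul_zero])
    have hpb : Nat.Coprime p b := (Nat.Coprime.coprime_mul_right_right hbs).symm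
    have hqb : Nat.Coprime q b := (Nat.Coprime.coprime_mul_left_right hbs).symm
    set c := (p * q) ^ k with hc
    obtain ⟨a', ha'⟩ := hak
    have hpqμ : ∀ {ρ : Measure UnitAddCircle}, TErg p q ρ →
        MeasurePreserving (fun x : UnitAddCircle => (p * q) • x) ρ ρ := by
      intro ρ hρ
      have e : (fun x : UnitAddCircle => (p * q) • x) =
          (fun x : UnitAddCircle => p • x) ∘ fun x : UnitAddCircle => q • x := by
        funext x
        simp only [Function.comp]
        rw [smul_smul]
      rw [e]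
      exact hρ.mpp.comp hρ.mpq
    have hcμ : MeasurePreserving (fun x : UnitAddCircle => c • x) μ μ := mp_pow (hpqμ h) k
    have hcν : MeasurePreserving (fun x : UnitAddCircle => c • x) ν ν := mp_pow (hpqμ h') k
    have hcb : b • (c • θ) = 0 := by
      rw [ha', smul_smul, show b * (a * a') = a' * (a * b) by ring, ← hab, mul_smul, hθn,
        smul_zero]
    have h1 : shift (c • θ) μ = ν := by
      refine (pair_coprime h h' hb0 hpb hqb hcb).resolve_right fun h2 => hms ?_
      refine ms_of_map (c := c) ?_
      rwa [map_shift, hcμ.map_eq, hcν.map_eq]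
    have h1' : ∀ j : ℕ, shift (c ^ j • (c • θ)) μ = ν := by
      intro j
      have h2 := congrArg (fun ρ : Measure UnitAddCircle =>
        ρ.map fun x : UnitAddCircle => (c ^ j) • x) h1
      rwa [map_shift, (mp_pow hcμ j).map_eq, (mp_pow hcν j).map_eq] at h2
    have hcop : Nat.Coprime c b := (hbs.symm.pow_left k)
    have htot : 1 ≤ b.totient := Nat.totient_pos.2 (Nat.pos_of_ne_zero hb0)
    set v := c ^ (b.totient - 1) with hv
    have hv1 : c * v ≡ 1 [MOD b] := by
      rw [hv, ← pow_succ', Nat.sub_add_cancel htot]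
      exact Nat.ModEq.pow_totient hcop
    obtain ⟨l, -, hl⟩ := exists_of_torsion hb0 hcb
    have h2 : (c * v) • (c • θ) = c • θ := by
      rw [hl, smul_smul]
      exact pN_mod hb0 (by simpa using hv1.mul_right l)
    set η := v • (c • θ) with hη
    have h3 : shift η μ = ν := h1' (b.totient - 1)
    have h4 : c • (θ - η) = 0 := by
      rw [smul_sub, hη, smul_smul c v, h2, sub_self]
    have h5 : shift θ μ = shift (θ - η) ν := by
      conv_lhs => rw [show θ = η + (θ - η) by abel, ← shift_shift, h3]
    by_cases h6 : θ - η = 0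
    · rw [h5, h6, shift_zero]
    · exfalso
      apply hms
      rw [h5]
      exact ms_of_inj (inj_pow hp hq hpq h' hne' k) h4 h6

end Run7.h303.TE
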