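import Pool.Agent.Run7.h303.TE.Core

/-!
Totally ergodic measures on the circle for two multiplications: unique totally ergodic lifts through
`x ↦ n x`, and the description of all ergodic lifts.
-/

set_option autoImplicit false

open MeasureTheory Filter Topology Finset
open scoped ENNReal

namespace Run7.h303.TE

open Run7.h303.TR
open Pool.Agent.R202.TM (JointErg)
open Pool.Agent.R203.ID (hat norm_f f_add f_zero norm_hat_le ext_hat hat_map_nsmul inv_iff)

/-- solving `p h + c = h` modulo `n` -/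
lemma solve {n p : ℕ} (hn : n ≠ 0) (hp : 1 ≤ p) (hc : Nat.Coprime (p - 1) n) (c : ℕ) :
    ∃ h : ℕ, p * h + c ≡ h [MOD n] := by
  obtain ⟨u, v, huv⟩ := (Nat.isCoprime_iff_coprime.2 hc : IsCoprime ((p - 1 : ℕ) : ℤ) (n : ℤ))
  have hnz : (n : ℤ) ≠ 0 := by exact_mod_cast hn
  refine ⟨((-(c * u)) % (n : ℤ)).toNat, ?_⟩
  have h1 : ((((-(c * u)) % (n : ℤ)).toNat : ℕ) : ℤ) = (-(c * u)) % (n : ℤ) :=
    Int.toNat_of_nonneg (Int.emod_nonneg _ hnz)
  have h2 : (-(c * u)) % (n : ℤ) ≡ -(c * u) [ZMOD n] := Int.mod_modEq _ _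
  rw [← Int.natCast_modEq_iff]
  push_cast
  rw [h1]
  push_cast [Nat.cast_sub hp] at huv
  calc (p : ℤ) * (-(c * u) % n) + c ≡ p * (-(c * u)) + c [ZMOD n] := (h2.mul_left _).add_right _
    _ ≡ -(c * u) [ZMOD n] := by
      rw [Int.modEq_iff_dvd]
      refine ⟨-(c * v), ?_⟩
      linear_combination (c : ℤ) * huv
    _ ≡ -(c * u) % n [ZMOD n] := h2.symm

lemma mp_pow {a : ℕ} {μ : Measure UnitAddCircle}
    (h : MeasurePreserving (fun x : UnitAddCircle => a • x) μ μ) (k : ℕ) :
    MeasurePreserving (fun x : UnitAddCircle => (a ^ k) • x) μ μ := by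
  induction k with
  | zero =>
    have e : (fun x : UnitAddCircle => (a ^ 0) • x) = id := by funext x; simp
    rw [e]
    exact MeasurePreserving.id μ
  | succ k ih =>
    have e : (fun x : UnitAddCircle => (a ^ (k + 1)) • x) =
        (fun x : UnitAddCircle => (a ^ k) • x) ∘ fun x : UnitAddCircle => a • x := by
      funext x
      simp only [Function.comp]
      rw [smul_smul, pow_succ]
    rw [e]
    exact ih.comp h

lemma pre_pow {a : ℕ} {E : Set UnitAddCircle} (h : (fun x : UnitAddCircle => a • x) ⁻¹' E = E)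
    (k : ℕ) : (fun x : UnitAddCircle => (a ^ k) • x) ⁻¹' E = E := by
  induction k with
  | zero => simp
  | succ k ih =>
    have e : (fun x : UnitAddCircle => (a ^ (k + 1)) • x) =
        (fun x : UnitAddCircle => (a ^ k) • x) ∘ fun x : UnitAddCircle => a • x := by
      funext x
      simp only [Function.comp]
      rw [smul_smul, pow_succ]
    rw [e, Set.preimage_comp, ih, h]

lemma erg_pow {a b : ℕ} {μ : Measure UnitAddCircle} {k : ℕ}
    (h : JointErg (fun x : UnitAddCircle => (a ^ k) • x) (fun x : UnitAddCircle => (b ^ k) • x) μ) :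
    JointErg (fun x : UnitAddCircle => a • x) (fun x : UnitAddCircle => b • x) μ :=
  fun E hE h1 h2 => h E hE (pre_pow h1 k) (pre_pow h2 k)

/-- totally ergodic measures -/
structure TErg (p q : ℕ) (μ : Measure UnitAddCircle) : Prop where
  prob : IsProbabilityMeasure μ
  mpp : MeasurePreserving (fun x : UnitAddCircle => p • x) μ μ
  mpq : MeasurePreserving (fun x : UnitAddCircle => q • x) μ μ
  erg : ∀ k : ℕ, 1 ≤ k →
    JointErg (fun x : UnitAddCircle => (p ^ k) • x) (fun x : UnitAddCircle => (q ^ k) • x) μ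

lemma TErg.erg2 {p q : ℕ} {μ : Measure UnitAddCircle} (h : TErg p q μ) {k : ℕ} (hk : 1 ≤ k) :
    Erg2 (p ^ k) (q ^ k) μ :=
  ⟨h.prob, mp_pow h.mpp k, mp_pow h.mpq k, h.erg k hk⟩

lemma TErg.erg1 {p q : ℕ} {μ : Measure UnitAddCircle} (h : TErg p q μ) : Erg2 p q μ := by
  have := h.erg2 le_rfl
  rwa [pow_one, pow_one] at this

lemma TErg.map {p q : ℕ} {μ : Measure UnitAddCircle} (h : TErg p q μ) (k : ℕ) :
    TErg p q (μ.map fun x : UnitAddCircle => k • x) := by
  haveI := h.prob
  exact ⟨Measure.isProbabilityMeasure_map (by fun_prop), mp_map h.mpp k, mp_map h.mpq k,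
    fun j hj => erg_map (h.erg j hj) k⟩

lemma map_comm (μ : Measure UnitAddCircle) (a b : ℕ) :
    (μ.map fun x : UnitAddCircle => a • x).map (fun x : UnitAddCircle => b • x) =
      (μ.map fun x : UnitAddCircle => b • x).map fun x : UnitAddCircle => a • x := by
  rw [Measure.map_map (by fun_prop) (by fun_prop), Measure.map_map (by fun_prop) (by fun_prop)]
  congr 1
  funext x
  exact comm_smul b a x

/-- a lift which is invariant under one more multiplication -/
theorem exists_fixed {n p a b : ℕ} (hn : n ≠ 0) (hp : 1 ≤ p) (hc : Nat.Coprime (p - 1) n)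
    (ha : a ≡ 1 [MOD n]) (hb : b ≡ 1 [MOD n]) {μ : Measure UnitAddCircle} (hμ : Erg2 a b μ)
    (hμp : μ.map (fun x : UnitAddCircle => p • x) = μ) :
    ∃ ν : Measure UnitAddCircle, Erg2 a b ν ∧ ν.map (fun x : UnitAddCircle => n • x) = μ ∧
      ν.map (fun x : UnitAddCircle => p • x) = ν := by
  obtain ⟨ρ, hρ, hρn⟩ := exists_component hn ha hb hμ
  obtain ⟨c, -, hcρ⟩ := component_eq hn ha hb hρ (hρ.map p) (by
    rw [map_comm, hρn, hμp])
  obtain ⟨h, hh⟩ := solve hn hp hc c
  refine ⟨ρ.map (tr n h), hρ.tr hn ha hb h, ?_, ?_⟩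
  · rw [map_tr_smul hn, hρn]
  · rw [map_smul_tr, hcρ, map_tr_tr, tr_mod hn hh]

/-- invariance under a translation -/
lemma stab_mul {n : ℕ} {ν : Measure UnitAddCircle} {h : ℕ} (hν : ν.map (tr n h) = ν) (i : ℕ) :
    ν.map (tr n (i * h)) = ν := by
  induction i with
  | zero => rw [zero_mul, tr_zero, Measure.map_id]
  | succ i ih => rw [add_mul, one_mul, ← map_tr_tr, hν, ih]

/-- uniqueness of the lift which is invariant under one more multiplication -/
theorem fixed_unique {n p a b : ℕ} (hn : n ≠ 0) (hp : 1 ≤ p) (hc : Nat.Coprime (p - 1) n)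
    (ha : a ≡ 1 [MOD n]) (hb : b ≡ 1 [MOD n]) {ν ν' : Measure UnitAddCircle} (hν : Erg2 a b ν)
    (hν' : Erg2 a b ν')
    (h : ν'.map (fun x : UnitAddCircle => n • x) = ν.map fun x : UnitAddCircle => n • x)
    (hp1 : ν.map (fun x : UnitAddCircle => p • x) = ν)
    (hp2 : ν'.map (fun x : UnitAddCircle => p • x) = ν') : ν' = ν := by
  obtain ⟨k, -, hk⟩ := component_eq hn ha hb hν hν' h
  have h1 : ν.map (tr n (p * k)) = ν.map (tr n k) := by
    rw [← hk, ← hp2]
    conv_rhs => rw [hk, map_smul_tr, hp1]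
  obtain ⟨m, rfl⟩ : ∃ m, n = m + 1 := ⟨n - 1, by omega⟩
  have h2 : ν.map (tr (m + 1) ((p - 1) * k)) = ν := by
    have h3 := congrArg (fun ρ : Measure UnitAddCircle => ρ.map (tr (m + 1) (m * k))) h1
    simp only [map_tr_tr] at h3
    rw [tr_mod hn (show m * k + k ≡ 0 [MOD m + 1] by
      have e : m * k + k = (m + 1) * k := by ring
      rw [e]
      simp [Nat.ModEq]), tr_zero, Measure.map_id] at h3
    rwa [tr_mod hn (show m * k + p * k ≡ (p - 1) * k [MOD m + 1] by
      have e : m * k + p * k = (p - 1) * k + (m + 1) * k := by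
        obtain ⟨r, rfl⟩ : ∃ r, p = r + 1 := ⟨p - 1, by omega⟩
        rw [Nat.add_sub_cancel]
        ring
      rw [e]
      simp [Nat.ModEq])] at h3
  obtain ⟨i, hi⟩ := solve hn hp hc 1
  -- `(p - 1) i = -1`
  have h4 : ν.map (tr (m + 1) (m * (i * ((p - 1) * k)))) = ν := stab_mul (stab_mul h2 i) m
  have h5 : m * (i * ((p - 1) * k)) ≡ k [MOD m + 1] := by
    rw [← Int.natCast_modEq_iff] at hi ⊢
    obtain ⟨r, rfl⟩ : ∃ r, p = r + 1 := ⟨p - 1, by omega⟩
    rw [Nat.add_sub_cancel]
    rw [Int.modEq_iff_dvd] at hi ⊢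
    obtain ⟨w, hw⟩ := hi
    push_cast at hw ⊢
    refine ⟨(k : ℤ) * (1 + m * w), ?_⟩
    linear_combination ((m : ℤ) * k) * hw
  rw [hk, ← tr_mod hn h5, h4]

/-- **Totally ergodic lifts.** -/
theorem exists_unique_root {n p q : ℕ} (hn : n ≠ 0) (hp : 1 ≤ p) (hc : Nat.Coprime (p - 1) n)
    (hpn : Nat.Coprime p n) (hqn : Nat.Coprime q n) {μ : Measure UnitAddCircle}
    (hμ : TErg p q μ) :
    ∃ ν : Measure UnitAddCircle, (TErg p q ν ∧ ν.map (fun x : UnitAddCircle => n • x) = μ) ∧
      ∀ ν' : Measure UnitAddCircle, TErg p q ν' → ν'.map (fun x : UnitAddCircle => n • x) = μ →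
        ν' = ν := by
  haveI := hμ.prob
  set K := n.totient with hK
  have hK1 : 1 ≤ K := Nat.totient_pos.2 (Nat.pos_of_ne_zero hn)
  have hpK : p ^ K ≡ 1 [MOD n] := Nat.ModEq.pow_totient hpn
  have hqK : q ^ K ≡ 1 [MOD n] := Nat.ModEq.pow_totient hqn
  have hpow : ∀ {c : ℕ}, c ^ K ≡ 1 [MOD n] → ∀ j, c ^ (K * j) ≡ 1 [MOD n] := by
    intro c hc j
    rw [pow_mul]
    simpa using hc.pow j
  obtain ⟨ν, h1, h2, h3⟩ := exists_fixed hn hp hc hpK hqK (hμ.erg2 hK1) hμ.mpp.map_eq
  haveI := h1.prob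
  have uni : ∀ ν' : Measure UnitAddCircle, Erg2 (p ^ K) (q ^ K) ν' →
      ν'.map (fun x : UnitAddCircle => n • x) = μ → ν'.map (fun x : UnitAddCircle => p • x) = ν' →
      ν' = ν := fun ν' e1 e2 e3 => fixed_unique hn hp hc hpK hqK h1 e1 (by rw [e2, h2]) h3 e3
  have h4 : ν.map (fun x : UnitAddCircle => q • x) = ν := by
    refine uni _ (h1.map q) ?_ ?_
    · rw [map_comm, h2, hμ.mpq.map_eq]
    · rw [map_comm, h3]
  have h5 : ∀ k : ℕ, 1 ≤ k →
      JointErg (fun x : UnitAddCircle => (p ^ k) • x) (fun x : UnitAddCircle => (q ^ k) • x) ν := by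
    intro k hk
    obtain ⟨ν', g1, g2, g3⟩ := exists_fixed hn hp hc (hpow hpK k) (hpow hqK k)
      (hμ.erg2 (Nat.mul_pos hK1 hk)) hμ.mpp.map_eq
    have hν'K : Erg2 (p ^ K) (q ^ K) ν' := by
      haveI := g1.prob
      refine ⟨g1.prob, mp_pow ⟨by fun_prop, g3⟩ K, ?_, ?_⟩
      · -- invariance under the second multiplication
        have e : ν'.map (fun x : UnitAddCircle => q • x) = ν' := by
          refine fixed_unique hn hp hc (hpow hpK k) (hpow hqK k) g1 (g1.map q) ?_ g3 ?_
          · rw [map_comm, g2, hμ.mpq.map_eq]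
          · rw [map_comm, g3]
        exact mp_pow ⟨by fun_prop, e⟩ K
      · have := g1.erg
        rw [pow_mul, pow_mul] at this
        exact erg_pow this
    have e := uni ν' hν'K g2 g3
    have := g1.erg
    rw [e, mul_comm, pow_mul, pow_mul] at this
    exact erg_pow this
  refine ⟨ν, ⟨⟨h1.prob, ⟨by fun_prop, h3⟩, ⟨by fun_prop, h4⟩, h5⟩, h2⟩, fun ν' hν' e => ?_⟩
  exact uni ν' (hν'.erg2 hK1) e hν'.mpp.map_eq

/-- the average of the translates over an orbit -/
noncomputable def oav (n p q K h : ℕ) (ν : Measure UnitAddCircle) : Measure UnitAddCircle :=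
  ((K : ℝ≥0∞) ^ 2)⁻¹ • ∑ i ∈ range K, ∑ j ∈ range K, ν.map (tr n (p ^ i * q ^ j * h))

/-- the Fourier transform of the uniform measure on the orbit -/
noncomputable def chi (n p q K h : ℕ) (m : ℤ) : ℂ :=
  ((K : ℂ) ^ 2)⁻¹ * ∑ i ∈ range K, ∑ j ∈ range K, (fourier m ((p ^ i * q ^ j * h) • pN n) : ℂ)

lemma oav_prob {n p q K h : ℕ} (hK : 1 ≤ K) {ν : Measure UnitAddCircle} [IsProbabilityMeasure ν] :
    IsProbabilityMeasure (oav n p q K h ν) := by
  have hpm : ∀ k : ℕ, IsProbabilityMeasure (ν.map (tr n k)) :=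
    fun k => Measure.isProbabilityMeasure_map (tr_meas n k).aemeasurable
  constructor
  unfold oav
  rw [Measure.smul_apply, Measure.finsetSum_apply]
  simp only [Measure.finsetSum_apply, measure_univ, sum_const, card_range, nsmul_eq_mul, mul_one,
    smul_eq_mul]
  rw [← sq]
  refine ENNReal.inv_mul_cancel ?_ ?_
  · have : (K : ℝ≥0∞) ≠ 0 := by exact_mod_cast (by omega : K ≠ 0)
    exact pow_ne_zero 2 this
  · exact ENNReal.pow_ne_top (ENNReal.natCast_ne_top K)

lemma hat_oav {n p q K h : ℕ} {ν : Measure UnitAddCircle} [IsProbabilityMeasure ν] (m : ℤ) :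
    hat (oav n p q K h ν) m = hat ν m * chi n p q K h m := by
  have hpm : ∀ k : ℕ, IsProbabilityMeasure (ν.map (tr n k)) :=
    fun k => Measure.isProbabilityMeasure_map (tr_meas n k).aemeasurable
  have hi : ∀ (ρ : Measure UnitAddCircle) [IsFiniteMeasure ρ],
      Integrable (fun x : UnitAddCircle => (fourier m x : ℂ)) ρ := fun ρ _ =>
    Integrable.of_bound (fourier m).continuous.aestronglyMeasurable 1
      (Eventually.of_forall fun x => (norm_f _ x).le)
  unfold oav chi
  have e0 : hat (((K : ℝ≥0∞) ^ 2)⁻¹ • ∑ i ∈ range K, ∑ j ∈ range K,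
      ν.map (tr n (p ^ i * q ^ j * h))) m = (((K : ℝ≥0∞) ^ 2)⁻¹).toReal •
      ∑ i ∈ range K, ∑ j ∈ range K, hat (ν.map (tr n (p ^ i * q ^ j * h))) m := by
    unfold hat
    rw [integral_smul_measure, integral_finsetSum_measure fun i _ => hi _]
    congr 1
    exact sum_congr rfl fun i _ => integral_finsetSum_measure fun j _ => hi _
  rw [e0]
  simp only [hat_tr, ← sum_mul]
  rw [ENNReal.toReal_inv, ENNReal.toReal_pow, ENNReal.toReal_natCast, Complex.real_smul]
  push_cast
  ring

lemma chi_mul {n p q K h : ℕ} (hn : n ≠ 0) (hpK : p ^ K ≡ 1 [MOD n]) (m : ℤ) :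
    chi n p q K h (m * p) = chi n p q K h m := by
  unfold chi
  congr 1
  set f : ℕ → ℂ := fun i => ∑ j ∈ range K, (fourier m ((p ^ i * q ^ j * h) • pN n) : ℂ) with hf
  have h1 : ∀ i ∈ range K, ∑ j ∈ range K, (fourier (m * p) ((p ^ i * q ^ j * h) • pN n) : ℂ) =
      f (i + 1) := by
    intro i _
    rw [hf]
    refine sum_congr rfl fun j _ => ?_
    rw [← Pool.Agent.R203.ID.f_nsmul, smul_smul]
    congr 2
    ring
  rw [sum_congr rfl h1]
  have h2 : f K = f 0 := by
    rw [hf]
    refine sum_congr rfl fun j _ => ?_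
    rw [pN_mod hn (show p ^ K * q ^ j * h ≡ p ^ 0 * q ^ j * h [MOD n] by
      rw [pow_zero]
      exact (hpK.mul_right _).mul_right _)]
  have h3 := Finset.sum_range_succ f K
  have h4 := Finset.sum_range_succ' f K
  rw [h4, h2] at h3
  exact add_right_cancel h3

lemma chi_mul' {n p q K h : ℕ} (hn : n ≠ 0) (hqK : q ^ K ≡ 1 [MOD n]) (m : ℤ) :
    chi n p q K h (m * q) = chi n p q K h m := by
  have e : ∀ m : ℤ, chi n p q K h m = chi n q p K h m := by
    intro m
    unfold chi
    rw [Finset.sum_comm]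
    congr 1
    refine sum_congr rfl fun i _ => sum_congr rfl fun j _ => ?_
    rw [mul_comm (p ^ j)]
  rw [e, e, chi_mul hn hqK]

lemma chi_n {n p q K h : ℕ} (hn : n ≠ 0) (hK : 1 ≤ K) (m : ℤ) :
    chi n p q K h (m * n) = 1 := by
  unfold chi
  have h1 : ∀ k : ℕ, (fourier (m * n) (k • pN n) : ℂ) = 1 := by
    intro k
    rw [mul_comm, f_mul_n, comm_smul, pN_tors hn, smul_zero, f_zero]
  simp only [h1, sum_const, card_range, nsmul_eq_mul, mul_one]
  have : (K : ℂ) ≠ 0 := by exact_mod_cast (by omega : K ≠ 0)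
  field_simp

/-- **The ergodic lifts.** -/
theorem oav_root {n p q K h : ℕ} (hn : n ≠ 0) (hK : 1 ≤ K) (hpK : p ^ K ≡ 1 [MOD n])
    (hqK : q ^ K ≡ 1 [MOD n]) {ν : Measure UnitAddCircle} (hν : TErg p q ν) :
    Erg2 p q (oav n p q K h ν) ∧
      (oav n p q K h ν).map (fun x : UnitAddCircle => n • x) =
        ν.map fun x : UnitAddCircle => n • x := by
  haveI := hν.prob
  haveI : IsProbabilityMeasure (oav n p q K h ν) := oav_prob hK
  have hP := inv_iff (μ := ν) p
  have hQ := inv_iff (μ := ν) q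
  refine ⟨⟨inferInstance, ?_, ?_, ?_⟩, ?_⟩
  · rw [inv_iff]
    intro m
    rw [hat_oav, hat_oav, hP.1 hν.mpp, chi_mul hn hpK]
  · rw [inv_iff]
    intro m
    rw [hat_oav, hat_oav, hQ.1 hν.mpq, chi_mul' hn hqK]
  · intro E hE h1 h2
    have key : ∀ i j : ℕ, (ν.map (tr n (p ^ i * q ^ j * h))) E = (ν.map (tr n h)) E := by
      intro i j
      have e1 : ν.map (fun x : UnitAddCircle => (p ^ i * q ^ j) • x) = ν := by
        have e2 : (fun x : UnitAddCircle => (p ^ i * q ^ j) • x) =
            (fun x : UnitAddCircle => p ^ i • x) ∘ fun x : UnitAddCircle => q ^ j • x := by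
          funext x
          simp only [Function.comp]
          rw [smul_smul]
        rw [e2, ← Measure.map_map (by fun_prop) (by fun_prop), (mp_pow hν.mpq j).map_eq,
          (mp_pow hν.mpp i).map_eq]
      have e3 : ν.map (tr n (p ^ i * q ^ j * h)) =
          (ν.map (tr n h)).map fun x : UnitAddCircle => (p ^ i * q ^ j) • x := by
        rw [map_smul_tr, e1]
      rw [e3, Measure.map_apply (by fun_prop) hE]
      congr 1
      ext x
      simp only [Set.mem_preimage]
      rw [← smul_smul]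
      have g1 := Set.ext_iff.1 (pre_pow h1 i) (q ^ j • x)
      have g2 := Set.ext_iff.1 (pre_pow h2 j) x
      simp only [Set.mem_preimage] at g1 g2
      rw [g1, g2]
    have hE2 := ((hν.erg2 hK).tr hn hpK hqK h).erg E hE (pre_pow h1 K) (pre_pow h2 K)
    have hval : oav n p q K h ν E = (ν.map (tr n h)) E := by
      unfold oav
      rw [Measure.smul_apply, Measure.finsetSum_apply]
      simp only [Measure.finsetSum_apply, key, sum_const, card_range, nsmul_eq_mul, smul_eq_mul]
      rw [← mul_assoc (K : ℝ≥0∞), ← sq, ← mul_assoc, ENNReal.inv_mul_cancel, one_mul]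
      · have : (K : ℝ≥0∞) ≠ 0 := by exact_mod_cast (by omega : K ≠ 0)
        exact pow_ne_zero 2 this
      · exact ENNReal.pow_ne_top (ENNReal.natCast_ne_top K)
    rw [hval]
    exact hE2
  · haveI : IsProbabilityMeasure ((oav n p q K h ν).map fun x : UnitAddCircle => n • x) :=
      Measure.isProbabilityMeasure_map (by fun_prop)
    haveI : IsProbabilityMeasure (ν.map fun x : UnitAddCircle => n • x) :=
      Measure.isProbabilityMeasure_map (by fun_prop)
    refine ext_hat fun m => ?_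
    rw [hat_map_nsmul, hat_map_nsmul, hat_oav, chi_n hn hK, mul_one]

/-- **All ergodic lifts.** -/
theorem root_eq_oav {n p q K : ℕ} (hn : n ≠ 0) (hK : 1 ≤ K) (hpK : p ^ K ≡ 1 [MOD n])
    (hqK : q ^ K ≡ 1 [MOD n]) {ν ν' : Measure UnitAddCircle} (hν : TErg p q ν)
    (hν' : Erg2 p q ν')
    (h : ν'.map (fun x : UnitAddCircle => n • x) = ν.map fun x : UnitAddCircle => n • x) :
    ∃ k < n, ν' = oav n p q K k ν := by
  haveI := hν.prob
  haveI := hν'.prob
  haveI : IsProbabilityMeasure (ν.map fun x : UnitAddCircle => n • x) :=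
    Measure.isProbabilityMeasure_map (by fun_prop)
  obtain ⟨κ, hκ, hκ1, hκ0⟩ := exists_canonical hn (ν.map fun x : UnitAddCircle => n • x)
  have e1 : ∀ m : ℤ, hat κ m = if (n : ℤ) ∣ m then hat ν m else 0 := by
    intro m
    split_ifs with hd
    · obtain ⟨l, rfl⟩ := hd
      rw [mul_comm, hκ1, hat_map_nsmul]
    · exact hκ0 m hd
  have e2 : ∀ m : ℤ, hat κ m = if (n : ℤ) ∣ m then hat ν' m else 0 := by
    intro m
    split_ifs with hd
    · obtain ⟨l, rfl⟩ := hd
      rw [mul_comm, hκ1, ← h, hat_map_nsmul]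
    · exact hκ0 m hd
  have hle : ν' ≤ (n : ℝ≥0∞) • κ := dominated hn e2
  rw [sum_trans hn e1] at hle
  by_contra hcon
  push Not at hcon
  have hms : ∀ k ∈ range n, ν' ⟂ₘ ν.map (tr n k) := by
    intro k hk
    rcases (oav_root (h := k) hn hK hpK hqK hν).1.eq_or hν' with h1 | h1
    · exact absurd h1 (hcon k (mem_range.1 hk))
    · refine h1.mono_ac Measure.AbsolutelyContinuous.rfl ?_
      have hle2 : ν.map (tr n k) ≤ ∑ i ∈ range K, ∑ j ∈ range K,
          ν.map (tr n (p ^ i * q ^ j * k)) := by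
        have a1 : ν.map (tr n k) = ν.map (tr n (p ^ 0 * q ^ 0 * k)) := by
          rw [pow_zero, pow_zero, one_mul, one_mul]
        rw [a1]
        refine le_trans ?_ (Finset.single_le_sum (f := fun i => ∑ j ∈ range K,
          ν.map (tr n (p ^ i * q ^ j * k))) (fun i _ => Measure.zero_le _)
          (mem_range.2 (by omega : 0 < K)))
        exact Finset.single_le_sum (f := fun j => ν.map (tr n (p ^ 0 * q ^ j * k)))
          (fun j _ => Measure.zero_le _) (mem_range.2 (by omega : 0 < K))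
      refine (Measure.absolutelyContinuous_of_le hle2).trans ?_
      unfold oav
      refine Measure.absolutelyContinuous_smul ?_
      rw [ENNReal.inv_ne_zero]
      exact ENNReal.pow_ne_top (ENNReal.natCast_ne_top K)
  have hms' : ν' ⟂ₘ ∑ k ∈ range n, ν.map (tr n k) := by
    have key : ∀ t : Finset ℕ, (∀ k ∈ t, ν' ⟂ₘ ν.map (tr n k)) →
        ν' ⟂ₘ ∑ k ∈ t, ν.map (tr n k) := by
      intro t
      induction t using Finset.induction_on with
      | empty => intro _; simp
      | insert b t hb ih' =>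
        intro h
        rw [sum_insert hb]
        exact (h b (mem_insert_self _ _)).add_right (ih' fun i hi => h i (mem_insert_of_mem hi))
    exact key _ hms
  obtain ⟨s, hs, h1, h2⟩ := hms'
  have h3 : ν' sᶜ = 0 := le_antisymm ((hle _).trans h2.le) zero_le'
  have h4 : ν' Set.univ = 1 := measure_univ
  rw [← Set.union_compl_self s, measure_union_null h1 h3] at h4
  exact zero_ne_one h4

end Run7.h303.TE
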