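import Pool.Agent.Run7.h303.TE.More
import Pool.Agent.Run7.h303.GP.Main
import Pool.Agent.H847R3.XpXqF
import Pool.Agent.W764.SH.Vol
import Pool.Agent.R203.ID.Levy

/-!
Translates of totally ergodic measures, and injectivity of the multiplications.
-/

set_option autoImplicit false

open MeasureTheory Filter Topology Finset
open scoped ENNReal

namespace Run7.h303.TE

open Run7.h303.TR
open Pool.Agent.R202.TM (JointErg)
open Pool.Agent.R203.ID (hat norm_f f_add f_zero norm_hat_le ext_hat hat_map_nsmul inv_iff)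

/-- the translate of a measure -/
noncomputable def shift (θ : UnitAddCircle) (μ : Measure UnitAddCircle) : Measure UnitAddCircle :=
  μ.map fun x => x + θ

lemma shift_meas (θ : UnitAddCircle) : Measurable fun x : UnitAddCircle => x + θ := by fun_prop

lemma shift_shift (θ η : UnitAddCircle) (μ : Measure UnitAddCircle) :
    shift θ (shift η μ) = shift (η + θ) μ := by
  unfold shift
  rw [Measure.map_map (shift_meas θ) (shift_meas η)]
  congr 1
  funext x
  exact add_assoc x η θ

lemma shift_zero (μ : Measure UnitAddCircle) : shift 0 μ = μ := by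
  unfold shift
  have : (fun x : UnitAddCircle => x + 0) = id := by funext x; simp
  rw [this, Measure.map_id]

lemma map_shift (c : ℕ) (θ : UnitAddCircle) (μ : Measure UnitAddCircle) :
    (shift θ μ).map (fun x : UnitAddCircle => c • x) =
      shift (c • θ) (μ.map fun x : UnitAddCircle => c • x) := by
  unfold shift
  rw [Measure.map_map (by fun_prop) (shift_meas θ), Measure.map_map (shift_meas _) (by fun_prop)]
  congr 1
  funext x
  exact smul_add c x θ

lemma shift_smul {θ : UnitAddCircle} {μ : Measure UnitAddCircle} (h : shift θ μ = μ) (i : ℕ) :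
    shift (i • θ) μ = μ := by
  induction i with
  | zero => rw [zero_smul, shift_zero]
  | succ i ih => rw [succ_nsmul', ← shift_shift, h, ih]

lemma ms_of_map {c : ℕ} {α β : Measure UnitAddCircle}
    (h : (α.map fun x : UnitAddCircle => c • x) ⟂ₘ β.map fun x : UnitAddCircle => c • x) :
    α ⟂ₘ β := by
  have hc : Measurable fun x : UnitAddCircle => c • x := by fun_prop
  obtain ⟨s, hs, h1, h2⟩ := h
  rw [Measure.map_apply hc hs] at h1
  rw [Measure.map_apply hc hs.compl] at h2
  exact ⟨_, hc hs, h1, h2⟩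

/-- injectivity on a set of full measure -/
def InjAE (n : ℕ) (μ : Measure UnitAddCircle) : Prop :=
  ∃ B : Set UnitAddCircle, MeasurableSet B ∧ μ Bᶜ = 0 ∧
    Set.InjOn (fun x : UnitAddCircle => n • x) B

lemma injAE_of_ess {p : ℕ} (hp : 2 ≤ p) {μ : Measure UnitAddCircle}
    (h : Pool.Agent.W764.FB.EssInj p μ) : InjAE p μ := by
  obtain ⟨B, hB, hB0, hBB⟩ := h
  refine ⟨B, hB, hB0, fun x hx y hy hxy => ?_⟩
  have hxy' : p • x = p • y := hxy
  have h1 : p • (y - x) = 0 := by rw [smul_sub, hxy', sub_self]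
  obtain ⟨k, hk, e⟩ := exists_of_torsion (by omega : p ≠ 0) h1
  rcases Nat.eq_zero_or_pos k with h0 | h0
  · rw [h0, zero_smul] at e
    exact (sub_eq_zero.1 e).symm
  · exfalso
    refine hBB x hx k h0 hk ?_
    have e2 : Pool.Agent.W764.FB.hh p 1 k = k • pN p := by
      unfold Pool.Agent.W764.FB.hh pN
      rw [← AddCircle.coe_nsmul, nsmul_eq_mul, pow_one]
      congr 1
      ring
    rw [e2, ← e, add_sub_cancel]
    exact hy

lemma InjAE.mul {m n : ℕ} {μ : Measure UnitAddCircle} (h1 : InjAE m μ)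
    (hm : MeasurePreserving (fun x : UnitAddCircle => m • x) μ μ) (h2 : InjAE n μ) :
    InjAE (n * m) μ := by
  obtain ⟨B, hB, hB0, hBi⟩ := h1
  obtain ⟨D, hD, hD0, hDi⟩ := h2
  have hc : Measurable fun x : UnitAddCircle => m • x := by fun_prop
  refine ⟨B ∩ (fun x : UnitAddCircle => m • x) ⁻¹' D, hB.inter (hc hD), ?_, ?_⟩
  · rw [Set.compl_inter]
    refine measure_union_null hB0 ?_
    rw [← Set.preimage_compl, hm.measure_preimage hD.compl.nullMeasurableSet, hD0]
  · rintro x ⟨hx1, hx2⟩ y ⟨hy1, hy2⟩ hxy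
    refine hBi hx1 hy1 (hDi hx2 hy2 ?_)
    have h : (n * m) • x = (n * m) • y := hxy
    show n • (m • x) = n • (m • y)
    rw [smul_smul, smul_smul]
    exact h

lemma InjAE.pow {m : ℕ} {μ : Measure UnitAddCircle} (h1 : InjAE m μ)
    (hm : MeasurePreserving (fun x : UnitAddCircle => m • x) μ μ) (a : ℕ) : InjAE (m ^ a) μ := by
  induction a with
  | zero =>
    refine ⟨Set.univ, MeasurableSet.univ, by simp, fun x _ y _ h => ?_⟩
    simpa using h
  | succ a ih =>
    rw [pow_succ]
    exact h1.mul hm ih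

lemma ms_of_inj {n : ℕ} {μ : Measure UnitAddCircle} (h : InjAE n μ) {θ : UnitAddCircle}
    (hθ : n • θ = 0) (h0 : θ ≠ 0) : shift θ μ ⟂ₘ μ := by
  obtain ⟨B, hB, hB0, hBi⟩ := h
  refine ⟨B, hB, ?_, hB0⟩
  unfold shift
  rw [Measure.map_apply (shift_meas θ) hB]
  refine measure_mono_null (fun x hx => ?_) hB0
  intro hxB
  apply h0
  have h1 : x + θ ∈ B := hx
  have h2 := hBi h1 hxB (show n • (x + θ) = n • x by rw [smul_add, hθ, add_zero])
  simpa using h2

lemma inj_of_ms {n : ℕ} (hn : n ≠ 0) {μ : Measure UnitAddCircle}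
    (h : ∀ k, 1 ≤ k → k < n → shift (k • pN n) μ ⟂ₘ μ) : InjAE n μ := by
  have hex : ∀ k : ℕ, ∃ S : Set UnitAddCircle, 1 ≤ k → k < n → MeasurableSet S ∧
      shift (k • pN n) μ S = 0 ∧ μ Sᶜ = 0 := by
    intro k
    by_cases hk : 1 ≤ k ∧ k < n
    · obtain ⟨S, h1, h2, h3⟩ := h k hk.1 hk.2
      exact ⟨S, fun _ _ => ⟨h1, h2, h3⟩⟩
    · exact ⟨∅, fun a b => absurd ⟨a, b⟩ hk⟩
  choose S hS using hex
  set B : Set UnitAddCircle := ⋂ k ∈ Finset.Ico 1 n,
    (S k ∩ ((fun x : UnitAddCircle => x + k • pN n) ⁻¹' (S k))ᶜ) with hB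
  refine ⟨B, ?_, ?_, ?_⟩
  · rw [hB]
    refine Finset.measurableSet_biInter _ fun k hk => ?_
    obtain ⟨h1, h2⟩ := Finset.mem_Ico.1 hk
    exact (hS k h1 h2).1.inter ((shift_meas _) (hS k h1 h2).1).compl
  · rw [hB, Set.compl_iInter₂]
    refine (measure_biUnion_null_iff (Finset.countable_toSet _)).2 fun k hk => ?_
    obtain ⟨h1, h2⟩ := Finset.mem_Ico.1 (Finset.mem_coe.1 hk)
    obtain ⟨e1, e2, e3⟩ := hS k h1 h2
    rw [Set.compl_inter, compl_compl]
    refine measure_union_null e3 ?_
    unfold shift at e2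
    rwa [Measure.map_apply (shift_meas _) e1] at e2
  · intro x hx y hy hxy
    have hxy' : n • x = n • y := hxy
    have h1 : n • (y - x) = 0 := by rw [smul_sub, hxy', sub_self]
    obtain ⟨k, hk, e⟩ := exists_of_torsion hn h1
    rcases Nat.eq_zero_or_pos k with h0 | h0
    · rw [h0, zero_smul] at e
      exact (sub_eq_zero.1 e).symm
    · exfalso
      have e2 : y = x + k • pN n := by rw [← e]; abel
      rw [hB, Set.mem_iInter₂] at hx hy
      have hmem : k ∈ Finset.Ico 1 n := Finset.mem_Ico.2 ⟨h0, hk⟩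
      have g1 := (hx k hmem).2
      have g2 := (hy k hmem).1
      apply g1
      show x + k • pN n ∈ S k
      rw [← e2]
      exact g2

/-- Lebesgue measure -/
lemma erg2_vol {p q : ℕ} (hp : 2 ≤ p) (hq : 2 ≤ q) :
    Erg2 p q (volume : Measure UnitAddCircle) := by
  have h1 := AddCircle.ergodic_nsmul (T := (1 : ℝ)) (n := p) (by omega)
  have h2 := AddCircle.ergodic_nsmul (T := (1 : ℝ)) (n := q) (by omega)
  refine ⟨inferInstance, h1.toMeasurePreserving, h2.toMeasurePreserving, fun E hE h3 _ => ?_⟩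
  exact h1.toPreErgodic.prob_eq_zero_or_one hE h3

lemma TErg.ms_vol {p q : ℕ} (hp : 2 ≤ p) (hq : 2 ≤ q) {μ : Measure UnitAddCircle}
    (h : TErg p q μ) (hne : μ ≠ volume) : μ ⟂ₘ (volume : Measure UnitAddCircle) :=
  ((erg2_vol hp hq).eq_or h.erg1).resolve_left hne

/-- splitting off the part prime to `s` -/
lemma split {s : ℕ} (n : ℕ) (hn : n ≠ 0) : ∃ a b k : ℕ, n = a * b ∧ a ∣ s ^ k ∧
    Nat.Coprime b s := by
  induction n using Nat.strong_induction_on with
  | _ n ih =>
    by_cases hg : n.gcd s = 1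
    · exact ⟨1, n, 0, by simp, by simp, hg⟩
    · have hg0 : 0 < n.gcd s := Nat.gcd_pos_of_pos_left _ (Nat.pos_of_ne_zero hn)
      have hg2 : 2 ≤ n.gcd s := by omega
      obtain ⟨m, hm⟩ := Nat.gcd_dvd_left n s
      have hm0 : m ≠ 0 := by
        rintro rfl
        exact hn (by rw [hm, mul_zero])
      have hmn : m < n := by
        calc m < 2 * m := by omega
          _ ≤ n.gcd s * m := Nat.mul_le_mul_right _ hg2
          _ = n := hm.symm
      obtain ⟨a, b, k, h1, h2, h3⟩ := ih m hmn hm0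
      refine ⟨n.gcd s * a, b, k + 1, ?_, ?_, h3⟩
      · rw [mul_assoc, ← h1, ← hm]
      · rw [pow_succ, mul_comm]
        exact mul_dvd_mul h2 (Nat.gcd_dvd_right n s)

section

variable {p q : ℕ} (hp : 2 ≤ p) (hq : 2 ≤ q) (hpq : Nat.Coprime p q) {μ : Measure UnitAddCircle}
  (h : TErg p q μ) (hne : μ ≠ volume)

include hp hq hpq h hne

lemma inj_p : InjAE p μ := by
  haveI := h.prob
  exact injAE_of_ess hp (Run7.h303.GP.essinj_of_ms hp hq hpq ⟨h.mpp, h.mpq⟩ (h.ms_vol hp hq hne))

lemma inj_q : InjAE q μ := by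
  haveI := h.prob
  exact injAE_of_ess hq (Run7.h303.GP.essinj_of_ms hq hp hpq.symm ⟨h.mpq, h.mpp⟩
    (h.ms_vol hp hq hne))

lemma mp_pq : MeasurePreserving (fun x : UnitAddCircle => (p * q) • x) μ μ := by
  have e : (fun x : UnitAddCircle => (p * q) • x) =
      (fun x : UnitAddCircle => p • x) ∘ fun x : UnitAddCircle => q • x := by
    funext x
    simp only [Function.comp]
    rw [smul_smul]
  rw [e]
  exact h.mpp.comp h.mpq

lemma inj_pow (a : ℕ) : InjAE ((p * q) ^ a) μ :=
  ((inj_q hp hq hpq h hne).mul h.mpq (inj_p hp hq hpq h hne)).pow (mp_pq hp hq hpq h hne) a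

omit hp hq hpq hne in
/-- translates by rational numbers with denominators prime to `p q` -/
lemma shift_coprime {n : ℕ} (hn : n ≠ 0) (hpn : Nat.Coprime p n) (hqn : Nat.Coprime q n)
    {θ : UnitAddCircle} (hθ : n • θ = 0) : shift θ μ = μ ∨ shift θ μ ⟂ₘ μ := by
  obtain ⟨k, -, rfl⟩ := exists_of_torsion hn hθ
  have hK1 : 1 ≤ n.totient := Nat.totient_pos.2 (Nat.pos_of_ne_zero hn)
  exact (h.erg2 hK1).eq_or ((h.erg2 hK1).tr hn (Nat.ModEq.pow_totient hpn)
    (Nat.ModEq.pow_totient hqn) k)

/-- **Translates of a totally ergodic measure are equal or singular.** -/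
theorem shift_dich (θ : UnitAddCircle) : shift θ μ = μ ∨ shift θ μ ⟂ₘ μ := by
  haveI := h.prob
  obtain ⟨r, rfl⟩ := QuotientAddGroup.mk_surjective θ
  by_cases hr : Irrational r
  · right
    exact Pool.Agent.H847R3.XpXq.maps hp hq (Pool.Agent.W764.SH.irr_of_coprime hp hq hpq)
      h.mpp h.mpq h.mpp h.mpq (Or.inl (h.ms_vol hp hq hne)) (C := {(r, fun _ => 1)})
      (Set.countable_singleton _) (by
        rintro c hc
        rw [Set.mem_singleton_iff] at hc
        subst hc
        exact ⟨hr, fun _ => ⟨0, 0, by simp⟩⟩) (shift_meas _)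
      (Eventually.of_forall fun x => ⟨1, 1, one_ne_zero, one_ne_zero, _, Set.mem_singleton _, by
        simp only [one_smul, add_sub_cancel_left]
        exact tendsto_const_nhds⟩)
  · -- the rational case
    obtain ⟨w, hw⟩ : ∃ w : ℚ, (w : ℝ) = r := by
      unfold Irrational at hr
      push Not at hr
      exact hr
    set θ : UnitAddCircle := ((r : ℝ) : UnitAddCircle) with hθ
    have hθn : w.den • θ = 0 := by
      rw [hθ, ← AddCircle.coe_nsmul, nsmul_eq_mul, AddCircle.coe_eq_zero_iff]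
      refine ⟨w.num, ?_⟩
      rw [zsmul_eq_mul, mul_one, ← hw]
      have h1 : (w : ℝ) = w.num / w.den := by exact_mod_cast (Rat.num_div_den w).symm
      have h2 : (w.den : ℝ) ≠ 0 := by exact_mod_cast w.den_nz
      rw [h1]
      field_simp
    by_cases hms : shift θ μ ⟂ₘ μ
    · exact Or.inr hms
    left
    obtain ⟨a, b, k, hab, hak, hbs⟩ := split (s := p * q) w.den w.den_nz
    have hb0 : b ≠ 0 := by
      rintro rfl
      exact w.den_nz (by rw [hab, mul_zero])
    have hpb : Nat.Coprime p b := (Nat.Coprime.coprime_mul_right_right hbs).symm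
    have hqb : Nat.Coprime q b := (Nat.Coprime.coprime_mul_left_right hbs).symm
    set c := (p * q) ^ k with hc
    obtain ⟨a', ha'⟩ := hak
    have hcμ : MeasurePreserving (fun x : UnitAddCircle => c • x) μ μ :=
      mp_pow (mp_pq hp hq hpq h hne) k
    have hcb : b • (c • θ) = 0 := by
      rw [ha', smul_smul, show b * (a * a') = a' * (a * b) by ring, ← hab, mul_smul, hθn,
        smul_zero]
    have h1 : shift (c • θ) μ = μ := by
      refine (shift_coprime h hb0 hpb hqb hcb).resolve_right fun h2 => hms ?_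
      refine ms_of_map (c := c) ?_
      rwa [map_shift, hcμ.map_eq]
    -- an inverse of `c` modulo `b`
    have hcop : Nat.Coprime c b := (hbs.symm.pow_left k)
    have htot : 1 ≤ b.totient := Nat.totient_pos.2 (Nat.pos_of_ne_zero hb0)
    obtain ⟨v, hv⟩ : ∃ v, c * v ≡ 1 [MOD b] := by
      refine ⟨c ^ (b.totient - 1), ?_⟩
      rw [← pow_succ', Nat.sub_add_cancel htot]
      exact Nat.ModEq.pow_totient hcop
    obtain ⟨l, -, hl⟩ := exists_of_torsion hb0 hcb
    have h2 : (c * v) • (c • θ) = c • θ := by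
      rw [hl, smul_smul]
      exact pN_mod hb0 (by simpa using hv.mul_right l)
    set η := v • (c • θ) with hη
    have h3 : shift η μ = μ := shift_smul h1 v
    have h4 : c • (θ - η) = 0 := by
      rw [smul_sub, hη, smul_smul c v, h2, sub_self]
    have h5 : shift θ μ = shift (θ - η) μ := by
      conv_lhs => rw [show θ = η + (θ - η) by abel, ← shift_shift, h3]
    by_cases h6 : θ - η = 0
    · rw [h5, h6, shift_zero]
    · exfalso
      apply hms
      rw [h5]
      exact ms_of_inj (inj_pow hp hq hpq h hne k) h4 h6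

end

end Run7.h303.TE
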