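import Pool.Agent.Run7.h303.TE.More
import Pool.Agent.Run7.h303.TE.Rat
import Pool.Agent.Run7.h303.TR.Root

/-!
Totally extreme traces.
-/

set_option autoImplicit false

open MeasureTheory Filter Topology Finset
open scoped ENNReal ComplexOrder

namespace Run7.h303.TE

open Run7.h303.TR
open Pool.Agent.W763.Tr
open Pool.Agent.TH654.FC
open Pool.Agent.Y253.TR
open Pool.Agent.R202.TM (JointErg)
open Pool.Agent.R481.TraceErg (erg_of_extreme)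
open Pool.Agent.N276.TT (pow_tau)
open Pool.Agent.R203.ID (hat norm_f f_add f_zero norm_hat_le ext_hat hat_map_nsmul inv_iff)

lemma map_atomless {n : ℕ} (hn : n ≠ 0) {ν : Measure UnitAddCircle} :
    (∀ x, (ν.map fun x : UnitAddCircle => n • x) {x} = 0) ↔ ∀ x, ν {x} = 0 := by
  have hm : Measurable fun x : UnitAddCircle => n • x := by fun_prop
  constructor
  · intro h x
    have h1 := h (n • x)
    rw [Measure.map_apply hm (measurableSet_singleton _)] at h1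
    exact measure_mono_null (fun y hy => by
      rw [Set.mem_singleton_iff] at hy
      simp [hy]) h1
  · intro h y
    haveI : NullSingletonClass ν := ⟨h⟩
    rw [Measure.map_apply hm (measurableSet_singleton _)]
    refine Set.Finite.measure_zero ?_ ν
    by_cases hex : ∃ x₀ : UnitAddCircle, n • x₀ = y
    · obtain ⟨x₀, hx₀⟩ := hex
      have hfin : {x : UnitAddCircle | n • x = 0}.Finite :=
        AddCircle.finite_torsion (p := (1 : ℝ)) (Nat.pos_of_ne_zero hn)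
      refine (hfin.image fun x => x₀ + x).subset fun x hx => ⟨x - x₀, ?_, by abel⟩
      have hx' : n • x = y := hx
      change n • (x - x₀) = 0
      rw [smul_sub, hx', hx₀, sub_self]
    · convert Set.finite_empty
      ext x
      simp only [Set.mem_preimage, Set.mem_singleton_iff, Set.mem_empty_iff_false, iff_false]
      exact fun hx => hex ⟨x, hx⟩

section

variable {s2 s3 t : Equiv.Perm ℚ} (hs2 : ∀ x, s2 x = 2 * x) (hs3 : ∀ x, s3 x = 3 * x)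
  (ht : ∀ x, t x = x + 1) {G : Subgroup (Equiv.Perm ℚ)} (hG : G = Subgroup.closure {s2, s3, t})
  {u : G} (hu : ∀ x : ℚ, (u : Equiv.Perm ℚ) x = x + 1)

include hs2 hs3 ht hG hu

/-- the measure of an extreme trace -/
lemma meas_of_trace {φ : G → ℂ} (h : φ ∈ (TS G).extremePoints ℝ) (hnf : ¬ FD φ) :
    ∃ μ : Measure UnitAddCircle, Erg2 2 3 μ ∧ (∀ x, μ {x} = 0) ∧ ∀ m : ℤ, hat μ m = φ (u ^ m) := by
  obtain ⟨c1, c2, c3⟩ := h.1
  obtain ⟨τ, S6, μ, D⟩ := data_of hs2 hs3 ht hG c1 c2 c3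
  refine ⟨μ, ⟨D.prob, D.mp2, D.mp3, erg_of_extreme D (atomless D h hnf) h⟩, atomless D h hnf,
    fun m => ?_⟩
  rw [pow_tau D.hτ hu]
  exact D.hμ m

/-- the trace of an ergodic measure -/
lemma trace_of_erg {μ : Measure UnitAddCircle} (h : Erg2 2 3 μ) (hat0 : ∀ x, μ {x} = 0) :
    ∃ φ ∈ (TS G).extremePoints ℝ, ¬ FD φ ∧ ∀ m : ℤ, φ (u ^ m) = hat μ m := by
  haveI := h.prob
  obtain ⟨φ, e1, e2, e3, e4, e5⟩ := trace_of_measure hs2 hs3 ht hG μ h.mpa h.mpb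
  obtain ⟨τ, S6, μ', D⟩ := data_of hs2 hs3 ht hG e1 e2 e3
  haveI := D.prob
  have hφu : ∀ m : ℤ, φ (u ^ m) = hat μ m := by
    intro m
    refine e4 _ m 0 fun x => ?_
    rw [pow_tau D.hτ hu, D.hτ]
    simp
  have e : μ' = μ := by
    refine ext_hat fun m => ?_
    rw [← hφu, pow_tau D.hτ hu]
    exact D.hμ m
  subst e
  exact ⟨φ, ext_of_erg hs2 hs3 ht hG D hat0 h.erg, not_fd D hat0, hφu⟩

omit hs2 hs3 ht hG hu in
/-- the totally extreme traces -/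
def Tot (u : G) : Set (G → ℂ) :=
  {φ | φ ∈ (TS G).extremePoints ℝ ∧ ¬ FD φ ∧ (fun m : ℤ => φ (u ^ m)) ∈ TotExt ℤ}

lemma tot_meas {φ : G → ℂ} (h : φ ∈ Tot u) :
    ∃ μ : Measure UnitAddCircle, TErg 2 3 μ ∧ (∀ x, μ {x} = 0) ∧ ∀ m : ℤ, hat μ m = φ (u ^ m) := by
  obtain ⟨h1, h2, h3⟩ := h
  obtain ⟨μ, hμ, hμ0, hμu⟩ := meas_of_trace hs2 hs3 ht hG hu h1 h2
  obtain ⟨μ', hμ', e⟩ := totExt_iff.1 h3
  haveI := hμ.prob
  haveI := hμ'.prob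
  have e' : μ' = μ := by
    refine ext_hat fun m => ?_
    rw [hμu, e]
  subst e'
  exact ⟨μ', hμ', hμ0, hμu⟩

lemma tot_of {μ : Measure UnitAddCircle} (h : TErg 2 3 μ) (hat0 : ∀ x, μ {x} = 0) :
    ∃ φ ∈ Tot u, ∀ m : ℤ, φ (u ^ m) = hat μ m := by
  obtain ⟨φ, h1, h2, h3⟩ := trace_of_erg hs2 hs3 ht hG hu h.erg1 hat0
  exact ⟨φ, ⟨h1, h2, totExt_iff.2 ⟨μ, h, (funext h3).symm⟩⟩, h3⟩

lemma tot_eq {φ φ' : G → ℂ} (h : φ ∈ Tot u) (h' : φ' ∈ Tot u)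
    (he : ∀ m : ℤ, φ (u ^ m) = φ' (u ^ m)) : φ = φ' :=
  eq_of_values hs2 hs3 ht hG hu h.1 h.2.1 h'.1 h'.2.1 he

/-- **Unique totally extreme roots.** -/
theorem tot_root {n : ℕ} (hn : n ≠ 0) {φ : G → ℂ} (h : φ ∈ Tot u) :
    ∃ ψ ∈ Tot u, (∀ m : ℤ, ψ (u ^ ((n : ℤ) * m)) = φ (u ^ m)) ∧
      ∀ ψ' ∈ Tot u, (∀ m : ℤ, ψ' (u ^ ((n : ℤ) * m)) = φ (u ^ m)) → ψ' = ψ := by
  obtain ⟨μ, hμ, hμ0, hμu⟩ := tot_meas hs2 hs3 ht hG hu h
  obtain ⟨ν, ⟨e1, e2⟩, e3⟩ := bij hn hμ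
  haveI := e1.prob
  have hν0 : ∀ x, ν {x} = 0 := (map_atomless hn).1 (by rw [e2]; exact hμ0)
  obtain ⟨ψ, hψ, hψu⟩ := tot_of hs2 hs3 ht hG hu e1 hν0
  refine ⟨ψ, hψ, fun m => ?_, fun ψ' hψ' h' => ?_⟩
  · rw [hψu, ← hμu, ← e2, hat_map_nsmul, mul_comm]
  · obtain ⟨ν', g1, g2, g3⟩ := tot_meas hs2 hs3 ht hG hu hψ'
    haveI := g1.prob
    have e : ν' = ν := by
      refine e3 ν' g1 ?_
      haveI := (g1.map n).prob
      haveI := hμ.prob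
      refine ext_hat fun m => ?_
      rw [hat_map_nsmul, mul_comm, g3, h', hμu]
    refine tot_eq hs2 hs3 ht hG hu hψ' hψ fun m => ?_
    rw [← g3, e, hψu]

/-- powers -/
theorem tot_pow {n : ℕ} (hn : n ≠ 0) {φ : G → ℂ} (h : φ ∈ Tot u) :
    ∃ ψ ∈ Tot u, (∀ m : ℤ, ψ (u ^ m) = φ (u ^ ((n : ℤ) * m))) ∧
      ∀ ψ' ∈ Tot u, (∀ m : ℤ, ψ' (u ^ m) = φ (u ^ ((n : ℤ) * m))) → ψ' = ψ := by
  obtain ⟨μ, hμ, hμ0, hμu⟩ := tot_meas hs2 hs3 ht hG hu h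
  haveI := hμ.prob
  obtain ⟨ψ, hψ, hψu⟩ := tot_of hs2 hs3 ht hG hu (hμ.map n) ((map_atomless hn).2 hμ0)
  have h1 : ∀ m : ℤ, ψ (u ^ m) = φ (u ^ ((n : ℤ) * m)) := fun m => by
    rw [hψu, hat_map_nsmul, mul_comm, hμu]
  exact ⟨ψ, hψ, h1, fun ψ' hψ' h' => tot_eq hs2 hs3 ht hG hu hψ' hψ fun m => by rw [h', h1]⟩

/-- **All roots.** -/
theorem tot_roots {n K : ℕ} (hn : n ≠ 0) (hK : 1 ≤ K) (h2 : 2 ^ K ≡ 1 [MOD n])
    (h3 : 3 ^ K ≡ 1 [MOD n]) {ψ : G → ℂ} (h : ψ ∈ Tot u) :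
    ∃ (n' : ℕ) (lift : ℕ → G → ℂ), n' ∣ n ∧
      (∀ k, lift k ∈ (TS G).extremePoints ℝ ∧ ¬ FD (lift k) ∧
        (∀ m : ℤ, lift k (u ^ ((n : ℤ) * m)) = ψ (u ^ ((n : ℤ) * m))) ∧
        ∀ m : ℤ, lift k (u ^ m) = ψ (u ^ m) * chi n 2 3 K k m) ∧
      (∀ ψ' ∈ (TS G).extremePoints ℝ, ¬ FD ψ' →
        (∀ m : ℤ, ψ' (u ^ ((n : ℤ) * m)) = ψ (u ^ ((n : ℤ) * m))) → ∃ k, ψ' = lift k) ∧
      ∀ k l, lift k = lift l ↔ ∃ i j : ℕ, k ≡ 2 ^ i * 3 ^ j * l [MOD n'] := by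
  obtain ⟨ν, hν, hν0, hνu⟩ := tot_meas hs2 hs3 ht hG hu h
  haveI := hν.prob
  obtain ⟨n', hn', hd, hper⟩ := exists_period hn ν
  have hroot := fun k : ℕ => oav_root (h := k) hn hK h2 h3 hν
  have hν1 : ∀ x, (ν.map fun x : UnitAddCircle => n • x) {x} = 0 := (map_atomless hn).2 hν0
  have hν2 : ∀ (k : ℕ) (x : UnitAddCircle), (oav n 2 3 K k ν) {x} = 0 := fun k =>
    (map_atomless hn).1 (by rw [(hroot k).2]; exact hν1)
  choose lift l1 l2 l3 using fun k => trace_of_erg hs2 hs3 ht hG hu (hroot k).1 (hν2 k)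
  have lv : ∀ (k : ℕ) (m : ℤ), lift k (u ^ ((n : ℤ) * m)) = ψ (u ^ ((n : ℤ) * m)) := by
    intro k m
    haveI := (hroot k).1.prob
    rw [l3, ← hνu, mul_comm, ← hat_map_nsmul, ← hat_map_nsmul, (hroot k).2]
  have leq : ∀ k l : ℕ, lift k = lift l ↔ oav n 2 3 K k ν = oav n 2 3 K l ν := by
    intro k l
    haveI := (hroot k).1.prob
    haveI := (hroot l).1.prob
    constructor
    · intro e
      refine ext_hat fun m => ?_
      rw [← l3, ← l3, e]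
    · intro e
      refine eq_of_values hs2 hs3 ht hG hu (l1 k) (l2 k) (l1 l) (l2 l) fun m => ?_
      rw [l3, l3, e]
  refine ⟨n', lift, hd, fun k => ⟨l1 k, l2 k, lv k, fun m => ?_⟩, fun ψ' g1 g2 g3 => ?_,
    fun k l => ?_⟩
  · rw [l3, hat_oav, hνu]
  · obtain ⟨ν', e1, e2, e3⟩ := meas_of_trace hs2 hs3 ht hG hu g1 g2
    haveI := e1.prob
    obtain ⟨k, -, hk⟩ := root_eq_oav hn hK h2 h3 hν e1 (by
      haveI := (hν.map n).prob
      haveI : IsProbabilityMeasure (ν'.map fun x : UnitAddCircle => n • x) :=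
        Measure.isProbabilityMeasure_map (by fun_prop)
      refine ext_hat fun m => ?_
      rw [hat_map_nsmul, hat_map_nsmul, mul_comm, e3, g3, hνu])
    refine ⟨k, eq_of_values hs2 hs3 ht hG hu g1 g2 (l1 k) (l2 k) fun m => ?_⟩
    rw [l3, ← hk, e3]
  · rw [leq, oav_eq_iff hn hK h2 h3 hν]
    simp only [hper]

end

end Run7.h303.TE
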