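import Pool.Agent.Run7.h303.TE.Root

/-!
Totally ergodic measures for the multiplications by 2 and 3: every `x ↦ n x` acts bijectively on
them, and they extend uniquely to the rational numbers.
-/

set_option autoImplicit false

open MeasureTheory Filter Topology Finset
open scoped ENNReal

namespace Run7.h303.TE

open Run7.h303.TR
open Pool.Agent.R202.TM (JointErg)
open Pool.Agent.R203.ID (hat norm_f f_add f_zero norm_hat_le ext_hat hat_map_nsmul inv_iff)

/-- a positive integer is a product of a power of 2, a power of 3 and an integer prime to 6 -/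
lemma six_part_nat {n : ℕ} (hn : n ≠ 0) : ∃ a b c : ℕ, c ≠ 0 ∧ ¬ 2 ∣ c ∧ ¬ 3 ∣ c ∧
    n = 2 ^ a * (3 ^ b * c) := by
  obtain ⟨a, n1, h1, e1⟩ := Nat.exists_eq_pow_mul_and_not_dvd hn 2 (by norm_num)
  have hn1 : n1 ≠ 0 := by rintro rfl; simp at h1
  obtain ⟨b, n2, h2, e2⟩ := Nat.exists_eq_pow_mul_and_not_dvd hn1 3 (by norm_num)
  have hn2 : n2 ≠ 0 := by rintro rfl; simp at h2
  exact ⟨a, b, n2, hn2, fun h => h1 (e2 ▸ h.mul_left _), h2, by rw [e1, e2]⟩

lemma map_mul (ν : Measure UnitAddCircle) (a b : ℕ) :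
    ν.map (fun x : UnitAddCircle => (a * b) • x) =
      (ν.map fun x : UnitAddCircle => a • x).map fun x : UnitAddCircle => b • x := by
  rw [Measure.map_map (by fun_prop) (by fun_prop)]
  congr 1
  funext x
  simp only [Function.comp]
  rw [smul_smul, mul_comm]

lemma map_six {p q : ℕ} {ν : Measure UnitAddCircle} (h : TErg p q ν) (a b c : ℕ) :
    ν.map (fun x : UnitAddCircle => (p ^ a * (q ^ b * c)) • x) =
      ν.map fun x : UnitAddCircle => c • x := by
  rw [map_mul, (mp_pow h.mpp a).map_eq, map_mul, (mp_pow h.mpq b).map_eq]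

/-- **Every `x ↦ n x` acts bijectively on the totally ergodic measures.** -/
theorem bij {n : ℕ} (hn : n ≠ 0) {μ : Measure UnitAddCircle} (hμ : TErg 2 3 μ) :
    ∃ ν : Measure UnitAddCircle, (TErg 2 3 ν ∧ ν.map (fun x : UnitAddCircle => n • x) = μ) ∧
      ∀ ν' : Measure UnitAddCircle, TErg 2 3 ν' → ν'.map (fun x : UnitAddCircle => n • x) = μ →
        ν' = ν := by
  obtain ⟨a, b, c, hc, h2, h3, rfl⟩ := six_part_nat hn
  have hc2 : Nat.Coprime 2 c := (Nat.Prime.coprime_iff_not_dvd Nat.prime_two).2 h2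
  have hc3 : Nat.Coprime 3 c := (Nat.Prime.coprime_iff_not_dvd Nat.prime_three).2 h3
  obtain ⟨ν, ⟨e1, e2⟩, e3⟩ := exists_unique_root (n := c) (p := 2) (q := 3) hc (by norm_num)
    (by simp) hc2 hc3 hμ
  refine ⟨ν, ⟨e1, ?_⟩, fun ν' f1 f2 => e3 ν' f1 ?_⟩
  · rw [map_six e1, e2]
  · rwa [map_six f1] at f2

/-- the totally ergodic root of order `n` -/
noncomputable def root (n : ℕ) {μ : Measure UnitAddCircle} (hμ : TErg 2 3 μ) :
    Measure UnitAddCircle :=
  if h : n ≠ 0 then (bij h hμ).choose else μ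

lemma root_spec {n : ℕ} (hn : n ≠ 0) {μ : Measure UnitAddCircle} (hμ : TErg 2 3 μ) :
    TErg 2 3 (root n hμ) ∧ (root n hμ).map (fun x : UnitAddCircle => n • x) = μ ∧
      ∀ ν' : Measure UnitAddCircle, TErg 2 3 ν' → ν'.map (fun x : UnitAddCircle => n • x) = μ →
        ν' = root n hμ := by
  have h := (bij hn hμ).choose_spec
  unfold root
  rw [dif_pos hn]
  exact ⟨h.1.1, h.1.2, h.2⟩

lemma root_map {n k : ℕ} (hn : n ≠ 0) (hk : k ≠ 0) {μ : Measure UnitAddCircle} (hμ : TErg 2 3 μ) :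
    (root (n * k) hμ).map (fun x : UnitAddCircle => k • x) = root n hμ := by
  obtain ⟨h1, h2, -⟩ := root_spec (mul_ne_zero hn hk) hμ
  obtain ⟨-, -, h3⟩ := root_spec hn hμ
  refine h3 _ (h1.map k) ?_
  rw [← map_mul, mul_comm k n, h2]

/-- the extension to the rational numbers -/
noncomputable def Fext {μ : Measure UnitAddCircle} (hμ : TErg 2 3 μ) (r : ℚ) : ℂ :=
  hat (root r.den hμ) r.num

lemma Fext_div {μ : Measure UnitAddCircle} (hμ : TErg 2 3 μ) (m : ℤ) {n : ℕ} (hn : n ≠ 0) :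
    Fext hμ ((m : ℚ) / n) = hat (root n hμ) m := by
  set r : ℚ := (m : ℚ) / n with hr
  have hn' : (n : ℚ) ≠ 0 := by exact_mod_cast hn
  have h0 : (r.num : ℚ) / r.den = m / n := by rw [Rat.num_div_den, hr]
  have hd : (r.den : ℚ) ≠ 0 := by exact_mod_cast r.den_nz
  rw [div_eq_div_iff hd hn'] at h0
  have h1 : r.num * n = m * r.den := by exact_mod_cast h0
  have h2 : r.den ∣ n := by
    have h3 : (r.den : ℤ) ∣ r.num * n := Dvd.intro_left m h1.symm
    have h4 : IsCoprime (r.den : ℤ) r.num := by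
      rw [Int.isCoprime_iff_nat_coprime, Int.natAbs_natCast]
      exact r.reduced.symm
    exact_mod_cast h4.dvd_of_dvd_mul_left h3
  obtain ⟨c, hc⟩ := h2
  have hc0 : c ≠ 0 := by
    rintro rfl
    exact hn (by rw [hc, mul_zero])
  have h5 : m = r.num * c := by
    have h6 : r.num * ((r.den : ℤ) * c) = m * r.den := by
      rw [← h1, hc]
      push_cast
      ring
    have h7 : (r.den : ℤ) ≠ 0 := by exact_mod_cast r.den_nz
    have h8 : (r.den : ℤ) * (r.num * c) = r.den * m := by linarith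
    exact (mul_left_cancel₀ h7 h8).symm
  haveI := (root_spec (mul_ne_zero r.den_nz hc0) hμ).1.prob
  unfold Fext
  rw [hc, h5, ← root_map r.den_nz hc0 hμ, hat_map_nsmul]

/-- **The extension to the rational numbers.** -/
theorem exists_unique_ext {μ : Measure UnitAddCircle} (hμ : TErg 2 3 μ) :
    ∃ F : ℚ → ℂ, ((∀ m : ℤ, F m = hat μ m) ∧ ∀ n : ℕ, n ≠ 0 → ∃ ν : Measure UnitAddCircle,
      TErg 2 3 ν ∧ ∀ m : ℤ, F ((m : ℚ) / n) = hat ν m) ∧
      ∀ F' : ℚ → ℂ, (∀ m : ℤ, F' m = hat μ m) → (∀ n : ℕ, n ≠ 0 → ∃ ν : Measure UnitAddCircle,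
        TErg 2 3 ν ∧ ∀ m : ℤ, F' ((m : ℚ) / n) = hat ν m) → F' = F := by
  haveI := hμ.prob
  have hroot1 : root 1 hμ = μ := by
    have h := (root_spec one_ne_zero hμ).2.1
    have e : (fun x : UnitAddCircle => (1 : ℕ) • x) = id := by funext x; simp
    rwa [e, Measure.map_id] at h
  refine ⟨Fext hμ, ⟨fun m => ?_, fun n hn => ⟨root n hμ, (root_spec hn hμ).1, fun m =>
    Fext_div hμ m hn⟩⟩, fun F' h1 h2 => ?_⟩
  · have h := Fext_div hμ m one_ne_zero
    rw [Nat.cast_one, div_one, hroot1] at h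
    exact h
  · funext r
    obtain ⟨ν, hν, hνF⟩ := h2 r.den r.den_nz
    haveI := hν.prob
    haveI : IsProbabilityMeasure (ν.map fun x : UnitAddCircle => r.den • x) :=
      Measure.isProbabilityMeasure_map (by fun_prop)
    have hd : (r.den : ℚ) ≠ 0 := by exact_mod_cast r.den_nz
    have e : ν.map (fun x : UnitAddCircle => r.den • x) = μ := by
      refine ext_hat fun m => ?_
      rw [hat_map_nsmul, ← hνF, ← h1]
      congr 1
      push_cast
      field_simp
    have e2 := (root_spec r.den_nz hμ).2.2 ν hν e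
    unfold Fext
    rw [← e2, ← hνF, Rat.num_div_den]

end Run7.h303.TE
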